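import Pool.Agent.Helper27.MQ.Fin

/-!
# Functions of the conformal part plus a quadratic form
-/

set_option autoImplicit false

open MeasureTheory Set Filter Topology

namespace Pool.Agent.Helper27.MQ

open Pool.Agent.W779.Morrey hiding en en_apply
open Pool.Agent.N555.MQ

/-- the algebra of the certificate -/
theorem conf_alg (x00 x01 x11 b00 b01 b10 b11 K : ℝ)
    (hpos : ∀ s0 s1 r0 r1 : ℝ, r0 ^ 2 + r1 ^ 2 = s0 ^ 2 + s1 ^ 2 →
      0 ≤ (x00 * s0 ^ 2 + 2 * x01 * (s0 * s1) + x11 * s1 ^ 2)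
        + 2 * (b00 * (s0 * r0) + b01 * (s0 * r1) + b10 * (s1 * r0) + b11 * (s1 * r1))
        + 2 * K * (s0 ^ 2 + s1 ^ 2)) :
    ∃ l : ℝ, ∀ p0 p1 q0 q1 : ℝ, 0 ≤
      (x00 * p0 ^ 2 + 2 * x01 * (p0 * p1) + x11 * p1 ^ 2)
      + (x00 * q0 ^ 2 + 2 * x01 * (q0 * q1) + x11 * q1 ^ 2)
      + 2 * K * ((p0 - q1) ^ 2 + (p1 + q0) ^ 2)
      + 2 * ((b00 * (p0 * p0) + b01 * (p0 * p1) + b10 * (p1 * p0) + b11 * (p1 * p1))
        - (b00 * (q0 * q0) + b01 * (q0 * q1) + b10 * (q1 * q0) + b11 * (q1 * q1))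
        + (b00 * (p0 * (-q1)) + b01 * (p0 * q0) + b10 * (p1 * (-q1)) + b11 * (p1 * q0))
        + (b00 * (q0 * (-p1)) + b01 * (q0 * p0) + b10 * (q1 * (-p1)) + b11 * (q1 * p0)))
      + l * (p0 * q1 - p1 * q0) := by
  set e00 := en 0 0 with he00
  set e01 := en 0 1 with he01
  set e10 := en 1 0 with he10
  set e11 := en 1 1 with he11
  set B : E →L[ℝ] E →L[ℝ] ℝ :=
    (x00 • e00.smulRight e00 + (2 * x01) • e00.smulRight e01 + x11 • e01.smulRight e01)
    + (x00 • e10.smulRight e10 + (2 * x01) • e10.smulRight e11 + x11 • e11.smulRight e11)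
    + (2 * K) • ((e00 - e11).smulRight (e00 - e11) + (e01 + e10).smulRight (e01 + e10))
    + (2 : ℝ) • ((b00 • e00.smulRight e00 + b01 • e00.smulRight e01 + b10 • e01.smulRight e00
        + b11 • e01.smulRight e01)
      - (b00 • e10.smulRight e10 + b01 • e10.smulRight e11 + b10 • e11.smulRight e10
        + b11 • e11.smulRight e11)
      + (-(b00 • e00.smulRight e11) + b01 • e00.smulRight e10 - b10 • e01.smulRight e11
        + b11 • e01.smulRight e10)
      + (-(b00 • e10.smulRight e01) + b01 • e10.smulRight e00 - b10 • e11.smulRight e01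
        + b11 • e11.smulRight e00)) with hB
  have hBa : ∀ N : E, B N N =
      (x00 * N 0 0 ^ 2 + 2 * x01 * (N 0 0 * N 0 1) + x11 * N 0 1 ^ 2)
      + (x00 * N 1 0 ^ 2 + 2 * x01 * (N 1 0 * N 1 1) + x11 * N 1 1 ^ 2)
      + 2 * K * ((N 0 0 - N 1 1) ^ 2 + (N 0 1 + N 1 0) ^ 2)
      + 2 * ((b00 * (N 0 0 * N 0 0) + b01 * (N 0 0 * N 0 1) + b10 * (N 0 1 * N 0 0)
          + b11 * (N 0 1 * N 0 1))
        - (b00 * (N 1 0 * N 1 0) + b01 * (N 1 0 * N 1 1) + b10 * (N 1 1 * N 1 0)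
          + b11 * (N 1 1 * N 1 1))
        + (b00 * (N 0 0 * (-N 1 1)) + b01 * (N 0 0 * N 1 0) + b10 * (N 0 1 * (-N 1 1))
          + b11 * (N 0 1 * N 1 0))
        + (b00 * (N 1 0 * (-N 0 1)) + b01 * (N 1 0 * N 0 0) + b10 * (N 1 1 * (-N 0 1))
          + b11 * (N 1 1 * N 0 0))) := by
    intro N
    simp only [hB, he00, he01, he10, he11, _root_.sub_apply, _root_.add_apply, _root_.neg_apply,
      FunLike.coe_smul, Pi.smul_apply, ContinuousLinearMap.smulRight_apply, en_apply, smul_eq_mul]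
    ring
  have hmain : ∀ N : E, dt N = 0 → 0 ≤ B N N := by
    intro N hN
    rw [hBa]
    by_cases hp : N 0 0 = 0 ∧ N 0 1 = 0
    · rw [hp.1, hp.2]
      have h1 := hpos (N 1 0) (N 1 1) (-N 1 0) (-N 1 1) (by ring)
      have e : (x00 * (0:ℝ) ^ 2 + 2 * x01 * (0 * 0) + x11 * 0 ^ 2) +
            (x00 * N 1 0 ^ 2 + 2 * x01 * (N 1 0 * N 1 1) + x11 * N 1 1 ^ 2) +
          2 * K * ((0 - N 1 1) ^ 2 + (0 + N 1 0) ^ 2) +
        2 *
          (b00 * (0 * 0) + b01 * (0 * 0) + b10 * (0 * 0) + b11 * (0 * 0) -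
                (b00 * (N 1 0 * N 1 0) + b01 * (N 1 0 * N 1 1) + b10 * (N 1 1 * N 1 0)
                  + b11 * (N 1 1 * N 1 1)) +
              (b00 * (0 * -N 1 1) + b01 * (0 * N 1 0) + b10 * (0 * -N 1 1) + b11 * (0 * N 1 0)) +
            (b00 * (N 1 0 * -0) + b01 * (N 1 0 * 0) + b10 * (N 1 1 * -0) + b11 * (N 1 1 * 0)))
        = (x00 * N 1 0 ^ 2 + 2 * x01 * (N 1 0 * N 1 1) + x11 * N 1 1 ^ 2)
          + 2 * (b00 * (N 1 0 * -N 1 0) + b01 * (N 1 0 * -N 1 1) + b10 * (N 1 1 * -N 1 0)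
            + b11 * (N 1 1 * -N 1 1)) + 2 * K * (N 1 0 ^ 2 + N 1 1 ^ 2) := by ring
      rw [e]
      exact h1
    · have hp2 : 0 < N 0 0 ^ 2 + N 0 1 ^ 2 := by
        by_cases h0 : N 0 0 = 0
        · have h1 : N 0 1 ≠ 0 := fun h1 => hp ⟨h0, h1⟩
          positivity
        · positivity
      set τ := (N 0 0 * N 1 0 + N 0 1 * N 1 1) / (N 0 0 ^ 2 + N 0 1 ^ 2) with hτ
      have hdt : N 0 0 * N 1 1 - N 0 1 * N 1 0 = 0 := hN
      have q0 : N 1 0 = τ * N 0 0 := by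
        rw [hτ, div_mul_eq_mul_div, eq_div_iff hp2.ne']
        linear_combination (-(N 0 1)) * hdt
      have q1 : N 1 1 = τ * N 0 1 := by
        rw [hτ, div_mul_eq_mul_div, eq_div_iff hp2.ne']
        linear_combination (N 0 0) * hdt
      rw [q0, q1]
      set p0 := N 0 0 with hp0
      set p1 := N 0 1 with hp1
      have hτ1 : 0 < 1 + τ ^ 2 := by positivity
      have h1 := hpos p0 p1 (((1 - τ ^ 2) * p0 - 2 * τ * p1) / (1 + τ ^ 2))
        (((1 - τ ^ 2) * p1 + 2 * τ * p0) / (1 + τ ^ 2)) (by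
          field_simp
          ring)
      have h2 := mul_nonneg hτ1.le h1
      have e : (1 + τ ^ 2) * ((x00 * p0 ^ 2 + 2 * x01 * (p0 * p1) + x11 * p1 ^ 2)
        + 2 * (b00 * (p0 * (((1 - τ ^ 2) * p0 - 2 * τ * p1) / (1 + τ ^ 2)))
          + b01 * (p0 * (((1 - τ ^ 2) * p1 + 2 * τ * p0) / (1 + τ ^ 2)))
          + b10 * (p1 * (((1 - τ ^ 2) * p0 - 2 * τ * p1) / (1 + τ ^ 2)))
          + b11 * (p1 * (((1 - τ ^ 2) * p1 + 2 * τ * p0) / (1 + τ ^ 2))))
        + 2 * K * (p0 ^ 2 + p1 ^ 2))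
        = (1 + τ ^ 2) * (x00 * p0 ^ 2 + 2 * x01 * (p0 * p1) + x11 * p1 ^ 2)
        + 2 * (b00 * (p0 * ((1 - τ ^ 2) * p0 - 2 * τ * p1))
          + b01 * (p0 * ((1 - τ ^ 2) * p1 + 2 * τ * p0))
          + b10 * (p1 * ((1 - τ ^ 2) * p0 - 2 * τ * p1))
          + b11 * (p1 * ((1 - τ ^ 2) * p1 + 2 * τ * p0)))
        + (1 + τ ^ 2) * (2 * K * (p0 ^ 2 + p1 ^ 2)) := by
        field_simp
      rw [e] at h2
      refine le_of_le_of_eq h2 ?_
      ring
  obtain ⟨l, hl⟩ := slemma B hmain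
  refine ⟨l, fun p0 p1 q0 q1 => ?_⟩
  have h1 := hl (fun r l => if r = 0 then (if l = 0 then p0 else p1) else
    (if l = 0 then q0 else q1))
  rw [hBa] at h1
  simp only [dt, if_true, one_ne_zero, if_false] at h1
  linarith

/-- the conformal part -/
noncomputable def wL : E →L[ℝ] V :=
  ContinuousLinearMap.pi fun r => if r = 0 then en 0 0 + en 1 1 else en 1 0 - en 0 1

/-- the anticonformal part -/
noncomputable def vL : E →L[ℝ] V :=
  ContinuousLinearMap.pi fun r => if r = 0 then en 0 0 - en 1 1 else en 1 0 + en 0 1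

theorem wL_zero (F : E) : wL F 0 = F 0 0 + F 1 1 := by simp [wL, en_apply]
theorem wL_one (F : E) : wL F 1 = F 1 0 - F 0 1 := by simp [wL, en_apply]
theorem vL_zero (F : E) : vL F 0 = F 0 0 - F 1 1 := by simp [vL, en_apply]
theorem vL_one (F : E) : vL F 1 = F 1 0 + F 0 1 := by simp [vL, en_apply]

/-- the matrix with the given conformal and anticonformal parts -/
noncomputable def mkc (w v : V) : E := fun r l =>
  if r = 0 then (if l = 0 then (w 0 + v 0) / 2 else (v 1 - w 1) / 2)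
  else (if l = 0 then (w 1 + v 1) / 2 else (w 0 - v 0) / 2)

theorem wL_mkc (w v : V) : wL (mkc w v) = w := by
  ext r
  fin_cases r
  · simp only [Fin.zero_eta, wL_zero, mkc, if_true, one_ne_zero, if_false]; ring
  · simp only [Fin.mk_one, wL_one, mkc, if_true, one_ne_zero, if_false]; ring

theorem vL_mkc (w v : V) : vL (mkc w v) = v := by
  ext r
  fin_cases r
  · simp only [Fin.zero_eta, vL_zero, mkc, if_true, one_ne_zero, if_false]; ring
  · simp only [Fin.mk_one, vL_one, mkc, if_true, one_ne_zero, if_false]; ring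

theorem mkc_eta (F : E) : mkc (wL F) (vL F) = F := by
  ext r l
  fin_cases r <;> fin_cases l <;> simp [mkc, wL_zero, wL_one, vL_zero, vL_one]

theorem dt_conf (F : E) :
    4 * dt F = (wL F 0 ^ 2 + wL F 1 ^ 2) - (vL F 0 ^ 2 + vL F 1 ^ 2) := by
  simp only [dt, wL_zero, wL_one, vL_zero, vL_one]
  ring

/-- the section -/
noncomputable def confZ : V →L[ℝ] E :=
  LinearMap.toContinuousLinearMap
    { toFun := fun w => mkc w 0
      map_add' := fun x y => by
        ext r l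
        fin_cases r <;> fin_cases l <;> simp [mkc] <;> ring
      map_smul' := fun c x => by
        ext r l
        fin_cases r <;> fin_cases l <;> simp [mkc] <;> ring }

theorem confZ_apply (w : V) : wL (confZ w) = w := wL_mkc w 0

/-- the smooth case; the coordinates of the quadratic form are given -/
theorem conf_smooth {h : V → ℝ} (hh : ContDiff ℝ 2 h) (B : E →L[ℝ] E →L[ℝ] ℝ)
    (c00 c01 c11 b00 b01 b10 b11 K : ℝ)
    (hB : ∀ F : E, B F F = (c00 * wL F 0 ^ 2 + 2 * c01 * (wL F 0 * wL F 1) + c11 * wL F 1 ^ 2)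
      + (b00 * (wL F 0 * vL F 0) + b01 * (wL F 0 * vL F 1) + b10 * (wL F 1 * vL F 0)
        + b11 * (wL F 1 * vL F 1)) + K * (vL F 0 ^ 2 + vL F 1 ^ 2))
    (hpt : ∀ (v : V) (H : E), dt H = 0 →
      0 ≤ fderiv ℝ (fderiv ℝ h) v (wL H) (wL H) + 2 * B H H) :
    QCtrig (fun F : E => h (wL F) + B F F) := by
  set β₁ : V := ![1, 0] with hβ₁
  set β₂ : V := ![0, 1] with hβ₂
  have hβ : cr β₁ β₂ ≠ 0 := by simp [cr, hβ₁, hβ₂]
  set W0 : E →L[ℝ] ℝ := en 0 0 + en 1 1 with hW0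
  set W1 : E →L[ℝ] ℝ := en 1 0 - en 0 1 with hW1
  set V0 : E →L[ℝ] ℝ := en 0 0 - en 1 1 with hV0
  set V1 : E →L[ℝ] ℝ := en 1 0 + en 0 1 with hV1
  set Ω : E →L[ℝ] E →L[ℝ] ℝ := (4 * K) • V0.smulRight V1
    + (2 * b00) • W0.smulRight V1 - (2 * b01) • W0.smulRight V0
    + (2 * b10) • W1.smulRight V1 - (2 * b11) • W1.smulRight V0 with hΩ
  refine sel_main' (contDiff_WL hh wL B) wL confZ confZ_apply hβ Ω ?_ ?_ fun v => ?_
  · refine ⟨ee 1 1, ee 1 0, fun r => ?_, ?_⟩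
    · fin_cases r <;> simp [ee]
    · simp only [cr, wL_zero, wL_one]
      simp [ee]
  · refine ⟨ee 0 0, ee 0 1, fun r => ?_, ?_⟩
    · fin_cases r <;> simp [ee]
    · simp only [cr, wL_zero, wL_one]
      simp [ee]
  · set D := fderiv ℝ (fderiv ℝ h) v with hD
    set d00 := D (Pi.single 0 1) (Pi.single 0 1) with hd00
    set d01 := (D (Pi.single 0 1) (Pi.single 1 1) + D (Pi.single 1 1) (Pi.single 0 1)) / 2 with hd01
    set d11 := D (Pi.single 1 1) (Pi.single 1 1) with hd11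
    have hDs : ∀ s : V, D s s = d00 * s 0 ^ 2 + 2 * d01 * (s 0 * s 1) + d11 * s 1 ^ 2 := by
      intro s
      rw [D_expand, hd00, hd01, hd11]
      ring
    obtain ⟨l, hl⟩ := conf_alg (d00 + 2 * c00) (d01 + 2 * c01) (d11 + 2 * c11) b00 b01 b10 b11 K (by
        intro s0 s1 r0 r1 hsr
        have h1 := hpt v (mkc ![s0, s1] ![r0, r1]) (by
          have := dt_conf (mkc ![s0, s1] ![r0, r1])
          rw [wL_mkc, vL_mkc] at this
          simp only [Matrix.cons_val_zero, Matrix.cons_val_one] at this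
          linarith)
        rw [hDs, hB, wL_mkc, vL_mkc] at h1
        simp only [Matrix.cons_val_zero, Matrix.cons_val_one] at h1
        rw [hsr] at h1
        linarith)
    refine ⟨l, fun F hF G₀ G₁ hG => ?_⟩
    have hl' := hl (wL G₀ 0) (wL G₀ 1) (wL G₁ 0) (wL G₁ 1)
    rw [second_WL hh, second_WL hh, hF, hDs, hDs, hB, hB]
    have g0 := hG 0
    have g1 := hG 1
    simp only [hΩ, hW0, hW1, hV0, hV1, hβ₁, hβ₂, cr, Matrix.cons_val_zero, Matrix.cons_val_one,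
      _root_.add_apply, _root_.sub_apply, FunLike.coe_smul,
      Pi.smul_apply, ContinuousLinearMap.smulRight_apply, en_apply, smul_eq_mul, zero_smul,
      one_smul, add_zero, zero_add]
    simp only [wL_zero, wL_one, vL_zero, vL_one, ← g0, ← g1] at hl' ⊢
    linarith

end Pool.Agent.Helper27.MQ
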