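import Mathlib

/-!
# A rank-one convex function of the form `h (w) + 2 w₀ v₀ + |v|²` which is not polyconvex
-/

set_option autoImplicit false

open Set Matrix

namespace Pool.Agent.Helper27.MQ

/-- the function of the conformal part -/
noncomputable def kC (x y : ℝ) : ℝ :=
  (-40 * y ^ 4 + 16 * y ^ 6 + y ^ 8) / 240 + (1 + y ^ 4) * x ^ 2 + 23 * x ^ 4

/-- the whole function, in conformal coordinates -/
noncomputable def wC (x y z w : ℝ) : ℝ := kC x y + 2 * (x * z) + (z ^ 2 + w ^ 2)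

theorem wC_deriv (x y z w a b c d t : ℝ) :
    HasDerivAt (fun t : ℝ => wC (x + t * a) (y + t * b) (z + t * c) (w + t * d))
    ((-160 * (y + t * b) ^ 3 + 96 * (y + t * b) ^ 5 + 8 * (y + t * b) ^ 7) / 240 * b
      + (4 * (y + t * b) ^ 3 * b * (x + t * a) ^ 2 + (1 + (y + t * b) ^ 4) * (2 * (x + t * a) * a))
      + 92 * (x + t * a) ^ 3 * a
      + 2 * (a * (z + t * c) + (x + t * a) * c) + (2 * (z + t * c) * c + 2 * (w + t * d) * d)) t := by
  have hX : ∀ u v : ℝ, HasDerivAt (fun t : ℝ => u + t * v) v t := fun u v => by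
    simpa using ((hasDerivAt_id t).mul_const v).const_add u
  unfold wC kC
  have t1 := (((((hX y b).pow 4).const_mul (-40)).add (((hX y b).pow 6).const_mul 16)).add
    ((hX y b).pow 8)).div_const 240
  have t2 := (((hX y b).pow 4).const_add 1).mul ((hX x a).pow 2)
  have t3 := ((hX x a).pow 4).const_mul 23
  have t4 := ((hX x a).mul (hX z c)).const_mul 2
  have t5 := ((hX z c).pow 2).add ((hX w d).pow 2)
  refine ((((t1.add t2).add t3).add t4).add t5).congr_deriv ?_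
  simp only [Pi.add_apply, Pi.pow_apply]
  push_cast
  ring

theorem wC_deriv2 (x y z w a b c d t : ℝ) :
    HasDerivAt (fun t : ℝ =>
      ((-160 * (y + t * b) ^ 3 + 96 * (y + t * b) ^ 5 + 8 * (y + t * b) ^ 7) / 240 * b
      + (4 * (y + t * b) ^ 3 * b * (x + t * a) ^ 2 + (1 + (y + t * b) ^ 4) * (2 * (x + t * a) * a))
      + 92 * (x + t * a) ^ 3 * a
      + 2 * (a * (z + t * c) + (x + t * a) * c) + (2 * (z + t * c) * c + 2 * (w + t * d) * d)))
    (2 * ((1 + (y + t * b) ^ 4 + 138 * (x + t * a) ^ 2) * a ^ 2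
      + 8 * ((x + t * a) * (y + t * b) ^ 3) * (a * b)
      + (-(y + t * b) ^ 2 + (y + t * b) ^ 4 + 7 / 60 * (y + t * b) ^ 6
        + 6 * (x + t * a) ^ 2 * (y + t * b) ^ 2) * b ^ 2
      + 2 * (a * c) + (c ^ 2 + d ^ 2))) t := by
  have hX : ∀ u v : ℝ, HasDerivAt (fun t : ℝ => u + t * v) v t := fun u v => by
    simpa using ((hasDerivAt_id t).mul_const v).const_add u
  have t1 := ((((((hX y b).pow 3).const_mul (-160)).add (((hX y b).pow 5).const_mul 96)).add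
    (((hX y b).pow 7).const_mul 8)).div_const 240).mul_const b
  have t2 := (((((hX y b).pow 3).const_mul 4).mul_const b).mul ((hX x a).pow 2)).add
    ((((hX y b).pow 4).const_add 1).mul (((hX x a).const_mul 2).mul_const a))
  have t3 := (((hX x a).pow 3).const_mul 92).mul_const a
  have t4 := (((hX z c).const_mul a).add ((hX x a).mul_const c)).const_mul 2
  have t5 := (((hX z c).const_mul 2).mul_const c).add (((hX w d).const_mul 2).mul_const d)
  refine ((((t1.add t2).add t3).add t4).add t5).congr_deriv ?_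
  simp only [Pi.add_apply, Pi.pow_apply]
  push_cast
  ring

/-- the second derivative is nonnegative in rank-one directions -/
theorem wC_hess (x y a b c d : ℝ) (hd : c ^ 2 + d ^ 2 = a ^ 2 + b ^ 2) :
    0 ≤ 2 * ((1 + y ^ 4 + 138 * x ^ 2) * a ^ 2
      + 8 * (x * y ^ 3) * (a * b)
      + (-y ^ 2 + y ^ 4 + 7 / 60 * y ^ 6 + 6 * x ^ 2 * y ^ 2) * b ^ 2
      + 2 * (a * c) + (c ^ 2 + d ^ 2)) := by
  set Y := y ^ 2 with hY
  have hY0 : 0 ≤ Y := sq_nonneg y
  have hm : 0 < 1 + Y := by linarith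
  -- multiply by `1 + Y`
  have h1 : 0 ≤ ((1 + Y) * a + c) ^ 2 := sq_nonneg _
  have h2 : c ^ 2 ≤ a ^ 2 + b ^ 2 := by nlinarith [sq_nonneg d]
  have h3 : 0 ≤ 138 * (x * a) ^ 2 + 8 * (x * a) * (y ^ 3 * b) + 7 / 60 * (y ^ 3 * b) ^ 2 := by
    nlinarith [sq_nonneg (69 * (x * a) + 2 * (y ^ 3 * b)), sq_nonneg (y ^ 3 * b)]
  have e4 : y ^ 4 = Y ^ 2 := by rw [hY]; ring
  have e6 : (y ^ 3 * b) ^ 2 = Y ^ 3 * b ^ 2 := by rw [hY]; ring
  have e6' : y ^ 6 = Y ^ 3 := by rw [hY]; ring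
  rw [e6] at h3
  rw [e4, e6', hd]
  have key : 0 ≤ (1 + Y) * ((1 + Y ^ 2 + 138 * x ^ 2) * a ^ 2 + 8 * (x * y ^ 3) * (a * b)
      + (-Y + Y ^ 2 + 7 / 60 * Y ^ 3 + 6 * x ^ 2 * Y) * b ^ 2
      + 2 * (a * c) + (a ^ 2 + b ^ 2)) := by
    have e : (1 + Y) * ((1 + Y ^ 2 + 138 * x ^ 2) * a ^ 2 + 8 * (x * y ^ 3) * (a * b)
      + (-Y + Y ^ 2 + 7 / 60 * Y ^ 3 + 6 * x ^ 2 * Y) * b ^ 2
      + 2 * (a * c) + (a ^ 2 + b ^ 2))
      = (1 + Y) * (138 * (x * a) ^ 2 + 8 * (x * a) * (y ^ 3 * b) + 7 / 60 * (Y ^ 3 * b ^ 2))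
        + (1 + Y) * (6 * x ^ 2 * Y * b ^ 2) + Y ^ 3 * (a ^ 2 + b ^ 2)
        + ((1 + Y) * a + c) ^ 2 + (a ^ 2 + b ^ 2 - c ^ 2) := by ring
    rw [e]
    have k1 := mul_nonneg hm.le h3
    have k2 : 0 ≤ (1 + Y) * (6 * x ^ 2 * Y * b ^ 2) := by positivity
    have k3 : 0 ≤ Y ^ 3 * (a ^ 2 + b ^ 2) := by positivity
    linarith
  have := nonneg_of_mul_nonneg_right key hm
  linarith

/-- convexity along the lines in rank-one directions -/
theorem wC_line (x y z w a b c d : ℝ) (hd : c ^ 2 + d ^ 2 = a ^ 2 + b ^ 2) :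
    ConvexOn ℝ univ (fun t : ℝ => wC (x + t * a) (y + t * b) (z + t * c) (w + t * d)) := by
  have hd1 := fun t : ℝ => wC_deriv x y z w a b c d t
  have hd2 := fun t : ℝ => wC_deriv2 x y z w a b c d t
  have e1 := funext fun t => (hd1 t).deriv
  refine convexOn_univ_of_deriv2_nonneg (fun t => (hd1 t).differentiableAt) ?_ ?_
  · rw [e1]
    exact fun t => (hd2 t).differentiableAt
  · intro t
    rw [Function.iterate_succ, Function.iterate_one, Function.comp_apply, e1]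
    have e2 := (hd2 t).deriv
    refine le_of_le_of_eq ?_ e2.symm
    exact wC_hess (x + t * a) (y + t * b) a b c d hd

/-- the example -/
noncomputable def WC (F : Matrix (Fin 2) (Fin 2) ℝ) : ℝ :=
  wC (F 0 0 + F 1 1) (F 1 0 - F 0 1) (F 0 0 - F 1 1) (F 1 0 + F 0 1)

theorem WC_roc (F H : Matrix (Fin 2) (Fin 2) ℝ) (hH : H.det = 0) (t : ℝ) (ht0 : 0 ≤ t)
    (ht1 : t ≤ 1) :
    WC ((1 - t) • F + t • (F + H)) ≤ (1 - t) * WC F + t * WC (F + H) := by
  rw [Matrix.det_fin_two] at hH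
  have hc := wC_line (F 0 0 + F 1 1) (F 1 0 - F 0 1) (F 0 0 - F 1 1) (F 1 0 + F 0 1)
    (H 0 0 + H 1 1) (H 1 0 - H 0 1) (H 0 0 - H 1 1) (H 1 0 + H 0 1)
    (by linear_combination (-4) * hH)
  have h := hc.2 (mem_univ (0 : ℝ)) (mem_univ (1 : ℝ)) (show 0 ≤ 1 - t by linarith) ht0 (by ring)
  simp only [smul_eq_mul, mul_zero, mul_one, zero_add, one_mul, zero_mul, add_zero] at h
  unfold WC
  simp only [Matrix.add_apply, Matrix.smul_apply, smul_eq_mul]
  refine le_trans (le_of_eq ?_) (h.trans (le_of_eq ?_))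
  · congr 1 <;> ring
  · congr 2
    congr 1 <;> ring

theorem WC_neg (F : Matrix (Fin 2) (Fin 2) ℝ) : WC (-F) = WC F := by
  unfold WC wC kC
  simp only [Matrix.neg_apply]
  ring

/-- the example is not polyconvex -/
theorem WC_not_poly : ¬ ∃ P : Matrix (Fin 2) (Fin 2) ℝ × ℝ → EReal, (∀ z, P z ≠ ⊥) ∧
    (∀ z w : Matrix (Fin 2) (Fin 2) ℝ × ℝ, ∀ a b : ℝ, 0 ≤ a → 0 ≤ b → a + b = 1 →
      P (a • z + b • w) ≤ (a : EReal) * P z + (b : EReal) * P w) ∧
    ∀ F, P (F, F.det) = (WC F : EReal) := by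
  rintro ⟨P, -, hconv, hP⟩
  have hmid : ∀ F : Matrix (Fin 2) (Fin 2) ℝ, P (0, F.det) ≤ (WC F : EReal) := by
    intro F
    have h := hconv (F, F.det) (-F, (-F).det) (1 / 2) (1 / 2) (by norm_num) (by norm_num)
      (by norm_num)
    rw [hP, hP, WC_neg] at h
    have hdet : (-F).det = F.det := by
      rw [Matrix.det_neg]
      simp
    have e1 : (1 / 2 : ℝ) • (F, F.det) + (1 / 2 : ℝ) • (-F, (-F).det) = (0, F.det) := by
      rw [hdet]
      ext i j
      · simp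
      · simp
        ring
    rw [e1] at h
    refine h.trans (le_of_eq ?_)
    rw [← EReal.coe_mul, ← EReal.coe_add]
    congr 1
    ring
  have h1 := hmid !![-1 / 1000, 0; 0, 21 / 1000]
  have h2 := hmid !![0, -1 / 2; 1 / 2, 0]
  have d1 : (!![-1 / 1000, 0; 0, 21 / 1000] : Matrix (Fin 2) (Fin 2) ℝ).det = -21 / 1000000 := by
    rw [Matrix.det_fin_two]
    simp
    norm_num
  have d2 : (!![0, -1 / 2; 1 / 2, 0] : Matrix (Fin 2) (Fin 2) ℝ).det = 1 / 4 := by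
    rw [Matrix.det_fin_two]
    simp
    norm_num
  rw [d1] at h1
  rw [d2] at h2
  have w1 : WC !![-1 / 1000, 0; 0, 21 / 1000] ≤ 24 / 3125000 := by
    unfold WC wC kC
    simp
    norm_num
  have w2 : WC !![0, -1 / 2; 1 / 2, 0] ≤ -23 / 240 := by
    unfold WC wC kC
    simp
    norm_num
  have h1' : P (0, -21 / 1000000) ≤ ((24 / 3125000 : ℝ) : EReal) :=
    h1.trans (EReal.coe_le_coe_iff.2 w1)
  have h2' : P (0, 1 / 4) ≤ ((-23 / 240 : ℝ) : EReal) := h2.trans (EReal.coe_le_coe_iff.2 w2)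
  have h3 := hconv (0, -21 / 1000000) (0, 1 / 4) (250000 / 250021) (21 / 250021) (by norm_num)
    (by norm_num) (by norm_num)
  have e3 : (250000 / 250021 : ℝ) • ((0 : Matrix (Fin 2) (Fin 2) ℝ), (-21 / 1000000 : ℝ))
      + (21 / 250021 : ℝ) • ((0 : Matrix (Fin 2) (Fin 2) ℝ), (1 / 4 : ℝ))
        = (0, (0 : Matrix (Fin 2) (Fin 2) ℝ).det) := by
    rw [Matrix.det_fin_two]
    ext i j
    · simp
    · simp
      norm_num
  rw [e3, hP] at h3
  have w0 : WC 0 = 0 := by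
    unfold WC wC kC
    simp
  rw [w0] at h3
  have h4 : ((250000 / 250021 : ℝ) : EReal) * P (0, -21 / 1000000)
      ≤ ((250000 / 250021 : ℝ) : EReal) * ((24 / 3125000 : ℝ) : EReal) :=
    mul_le_mul_of_nonneg_left h1' (by exact_mod_cast (by norm_num : (0:ℝ) ≤ 250000 / 250021))
  have h5 : ((21 / 250021 : ℝ) : EReal) * P (0, 1 / 4)
      ≤ ((21 / 250021 : ℝ) : EReal) * ((-23 / 240 : ℝ) : EReal) :=
    mul_le_mul_of_nonneg_left h2' (by exact_mod_cast (by norm_num : (0:ℝ) ≤ 21 / 250021))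
  have h6 := h3.trans (add_le_add h4 h5)
  rw [← EReal.coe_mul, ← EReal.coe_mul, ← EReal.coe_add, EReal.coe_le_coe_iff] at h6
  norm_num at h6

end Pool.Agent.Helper27.MQ
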