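import Pool.Agent.Helper27.MQ.ConfMain

/-!
# Functions of the conformal part: matrices, linear changes of variables
-/

set_option autoImplicit false

open MeasureTheory Set Filter Topology
open Matrix hiding col

namespace Pool.Agent.Helper27.MQ

open Pool.Agent.W779.Morrey hiding en en_apply
open Pool.Agent.N555.MQ

/-- a linear change of both variables -/
theorem QC_of_mul {W : Matrix (Fin 2) (Fin 2) ℝ → ℝ} {A A' B B' : Matrix (Fin 2) (Fin 2) ℝ}
    (hA : A * A' = 1) (hA' : A' * A = 1) (hB : B * B' = 1) (hB' : B' * B = 1)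
    (h : QC fun G => W (A * G * B)) : QC W := by
  rintro F₀ Ω hΩ hb ϑ ⟨K, hK⟩ hz
  set eB : V ≃L[ℝ] V := (Matrix.toLin'OfInv hB' hB).toContinuousLinearEquiv with heB
  set eA : V ≃L[ℝ] V := (Matrix.toLin'OfInv hA hA').toContinuousLinearEquiv with heA
  have hBx : ∀ x : V, eB x = B *ᵥ x := fun x => rfl
  have hBs : ∀ x : V, eB.symm x = B' *ᵥ x := fun x => rfl
  have hAx : ∀ x : V, eA x = A' *ᵥ x := fun x => rfl
  set Ω' : Set V := eB '' Ω with hΩ'
  set ϑ' : V → V := fun y => eA (ϑ (eB.symm y)) with hϑ'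
  have hD : ∀ y : V, LinearMap.toMatrix' ((fderiv ℝ ϑ' y : V →L[ℝ] V) : V →ₗ[ℝ] V)
      = A' * LinearMap.toMatrix' ((fderiv ℝ ϑ (eB.symm y) : V →L[ℝ] V) : V →ₗ[ℝ] V) * B' := by
    intro y
    have e1 : fderiv ℝ ϑ' y = (eA : V →L[ℝ] V).comp ((fderiv ℝ ϑ (eB.symm y)).comp
        (eB.symm : V →L[ℝ] V)) := by
      rw [hϑ']
      have e2 : (fun y : V => eA (ϑ (eB.symm y))) = eA ∘ (ϑ ∘ eB.symm) := rfl
      rw [e2, eA.comp_fderiv, eB.symm.comp_right_fderiv]
    rw [e1]
    have e3 : (((eA : V →L[ℝ] V).comp ((fderiv ℝ ϑ (eB.symm y)).comp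
        (eB.symm : V →L[ℝ] V)) : V →L[ℝ] V) : V →ₗ[ℝ] V)
        = (Matrix.toLin' A') ∘ₗ ((fderiv ℝ ϑ (eB.symm y) : V →L[ℝ] V) : V →ₗ[ℝ] V)
          ∘ₗ (Matrix.toLin' B') := rfl
    rw [e3, LinearMap.toMatrix'_comp, LinearMap.toMatrix'_comp, LinearMap.toMatrix'_toLin',
      LinearMap.toMatrix'_toLin', Matrix.mul_assoc]
  have hcan : ∀ X : Matrix (Fin 2) (Fin 2) ℝ, A * (A' * X * B') * B = X := by
    intro X
    calc A * (A' * X * B') * B = (A * A') * X * (B' * B) := by
          simp only [Matrix.mul_assoc]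
      _ = X := by rw [hA, hB', one_mul, mul_one]
  have h1 := h (A' * F₀ * B') Ω' (eB.toHomeomorph.isOpenMap _ hΩ) (by
      have := (eB : V →L[ℝ] V).lipschitz.isBounded_image hb
      exact this) ϑ' ⟨_, ((eA : V →L[ℝ] V).lipschitz.comp hK).comp
        (eB.symm : V →L[ℝ] V).lipschitz⟩ (by
      intro y hy
      have : ϑ (eB.symm y) = 0 := hz _ fun hx => hy ⟨eB.symm y, hx, eB.apply_symm_apply y⟩
      simp only [hϑ', this, map_zero])
  simp only [hcan] at h1
  set g : V → ℝ := fun y => W (F₀ + LinearMap.toMatrix'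
    ((fderiv ℝ ϑ (eB.symm y) : V →L[ℝ] V) : V →ₗ[ℝ] V)) with hg
  have e4 : ∀ y : V, W (A * (A' * F₀ * B' + LinearMap.toMatrix'
      ((fderiv ℝ ϑ' y : V →L[ℝ] V) : V →ₗ[ℝ] V)) * B) = g y := by
    intro y
    rw [hD, hg, ← Matrix.add_mul, ← Matrix.mul_add, hcan]
  have h2 : W F₀ * (volume Ω').toReal ≤ ∫ y in Ω', g y := by
    refine h1.trans (le_of_eq ?_)
    refine integral_congr_ae (Eventually.of_forall fun y => ?_)
    exact e4 y
  have hd : (eB : V →L[ℝ] V).det ≠ 0 := by
    have := (LinearEquiv.isUnit_det' eB.toLinearEquiv).ne_zero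
    exact this
  have h3 : (volume Ω').toReal = |(eB : V →L[ℝ] V).det| * (volume Ω).toReal := by
    rw [hΩ']
    have := MeasureTheory.Measure.addHaar_image_continuousLinearMap (volume : Measure V)
      (eB : V →L[ℝ] V) Ω
    have e5 : eB '' Ω = (eB : V →L[ℝ] V) '' Ω := rfl
    rw [e5, this, ENNReal.toReal_mul, ENNReal.toReal_ofReal (abs_nonneg _)]
  have h4 : ∫ y in Ω', g y = |(eB : V →L[ℝ] V).det| * ∫ x in Ω, g (eB x) := by
    rw [hΩ']
    have := integral_image_eq_integral_abs_det_fderiv_smul (volume : Measure V)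
      hΩ.measurableSet (fun x _ => (eB : V →L[ℝ] V).hasFDerivAt.hasFDerivWithinAt)
      (eB.injective.injOn) g
    have e5 : eB '' Ω = (eB : V →L[ℝ] V) '' Ω := rfl
    rw [e5, this]
    simp only [smul_eq_mul]
    rw [integral_const_mul]
    rfl
  rw [h3, h4] at h2
  have hd' : 0 < |(eB : V →L[ℝ] V).det| := abs_pos.2 hd
  have h5 : W F₀ * (volume Ω).toReal ≤ ∫ x in Ω, g (eB x) := by
    refine le_of_mul_le_mul_left ?_ hd'
    linarith
  refine h5.trans (le_of_eq ?_)
  refine integral_congr_ae (Eventually.of_forall fun x => ?_)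
  simp only [hg, ContinuousLinearEquiv.symm_apply_apply]

/-- the normal form, for matrices -/
theorem conf_nf (ρ : Matrix (Fin 2) (Fin 2) ℝ → V)
    (hρ : ∀ F : E, ρ (of F) = ρ (of (mkc (wL F) 0)))
    (h : V → ℝ) (f : ℝ → ℝ) (hf : ConvexOn ℝ univ f)
    (Q : QuadraticForm ℝ (Matrix (Fin 2) (Fin 2) ℝ)) (L : Matrix (Fin 2) (Fin 2) ℝ →ₗ[ℝ] ℝ)
    (K : ℝ) (hK : ∀ F : E, wL F = 0 → Q (of F) = K * (vL F 0 ^ 2 + vL F 1 ^ 2))
    (hroc : Pool.Agent.Helper188.Morrey.RankOneConvex fun F => h (ρ F) + Q F + L F + f F.det) :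
    QC fun F => h (ρ F) + Q F + L F + f F.det := by
  have e0 : (fun F : Matrix (Fin 2) (Fin 2) ℝ => h (ρ F) + Q F + L F + f F.det)
      = fun F => (h (ρ F) + f F.det) + Q F + L F := by
    funext F
    ring
  rw [e0] at hroc ⊢
  obtain ⟨B, hBQ, hGc, hin, hfin⟩ := split_main (fun F => h (ρ F) + f F.det) Q L hroc
  refine hfin ?_
  set h' : V → ℝ := fun w => h (ρ (of (mkc w 0))) with hh'
  have hkey : ∀ F : E, h (ρ (of F)) + f (of F).det = h' (wL F) + f (dt F) := by
    intro F
    rw [hh', hρ F, det_of]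
  simp only [hkey] at hGc hin ⊢
  have hfc : Continuous (fun F : E => f (dt F)) := (cont_conv hf).comp continuous_dt'
  have hh'c : Continuous h' := by
    have h1 := (hGc.sub hfc).comp confZ.continuous
    have e1 : ((fun F : E => h' (wL F) + f (dt F)) - fun F : E => f (dt F)) ∘ confZ = h' := by
      funext w
      simp only [Function.comp_apply, Pi.sub_apply, confZ_apply]
      ring
    rw [e1] at h1
    exact h1
  have h2 := conf_det hh'c B K (fun F hF => by rw [hBQ]; exact hK F hF) hf (by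
    intro F H hH t ht0 ht1
    have := hin F H hH t ht0 ht1
    linarith)
  have e2 : (fun F : E => h' (wL F) + f (dt F) + B F F)
      = fun F : E => h' (wL F) + B F F + f (dt F) := by
    funext F
    ring
  rw [e2]
  exact h2

/-- a plane of matrices on which the determinant vanishes only at zero is the image of the plane
of anticonformal matrices under the multiplication by invertible matrices from both sides -/
theorem plane_nf (π : Matrix (Fin 2) (Fin 2) ℝ →ₗ[ℝ] (Fin 2 → ℝ))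
    (hπ : ∀ N, π N = 0 → N ≠ 0 → N.det ≠ 0) :
    ∃ A A' B B' : Matrix (Fin 2) (Fin 2) ℝ, A * A' = 1 ∧ A' * A = 1 ∧ B * B' = 1 ∧ B' * B = 1 ∧
      ∀ F : E, wL F = 0 → π (A * of F * B) = 0 := by
  have hker : 1 < Module.finrank ℝ (LinearMap.ker π) := by
    have h1 := LinearMap.finrank_range_add_finrank_ker π
    have h2 : Module.finrank ℝ (Matrix (Fin 2) (Fin 2) ℝ) = 4 := by
      rw [Module.finrank_matrix]
      simp
    have h3 : Module.finrank ℝ (LinearMap.range π) ≤ 2 := by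
      have := Submodule.finrank_le (LinearMap.range π)
      simpa using this
    omega
  obtain ⟨n1, hn1⟩ : ∃ n : LinearMap.ker π, n ≠ 0 := by
    have := Module.nontrivial_of_finrank_pos (R := ℝ) (M := LinearMap.ker π) (by omega)
    exact exists_ne 0
  obtain ⟨n2, hli⟩ := exists_linearIndependent_pair_of_one_lt_finrank hker hn1
  set N₁ : Matrix (Fin 2) (Fin 2) ℝ := n1.1 with hN₁
  set N₂ : Matrix (Fin 2) (Fin 2) ℝ := n2.1 with hN₂
  have hk1 : π N₁ = 0 := n1.2
  have hk2 : π N₂ = 0 := n2.2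
  have hind : ∀ x y : ℝ, x • N₁ + y • N₂ = 0 → x = 0 ∧ y = 0 := by
    intro x y hxy
    have h1 := LinearIndependent.pair_iff.1 hli x y
    refine h1 ?_
    apply Subtype.ext
    simpa using hxy
  have hcomb : ∀ x y : ℝ, π (x • N₁ + y • N₂) = 0 := by
    intro x y
    rw [map_add, map_smul, map_smul, hk1, hk2]
    simp
  have hN₁0 : N₁ ≠ 0 := by
    intro h0
    have := hind 1 0 (by rw [h0]; simp)
    exact one_ne_zero this.1
  have hd1 : N₁.det ≠ 0 := hπ N₁ hk1 hN₁0
  have hu1 : IsUnit N₁.det := isUnit_iff_ne_zero.2 hd1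
  set M : Matrix (Fin 2) (Fin 2) ℝ := N₁⁻¹ * N₂ with hM
  have hNM : N₁ * M = N₂ := by rw [hM, ← Matrix.mul_assoc, Matrix.mul_nonsing_inv _ hu1, one_mul]
  have hdetM : ∀ x y : ℝ, (x ≠ 0 ∨ y ≠ 0) → (x • (1 : Matrix (Fin 2) (Fin 2) ℝ) + y • M).det ≠ 0 := by
    intro x y hxy
    have e1 : N₁ * (x • (1 : Matrix (Fin 2) (Fin 2) ℝ) + y • M) = x • N₁ + y • N₂ := by
      rw [Matrix.mul_add, Matrix.mul_smul, Matrix.mul_smul, mul_one, hNM]
    have h1 := hπ _ (hcomb x y) (fun h0 => by
      have := hind x y h0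
      rcases hxy with h | h
      · exact h this.1
      · exact h this.2)
    rw [← e1, Matrix.det_mul] at h1
    exact right_ne_zero_of_mul h1
  set t := (M 0 0 + M 1 1) / 2 with ht
  set a0 := (M 0 0 - M 1 1) / 2 with ha0
  have hpos : 0 < -(a0 ^ 2 + M 0 1 * M 1 0) := by
    by_contra hneg
    push Not at hneg
    have hδ : 0 ≤ a0 ^ 2 + M 0 1 * M 1 0 := by linarith
    have h1 := hdetM (-t - Real.sqrt (a0 ^ 2 + M 0 1 * M 1 0)) 1 (Or.inr one_ne_zero)
    apply h1
    have h2 := Real.sq_sqrt hδ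
    rw [Matrix.det_fin_two]
    simp only [Matrix.add_apply, Matrix.smul_apply, Matrix.one_apply_eq, smul_eq_mul, mul_one,
      one_mul, ne_eq, Fin.isValue, one_ne_zero, not_false_eq_true, Matrix.one_apply_ne,
      zero_ne_one, mul_zero, zero_add]
    have h3 : M 0 0 = t + a0 := by rw [ht, ha0]; ring
    have h4 : M 1 1 = t - a0 := by rw [ht, ha0]; ring
    rw [h3, h4]
    linear_combination h2
  set q := Real.sqrt (-(a0 ^ 2 + M 0 1 * M 1 0)) with hq
  have hq0 : 0 < q := Real.sqrt_pos.2 hpos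
  have hq2 : q ^ 2 = -(a0 ^ 2 + M 0 1 * M 1 0) := Real.sq_sqrt hpos.le
  set a := a0 / q with ha
  set b := M 0 1 / q with hb
  set c := M 1 0 / q with hc
  have habc : a ^ 2 + b * c = -1 := by
    rw [ha, hb, hc]
    field_simp
    linarith
  have hc0 : c ≠ 0 := by
    intro h0
    rw [h0] at habc
    nlinarith [sq_nonneg a]
  refine ⟨N₁ * !![1, a; 0, c], !![1, -a / c; 0, 1 / c] * N₁⁻¹, !![1, -a / c; 0, -(1 / c)],
    !![1, -a; 0, -c], ?_, ?_, ?_, ?_, ?_⟩
  · have e1 : !![1, a; 0, c] * !![1, -a / c; 0, 1 / c] = 1 := by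
      ext i j
      fin_cases i <;> fin_cases j <;> simp [Matrix.mul_apply, Fin.sum_univ_two] <;> field_simp <;> ring
    rw [Matrix.mul_assoc, ← Matrix.mul_assoc !![1, a; 0, c], e1, one_mul,
      Matrix.mul_nonsing_inv _ hu1]
  · have e1 : !![1, -a / c; 0, 1 / c] * !![1, a; 0, c] = 1 := by
      ext i j
      fin_cases i <;> fin_cases j <;> simp [Matrix.mul_apply, Fin.sum_univ_two] <;> field_simp <;> ring
    rw [Matrix.mul_assoc, ← Matrix.mul_assoc N₁⁻¹, Matrix.nonsing_inv_mul _ hu1, one_mul, e1]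
  · ext i j
    fin_cases i <;> fin_cases j <;> simp [Matrix.mul_apply, Fin.sum_univ_two] <;> field_simp <;> ring
  · ext i j
    fin_cases i <;> fin_cases j <;> simp [Matrix.mul_apply, Fin.sum_univ_two] <;> field_simp <;> ring
  · intro F hF
    have hF0 := congrFun hF 0
    have hF1 := congrFun hF 1
    rw [wL_zero] at hF0
    rw [wL_one] at hF1
    simp only [Pi.zero_apply] at hF0 hF1
    have e1 : N₁ * !![1, a; 0, c] * of F * !![1, -a / c; 0, -(1 / c)]
        = (F 0 0 - F 0 1 * t / q) • N₁ + (F 0 1 / q) • N₂ := by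
      have e2 : !![1, a; 0, c] * of F * !![1, -a / c; 0, -(1 / c)]
          = (F 0 0 - F 0 1 * t / q) • (1 : Matrix (Fin 2) (Fin 2) ℝ) + (F 0 1 / q) • M := by
        have g1 : F 1 1 = - F 0 0 := by linarith
        have g2 : F 1 0 = F 0 1 := by linarith
        have k0 : M 0 0 = t + q * a := by rw [ht, ha, ha0]; field_simp; ring
        have k1 : M 0 1 = q * b := by rw [hb]; field_simp
        have k2 : M 1 0 = q * c := by rw [hc]; field_simp
        have k3 : M 1 1 = t - q * a := by rw [ht, ha, ha0]; field_simp; ring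
        have hMm : M = !![t + q * a, q * b; q * c, t - q * a] := by
          rw [← k0, ← k1, ← k2, ← k3]
          exact Matrix.eta_fin_two M
        have hFm : of F = !![F 0 0, F 0 1; F 0 1, -F 0 0] := by
          rw [Matrix.eta_fin_two (of F)]
          simp only [Matrix.of_apply, g1, g2]
        rw [hMm, hFm, Matrix.mul_fin_two, Matrix.mul_fin_two, Matrix.one_fin_two]
        ext i j
        fin_cases i <;> fin_cases j
        · simp
          field_simp
          ring
        · simp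
          field_simp
          linear_combination (-(F 0 1)) * habc
        · simp
          field_simp
        · simp
          field_simp
          ring
      rw [Matrix.mul_assoc, Matrix.mul_assoc, ← Matrix.mul_assoc _ (of F), e2, Matrix.mul_add,
        Matrix.mul_smul, Matrix.mul_smul, mul_one, hNM]
    rw [e1]
    exact hcomb _ _

/-- functions of two linear functionals on whose kernel the determinant is definite -/
theorem fin_conf (π : Matrix (Fin 2) (Fin 2) ℝ →ₗ[ℝ] (Fin 2 → ℝ))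
    (hπ : ∀ N, π N = 0 → N ≠ 0 → N.det ≠ 0)
    (h : V → ℝ) (f : ℝ → ℝ) (hf : ConvexOn ℝ univ f)
    (Q : QuadraticForm ℝ (Matrix (Fin 2) (Fin 2) ℝ)) (L : Matrix (Fin 2) (Fin 2) ℝ →ₗ[ℝ] ℝ)
    (k : ℝ) (hQ : ∀ N, π N = 0 → Q N = k * N.det)
    (hroc : Pool.Agent.Helper188.Morrey.RankOneConvex fun F => h (π F) + Q F + L F + f F.det) :
    QC fun F => h (π F) + Q F + L F + f F.det := by
  obtain ⟨A, A', B, B', hA, hA', hB, hB', hker⟩ := plane_nf π hπ
  refine QC_of_mul hA hA' hB hB' ?_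
  set Λ : Matrix (Fin 2) (Fin 2) ℝ →ₗ[ℝ] Matrix (Fin 2) (Fin 2) ℝ :=
    (LinearMap.mulLeft ℝ A) ∘ₗ (LinearMap.mulRight ℝ B) with hΛ
  have hΛa : ∀ G, Λ G = A * G * B := fun G => (Matrix.mul_assoc A G B).symm
  set f' : ℝ → ℝ := fun δ => f (A.det * B.det * δ) with hf'
  have hf'c : ConvexOn ℝ univ f' := by
    refine ⟨convex_univ, fun x _ y _ a b ha hb hab => ?_⟩
    have := hf.2 (mem_univ (A.det * B.det * x)) (mem_univ (A.det * B.det * y)) ha hb hab
    simp only [hf', smul_eq_mul] at this ⊢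
    refine le_of_eq_of_le ?_ this
    congr 1
    ring
  have hdet : ∀ G : Matrix (Fin 2) (Fin 2) ℝ, (A * G * B).det = A.det * B.det * G.det := by
    intro G
    rw [Matrix.det_mul, Matrix.det_mul]
    ring
  have e : (fun G : Matrix (Fin 2) (Fin 2) ℝ => h (π (A * G * B)) + Q (A * G * B) + L (A * G * B)
      + f (A * G * B).det) = fun G => h ((fun G => π (Λ G)) G) + (Q.comp Λ) G + (L ∘ₗ Λ) G
        + f' G.det := by
    funext G
    rw [hdet]
    simp only [QuadraticMap.comp_apply, LinearMap.comp_apply, hΛa, hf']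
  rw [e]
  refine conf_nf (fun G => π (Λ G)) ?_ h f' hf'c (Q.comp Λ) (L ∘ₗ Λ)
    (-(k * (A.det * B.det) / 4)) ?_ ?_
  · intro F
    have h1 : wL (F - mkc (wL F) 0) = 0 := by rw [map_sub, wL_mkc, sub_self]
    have h2 := hker _ h1
    have h3 : of (F - mkc (wL F) 0) = of F - of (mkc (wL F) 0) := rfl
    rw [← hΛa, h3, map_sub, map_sub, sub_eq_zero] at h2
    exact h2
  · intro F hF
    have h1 := hQ _ (hker F hF)
    rw [QuadraticMap.comp_apply, hΛa, h1, hdet, det_of]
    have h2 := dt_conf F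
    rw [hF] at h2
    simp only [Pi.zero_apply] at h2
    linear_combination (k * (A.det * B.det) / 4) * h2
  · intro F H hH t ht0 ht1
    rw [← e]
    have hH' : (A * H * B).rank = 1 := by
      rw [Matrix.rank_mul_eq_left_of_isUnit_det B _ (Matrix.isUnit_det_of_right_inverse hB),
        Matrix.rank_mul_eq_right_of_isUnit_det A _ (Matrix.isUnit_det_of_right_inverse hA), hH]
    have h1 := hroc (A * F * B) (A * H * B) hH' t ht0 ht1
    have e1 : A * ((1 - t) • F + t • (F + H)) * B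
        = (1 - t) • (A * F * B) + t • (A * F * B + A * H * B) := by
      simp only [Matrix.mul_add, Matrix.add_mul, Matrix.mul_smul, Matrix.smul_mul]
    have e2 : A * (F + H) * B = A * F * B + A * H * B := by
      rw [Matrix.mul_add, Matrix.add_mul]
    simp only [e1, e2]
    exact h1

end Pool.Agent.Helper27.MQ
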