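import Pool.Agent.Helper27.MQ.Conf

/-!
# Functions of the conformal part plus a quadratic form: the general case
-/

set_option autoImplicit false

open MeasureTheory Set Filter Topology
open Matrix hiding col

namespace Pool.Agent.Helper27.MQ

open Pool.Agent.W779.Morrey hiding en en_apply
open Pool.Agent.N555.MQ

/-- functions of the conformal part plus a quadratic form -/
theorem conf_main {h : V → ℝ} (hc : Continuous h) (B : E →L[ℝ] E →L[ℝ] ℝ)
    (c00 c01 c11 b00 b01 b10 b11 K : ℝ)
    (hB : ∀ F : E, B F F = (c00 * wL F 0 ^ 2 + 2 * c01 * (wL F 0 * wL F 1) + c11 * wL F 1 ^ 2)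
      + (b00 * (wL F 0 * vL F 0) + b01 * (wL F 0 * vL F 1) + b10 * (wL F 1 * vL F 0)
        + b11 * (wL F 1 * vL F 1)) + K * (vL F 0 ^ 2 + vL F 1 ^ 2))
    (hroc : ∀ F H : E, dt H = 0 → ∀ t : ℝ, 0 ≤ t → t ≤ 1 →
      h (wL (F + t • H)) + B (F + t • H) (F + t • H)
        ≤ (1 - t) * (h (wL F) + B F F) + t * (h (wL (F + H)) + B (F + H) (F + H))) :
    QCtrig (fun F : E => h (wL F) + B F F) := by
  have hh : ∀ H : E, dt H = 0 → ∀ t : ℝ, 0 ≤ t → t ≤ 1 → ∀ v : V,
      h (v + t • wL H) ≤ (1 - t) * h v + t * h (v + wL H) + t * (1 - t) * B H H := by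
    intro H hH t ht0 ht1 v
    have h1 := hroc (confZ v) H hH t ht0 ht1
    simp only [map_add, map_smul, confZ_apply, _root_.add_apply,
      FunLike.coe_smul, Pi.smul_apply, smul_eq_mul] at h1
    linarith
  refine QCtrig_limit (Wn := fun n F => hm h n (wL F) + B F F) (fun n => ?_)
    (fun n => ?_) (fun F => ?_) (fun R => ?_)
  · have hsm := hm_contDiff hc n
    refine conf_smooth hsm B c00 c01 c11 b00 b01 b10 b11 K hB fun v H hH => ?_
    have h1 := second_WL hsm wL B (confZ v) H
    rw [confZ_apply] at h1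
    rw [← h1]
    refine second_nonneg (contDiff_WL hsm wL B) _ _ fun s u t ht0 ht1 => ?_
    have hdu : dt (u • H) = 0 := by
      have : dt (u • H) = u ^ 2 * dt H := by
        simp only [dt, Pi.smul_apply, smul_eq_mul]; ring
      rw [this, hH, mul_zero]
    have h2 := hm_ineq hc (fun v => hh (u • H) hdu t ht0 ht1 v) n (wL (confZ v + s • H))
    simp only [map_add, map_smul, _root_.add_apply, FunLike.coe_smul, Pi.smul_apply,
      smul_eq_mul] at h2 ⊢
    linarith
  · exact (contDiff_WL (hm_contDiff hc n) wL B).continuous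
  · exact (hm_tendsto hc (wL F)).add tendsto_const_nhds
  · obtain ⟨C1, hC1⟩ := (isCompact_closedBall (0 : V)
      (‖wL‖ * R + 1)).exists_bound_of_continuousOn hc.continuousOn
    have hBc : Continuous (fun F : E => B F F) := B.continuous.clm_apply continuous_id
    obtain ⟨C2, hC2⟩ := (isCompact_closedBall (0 : E) R).exists_bound_of_continuousOn
      hBc.continuousOn
    refine ⟨C1 + C2, fun n F hF => ?_⟩
    have hcF : ‖wL F‖ ≤ ‖wL‖ * R :=
      (wL.le_opNorm F).trans (mul_le_mul_of_nonneg_left hF (norm_nonneg _))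
    have b1 : |hm h n (wL F)| ≤ C1 := hm_bound hc (fun x hx => by
      have := hC1 x (by rwa [mem_closedBall_zero_iff])
      rwa [Real.norm_eq_abs] at this) n hcF
    have b2 : |B F F| ≤ C2 := by
      have := hC2 F (by rwa [mem_closedBall_zero_iff])
      rwa [Real.norm_eq_abs] at this
    exact (abs_add_le _ _).trans (add_le_add b1 b2)

/-- the coordinates of a quadratic form -/
theorem conf_coord (B : E →L[ℝ] E →L[ℝ] ℝ) (K : ℝ)
    (hK : ∀ F : E, wL F = 0 → B F F = K * (vL F 0 ^ 2 + vL F 1 ^ 2)) :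
    ∃ c00 c01 c11 b00 b01 b10 b11 : ℝ, ∀ F : E, B F F
      = (c00 * wL F 0 ^ 2 + 2 * c01 * (wL F 0 * wL F 1) + c11 * wL F 1 ^ 2)
      + (b00 * (wL F 0 * vL F 0) + b01 * (wL F 0 * vL F 1) + b10 * (wL F 1 * vL F 0)
        + b11 * (wL F 1 * vL F 1)) + K * (vL F 0 ^ 2 + vL F 1 ^ 2) := by
  set f0 : E := mkc ![1, 0] 0 with hf0
  set f1 : E := mkc ![0, 1] 0 with hf1
  set g0 : E := mkc 0 ![1, 0] with hg0
  set g1 : E := mkc 0 ![0, 1] with hg1
  refine ⟨B f0 f0, (B f0 f1 + B f1 f0) / 2, B f1 f1, B f0 g0 + B g0 f0, B f0 g1 + B g1 f0,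
    B f1 g0 + B g0 f1, B f1 g1 + B g1 f1, fun F => ?_⟩
  have hN : mkc 0 (vL F) = vL F 0 • g0 + vL F 1 • g1 := by
    ext r l
    fin_cases r <;> fin_cases l <;> simp [mkc, hg0, hg1] <;> ring
  have hF : F = wL F 0 • f0 + wL F 1 • f1 + mkc 0 (vL F) := by
    conv_lhs => rw [← mkc_eta F]
    ext r l
    fin_cases r <;> fin_cases l <;> simp [mkc, hf0, hf1] <;> ring
  have h1 := hK (mkc 0 (vL F)) (wL_mkc _ _)
  rw [vL_mkc] at h1
  have h2 : B F F = B (wL F 0 • f0 + wL F 1 • f1 + mkc 0 (vL F))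
      (wL F 0 • f0 + wL F 1 • f1 + mkc 0 (vL F)) := by rw [← hF]
  rw [h2, ← h1]
  simp only [map_add, map_smul, _root_.add_apply, FunLike.coe_smul, Pi.smul_apply, smul_eq_mul]
  have e1 : ∀ X : E, B X (mkc 0 (vL F)) = vL F 0 * B X g0 + vL F 1 * B X g1 := by
    intro X
    rw [hN]
    simp only [map_add, map_smul, smul_eq_mul]
  have e2 : ∀ X : E, B (mkc 0 (vL F)) X = vL F 0 * B g0 X + vL F 1 * B g1 X := by
    intro X
    rw [hN]
    simp only [map_add, map_smul, _root_.add_apply, FunLike.coe_smul, Pi.smul_apply, smul_eq_mul]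
  rw [e1 f0, e1 f1, e2 f0, e2 f1]
  ring

theorem cont_conv {f : ℝ → ℝ} (hf : ConvexOn ℝ univ f) : Continuous f :=
  continuousOn_univ.1 (hf.continuousOn isOpen_univ)

/-- functions of the conformal part plus a quadratic form plus a convex function of the
determinant -/
theorem conf_det {h : V → ℝ} (hc : Continuous h) (B : E →L[ℝ] E →L[ℝ] ℝ) (K : ℝ)
    (hK : ∀ F : E, wL F = 0 → B F F = K * (vL F 0 ^ 2 + vL F 1 ^ 2))
    {f : ℝ → ℝ} (hf : ConvexOn ℝ univ f)
    (hroc : ∀ F H : E, dt H = 0 → ∀ t : ℝ, 0 ≤ t → t ≤ 1 →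
      h (wL (F + t • H)) + B (F + t • H) (F + t • H) + f (dt (F + t • H))
        ≤ (1 - t) * (h (wL F) + B F F + f (dt F))
          + t * (h (wL (F + H)) + B (F + H) (F + H) + f (dt (F + H)))) :
    QCtrig (fun F : E => h (wL F) + B F F + f (dt F)) := by
  obtain ⟨c00, c01, c11, b00, b01, b10, b11, hB⟩ := conf_coord B K hK
  have h1 : QCtrig (fun F : E => h (wL F) + B F F) := by
    refine conf_main hc B c00 c01 c11 b00 b01 b10 b11 K hB fun F H hH t ht0 ht1 => ?_
    by_cases hr : vL H 0 ^ 2 + vL H 1 ^ 2 = 0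
    · have hs : wL H 0 ^ 2 + wL H 1 ^ 2 = 0 := by
        have := dt_conf H
        rw [hH] at this
        linarith
      have hz : H = 0 := by
        have r0 : vL H 0 = 0 := by nlinarith [sq_nonneg (vL H 0), sq_nonneg (vL H 1)]
        have r1 : vL H 1 = 0 := by nlinarith [sq_nonneg (vL H 0), sq_nonneg (vL H 1)]
        have s0 : wL H 0 = 0 := by nlinarith [sq_nonneg (wL H 0), sq_nonneg (wL H 1)]
        have s1 : wL H 1 = 0 := by nlinarith [sq_nonneg (wL H 0), sq_nonneg (wL H 1)]
        have hv : vL H = 0 := by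
          ext j
          fin_cases j
          · exact r0
          · exact r1
        have hw : wL H = 0 := by
          ext j
          fin_cases j
          · exact s0
          · exact s1
        rw [← mkc_eta H, hv, hw]
        ext r l
        fin_cases r <;> fin_cases l <;> simp [mkc]
      rw [hz]
      simp only [smul_zero, add_zero]
      linarith
    · have hr0 : 0 < vL H 0 ^ 2 + vL H 1 ^ 2 :=
        lt_of_le_of_ne (by positivity) (Ne.symm hr)
      set σ := (wL F 0 * wL H 0 + wL F 1 * wL H 1) / (vL H 0 ^ 2 + vL H 1 ^ 2) with hσ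
      have hσ2 : σ * (vL H 0 ^ 2 + vL H 1 ^ 2) = wL F 0 * wL H 0 + wL F 1 * wL H 1 := by
        rw [hσ]; field_simp
      set F' : E := mkc (wL F) (σ • vL H) with hF'
      have hwF' : wL F' = wL F := wL_mkc _ _
      have hvF' : vL F' = σ • vL H := vL_mkc _ _
      have hdt : ∀ s : ℝ, dt (F' + s • H) = dt F' := by
        intro s
        have a1 := dt_conf (F' + s • H)
        have a2 := dt_conf F'
        have a3 := dt_conf H
        rw [hH] at a3
        simp only [map_add, map_smul, hwF', hvF', Pi.add_apply, Pi.smul_apply, smul_eq_mul] at a1 a2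
        have : 4 * dt (F' + s • H) = 4 * dt F' := by
          rw [a1, a2]
          linear_combination (2 * s) * (-hσ2) - s ^ 2 * a3
        linarith
      have h2 := hroc F' H hH t ht0 ht1
      have d1 := hdt t
      have d2 := hdt 1
      rw [one_smul] at d2
      rw [d1, d2] at h2
      simp only [map_add, map_smul, hwF', _root_.add_apply, FunLike.coe_smul,
        Pi.smul_apply, smul_eq_mul] at h2 ⊢
      linarith
  intro ι _ F₀ k c d
  obtain ⟨l, hl⟩ := subgrad hf (dt F₀)
  have hBc : Continuous (fun F : E => B F F) := B.continuous.clm_apply continuous_id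
  have hcf : Continuous (fun F : E => h (wL F) + B F F) := (hc.comp wL.continuous).add hBc
  have hcd : Continuous (fun F : E => l * dt F) := continuous_const.mul continuous_dt'
  have h3 := (h1.add (QCtrig_dt l) hcf hcd) ι F₀ k c d
  have hFc : Continuous (fun x => F₀ + Fam k (grk k c) (grk k d) 1 x) :=
    continuous_const.add (continuous_Fam k _ _ 1)
  have hfc : Continuous (fun F : E => f (dt F)) := (cont_conv hf).comp continuous_dt'
  have hprob := volume_cube'
  have h4 : ∫ x in Icc (0 : V) 1, ((h (wL (F₀ + Fam k (grk k c) (grk k d) 1 x))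
      + B (F₀ + Fam k (grk k c) (grk k d) 1 x) (F₀ + Fam k (grk k c) (grk k d) 1 x)
      + l * dt (F₀ + Fam k (grk k c) (grk k d) 1 x)) + (f (dt F₀) - l * dt F₀))
      ≤ ∫ x in Icc (0 : V) 1, (h (wL (F₀ + Fam k (grk k c) (grk k d) 1 x))
      + B (F₀ + Fam k (grk k c) (grk k d) 1 x) (F₀ + Fam k (grk k c) (grk k d) 1 x)
      + f (dt (F₀ + Fam k (grk k c) (grk k d) 1 x))) := by
    refine integral_mono ?_ ?_ fun x => ?_
    · exact (((hcf.add hcd).comp hFc).add continuous_const).integrableOn_Icc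
    · exact ((hcf.add hfc).comp hFc).integrableOn_Icc
    · have := hl (dt (F₀ + Fam k (grk k c) (grk k d) 1 x))
      simp only
      linarith
  have i1 : IntegrableOn (fun x : V => h (wL (F₀ + Fam k (grk k c) (grk k d) 1 x))
      + B (F₀ + Fam k (grk k c) (grk k d) 1 x) (F₀ + Fam k (grk k c) (grk k d) 1 x)
      + l * dt (F₀ + Fam k (grk k c) (grk k d) 1 x)) (Icc (0 : V) 1) :=
    ((hcf.add hcd).comp hFc).integrableOn_Icc
  have i2 : IntegrableOn (fun _ : V => f (dt F₀) - l * dt F₀) (Icc (0 : V) 1) :=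
    continuous_const.integrableOn_Icc
  rw [integral_add i1 i2, integral_const] at h4
  simp only [probReal_univ, one_smul] at h4
  refine le_trans ?_ h4
  simp only at h3 ⊢
  linarith

end Pool.Agent.Helper27.MQ
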