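import Pool.Agent.Helper27.MQ.Red

/-!
# Functions of one row (or one column) and of the determinant plus a polynomial of degree two
-/

set_option autoImplicit false

open MeasureTheory Set Filter Topology
open Matrix hiding col

namespace Pool.Agent.Helper27.MQ

open Pool.Agent.W779.Morrey hiding en en_apply
open Pool.Agent.N555.MQ

/-- it is enough to know the inequality for the matrices outside a subspace -/
theorem QCtrig_of_dense {W : E → ℝ} (hW : Continuous W) (π : E →L[ℝ] V) (N : E) (hN : π N ≠ 0)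
    (h : ∀ (ι : Type) [Fintype ι] (F₀ : E) (k : ι → Fin 2 → ℤ) (c d : ι → V), π F₀ ≠ 0 →
      W F₀ ≤ ∫ x in Icc (0 : V) 1, W (F₀ + Fam k (grk k c) (grk k d) 1 x)) : QCtrig W := by
  intro ι _ F₀ k c d
  by_cases h0 : π F₀ = 0
  · have hc : Continuous (fun s : ℝ => F₀ + s • N) := by fun_prop
    have t1 : Tendsto (fun s : ℝ => W (F₀ + s • N)) (𝓝[>] 0) (𝓝 (W F₀)) := by
      have := (hW.comp hc).tendsto 0
      simp only [Function.comp_apply, zero_smul, add_zero] at this
      exact this.mono_left nhdsWithin_le_nhds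
    have hc2 : Continuous (Function.uncurry fun (s : ℝ) (x : V) =>
        W (F₀ + s • N + Fam k (grk k c) (grk k d) 1 x)) := by
      have h1 : Continuous (fun p : ℝ × V => F₀ + p.1 • N + Fam k (grk k c) (grk k d) 1 p.2) :=
        (hc.comp continuous_fst).add ((continuous_Fam k _ _ 1).comp continuous_snd)
      exact hW.comp h1
    have t2 : Tendsto (fun s : ℝ => ∫ x in Icc (0 : V) 1,
        W (F₀ + s • N + Fam k (grk k c) (grk k d) 1 x)) (𝓝[>] 0)
        (𝓝 (∫ x in Icc (0 : V) 1, W (F₀ + Fam k (grk k c) (grk k d) 1 x))) := by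
      have := (continuous_parametric_integral_of_continuous (μ := volume) hc2
        (isCompact_Icc (a := (0 : V)) (b := 1))).tendsto 0
      simp only [zero_smul, add_zero] at this
      exact this.mono_left nhdsWithin_le_nhds
    refine le_of_tendsto_of_tendsto t1 t2 ?_
    filter_upwards [self_mem_nhdsWithin] with s hs
    refine h ι (F₀ + s • N) k c d ?_
    rw [map_add, h0, zero_add, map_smul]
    exact smul_ne_zero (ne_of_gt hs) hN
  · exact h ι F₀ k c d h0

theorem continuous_dt' : Continuous dt := by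
  unfold dt
  fun_prop

/-- functions of the first row and the determinant plus a quadratic form -/
theorem rowdet_trig {g : V → ℝ → ℝ} {B : E →L[ℝ] E →L[ℝ] ℝ}
    (hc : Continuous fun F : E => g (F 0) (dt F)) (h : RO g B) :
    QCtrig (fun F : E => g (F 0) (dt F) + B F F) := by
  have hBc : Continuous (fun F : E => B F F) := B.continuous.clm_apply continuous_id
  refine QCtrig_of_dense (hc.add hBc) rowL (ee 0 0) (fun h0 => by
    have := congrFun h0 0
    simp [rowL, ee] at this) ?_
  intro ι _ F₀ k c d hF₀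
  obtain ⟨l, f, hfc, hle, heq, hroc⟩ := red hc h F₀ hF₀
  have h1 := row_main hfc B hroc
  have hcf : Continuous (fun F : E => f (F 0) + B F F) :=
    (hfc.comp (continuous_apply 0)).add hBc
  have hcd : Continuous (fun F : E => l * dt F) := continuous_const.mul continuous_dt'
  have h2 := h1.add (QCtrig_dt l) hcf hcd
  have h3 := h2 ι F₀ k c d
  have hFc : Continuous (fun x => F₀ + Fam k (grk k c) (grk k d) 1 x) :=
    continuous_const.add (continuous_Fam k _ _ 1)
  have h4 : ∫ x in Icc (0 : V) 1, (f ((F₀ + Fam k (grk k c) (grk k d) 1 x) 0)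
      + B (F₀ + Fam k (grk k c) (grk k d) 1 x) (F₀ + Fam k (grk k c) (grk k d) 1 x)
      + l * dt (F₀ + Fam k (grk k c) (grk k d) 1 x))
      ≤ ∫ x in Icc (0 : V) 1, (g ((F₀ + Fam k (grk k c) (grk k d) 1 x) 0)
        (dt (F₀ + Fam k (grk k c) (grk k d) 1 x))
      + B (F₀ + Fam k (grk k c) (grk k d) 1 x) (F₀ + Fam k (grk k c) (grk k d) 1 x)) := by
    refine integral_mono ?_ ?_ fun x => ?_
    · exact ((hcf.add hcd).comp hFc).integrableOn_Icc
    · exact ((hc.add hBc).comp hFc).integrableOn_Icc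
    · have := hle (F₀ + Fam k (grk k c) (grk k d) 1 x)
      simp only
      linarith
  refine le_trans (le_of_eq ?_) (h3.trans h4)
  simp only
  rw [← heq]
  ring

/-- functions of one column and the determinant plus a quadratic form -/
theorem coldet_trig {g : V → ℝ → ℝ} {B : E →L[ℝ] E →L[ℝ] ℝ} (β : V) (hβ : β ≠ 0)
    (hc : Continuous fun F : E => g (col β F) (dt F))
    (h : ∀ F H : E, dt H = 0 → ∀ t : ℝ, 0 ≤ t → t ≤ 1 →
      g (col β (F + t • H)) (dt (F + t • H)) + B (F + t • H) (F + t • H)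
        ≤ (1 - t) * (g (col β F) (dt F) + B F F)
          + t * (g (col β (F + H)) (dt (F + H)) + B (F + H) (F + H))) :
    QCtrig (fun F : E => g (col β F) (dt F) + B F F) := by
  have hn := pos_sq hβ
  set γ : V := ![-(β 1) / (β 0 ^ 2 + β 1 ^ 2), β 0 / (β 0 ^ 2 + β 1 ^ 2)] with hγ
  have hdet : β 0 * γ 1 - β 1 * γ 0 = 1 := by
    simp only [hγ, Matrix.cons_val_zero, Matrix.cons_val_one]
    field_simp
    ring
  -- the coordinates: the rows of `G` are the vectors `F β` and `F γ`
  set Φ : E →L[ℝ] E := ContinuousLinearMap.pi fun r => ContinuousLinearMap.pi fun l =>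
    if l = 0 then γ 1 • en 0 r - β 1 • en 1 r else (-(γ 0)) • en 0 r + β 0 • en 1 r with hΦ
  have hΦ0 : ∀ (G : E) (r : Fin 2), Φ G r 0 = γ 1 * G 0 r - β 1 * G 1 r := by
    intro G r
    simp [hΦ, en_apply]
  have hΦ1 : ∀ (G : E) (r : Fin 2), Φ G r 1 = -(γ 0) * G 0 r + β 0 * G 1 r := by
    intro G r
    simp [hΦ, en_apply]
  have hcolΦ : ∀ G : E, col β (Φ G) = G 0 := by
    intro G
    ext r
    simp only [col, hΦ0, hΦ1]
    linear_combination (G 0 r) * hdet
  have hdtΦ : ∀ G : E, dt (Φ G) = dt G := by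
    intro G
    simp only [dt, hΦ0, hΦ1]
    linear_combination (G 0 0 * G 1 1 - G 0 1 * G 1 0) * hdet
  set Ψ : E → E := fun F r l => if r = 0 then col β F l else col γ F l with hΨ
  have hΦΨ : ∀ F : E, Φ (Ψ F) = F := by
    intro F
    ext r l
    fin_cases l
    · simp only [Fin.zero_eta, hΦ0, hΨ, if_true, one_ne_zero, if_false, col]
      linear_combination (F r 0) * hdet
    · simp only [Fin.mk_one, hΦ1, hΨ, if_true, one_ne_zero, if_false, col]
      linear_combination (F r 1) * hdet
  have hΨ0 : ∀ F : E, Ψ F 0 = col β F := by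
    intro F
    funext l
    simp [hΨ]
  have hdtΨ : ∀ F : E, dt (Ψ F) = dt F := by
    intro F
    rw [← hdtΦ (Ψ F), hΦΨ]
  set B' : E →L[ℝ] E →L[ℝ] ℝ := B.bilinearComp Φ Φ with hB'
  have hB'a : ∀ G H : E, B' G H = B (Φ G) (Φ H) := fun G H => by simp [hB']
  have hcG : Continuous fun G : E => g (G 0) (dt G) := by
    have h1 := hc.comp Φ.continuous
    have e : (fun F : E => g (col β F) (dt F)) ∘ Φ = fun G : E => g (G 0) (dt G) := by
      funext G
      simp only [Function.comp_apply, hcolΦ, hdtΦ]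
    rw [e] at h1
    exact h1
  have hRO : RO g B' := by
    intro F H hH t ht0 ht1
    have h1 := h (Φ F) (Φ H) (by rw [hdtΦ, hH]) t ht0 ht1
    rw [← map_smul, ← map_add, ← map_add, hcolΦ, hcolΦ, hcolΦ, hdtΦ, hdtΦ, hdtΦ] at h1
    rw [hB'a, hB'a, hB'a]
    exact h1
  have hBc : Continuous (fun F : E => B F F) := B.continuous.clm_apply continuous_id
  refine QCtrig_of_dense (hc.add hBc) (colL β) (Zm β β) (by rw [colL_apply, col_Zm hβ]; exact hβ) ?_
  intro ι _ F₀ k c d hF₀
  rw [colL_apply] at hF₀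
  obtain ⟨l, f, hfc, hle, heq, hroc⟩ := red hcG hRO (Ψ F₀) (by rw [hΨ0]; exact hF₀)
  have hle' : ∀ F : E, f (col β F) + l * dt F ≤ g (col β F) (dt F) := by
    intro F
    have := hle (Ψ F)
    rw [hΨ0, hdtΨ] at this
    exact this
  have heq' : f (col β F₀) + l * dt F₀ = g (col β F₀) (dt F₀) := by
    rw [hΨ0, hdtΨ] at heq
    exact heq
  have hadd : ∀ F G : E, Ψ (F + G) = Ψ F + Ψ G := by
    intro F G
    ext r l
    fin_cases r <;> simp [hΨ, col] <;> ring
  have hsmul : ∀ (s : ℝ) (G : E), Ψ (s • G) = s • Ψ G := by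
    intro s G
    ext r l
    fin_cases r <;> simp [hΨ, col] <;> ring
  have h1 := quad_main hfc β hβ B (fun F H hH t ht0 ht1 => by
    have h2 := hroc (Ψ F) (Ψ H) (by rw [hdtΨ, hH]) t ht0 ht1
    rw [← hsmul, ← hadd, ← hadd, hΨ0, hΨ0, hΨ0, hB'a, hB'a, hB'a, hΦΨ, hΦΨ, hΦΨ] at h2
    exact h2)
  have hcf : Continuous (fun F : E => f (col β F) + B F F) := by
    have e : (fun F : E => f (col β F) + B F F) = fun F : E => f (colL β F) + B F F := by
      funext F; rw [colL_apply]
    rw [e]
    exact (hfc.comp (colL β).continuous).add hBc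
  have hcd : Continuous (fun F : E => l * dt F) := continuous_const.mul continuous_dt'
  have h2 := h1.add (QCtrig_dt l) hcf hcd
  have h3 := h2 ι F₀ k c d
  have hFc : Continuous (fun x => F₀ + Fam k (grk k c) (grk k d) 1 x) :=
    continuous_const.add (continuous_Fam k _ _ 1)
  have h4 : ∫ x in Icc (0 : V) 1, (f (col β (F₀ + Fam k (grk k c) (grk k d) 1 x))
      + B (F₀ + Fam k (grk k c) (grk k d) 1 x) (F₀ + Fam k (grk k c) (grk k d) 1 x)
      + l * dt (F₀ + Fam k (grk k c) (grk k d) 1 x))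
      ≤ ∫ x in Icc (0 : V) 1, (g (col β (F₀ + Fam k (grk k c) (grk k d) 1 x))
        (dt (F₀ + Fam k (grk k c) (grk k d) 1 x))
      + B (F₀ + Fam k (grk k c) (grk k d) 1 x) (F₀ + Fam k (grk k c) (grk k d) 1 x)) := by
    refine integral_mono ?_ ?_ fun x => ?_
    · exact ((hcf.add hcd).comp hFc).integrableOn_Icc
    · exact ((hc.add hBc).comp hFc).integrableOn_Icc
    · have := hle' (F₀ + Fam k (grk k c) (grk k d) 1 x)
      simp only
      linarith
  refine le_trans (le_of_eq ?_) (h3.trans h4)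
  simp only
  rw [← heq']
  ring

/-- multiplication from the left by the matrix with the entries `a b c d` -/
noncomputable def LM (a b c d : ℝ) : E →L[ℝ] E :=
  ContinuousLinearMap.pi fun r => ContinuousLinearMap.pi fun l =>
    if r = 0 then a • en 0 l + b • en 1 l else c • en 0 l + d • en 1 l

theorem LM_zero (a b c d : ℝ) (F : E) (l : Fin 2) : LM a b c d F 0 l = a * F 0 l + b * F 1 l := by
  simp [LM, en_apply]

theorem LM_one (a b c d : ℝ) (F : E) (l : Fin 2) : LM a b c d F 1 l = c * F 0 l + d * F 1 l := by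
  simp [LM, en_apply]

theorem LM_Fam {ι : Type*} [Fintype ι] (a b c d : ℝ) (k : ι → Fin 2 → ℤ) (u v : ι → V) (x : V) :
    LM a b c d (Fam k (grk k u) (grk k v) 1 x)
      = Fam k (grk k fun i r => if r = 0 then a * u i 0 + b * u i 1 else c * u i 0 + d * u i 1)
        (grk k fun i r => if r = 0 then a * v i 0 + b * v i 1 else c * v i 0 + d * v i 1) 1 x := by
  ext r l
  simp only [Fam_one]
  fin_cases r
  · simp only [Fin.zero_eta, LM_zero, Finset.sum_apply, Finset.mul_sum, ← Finset.sum_add_distrib]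
    refine Finset.sum_congr rfl fun i _ => ?_
    simp only [tm, grk, Pi.add_apply, Pi.smul_apply, smul_eq_mul, if_true]
    ring
  · simp only [Fin.mk_one, LM_one, Finset.sum_apply, Finset.mul_sum, ← Finset.sum_add_distrib]
    refine Finset.sum_congr rfl fun i _ => ?_
    simp only [tm, grk, Pi.add_apply, Pi.smul_apply, smul_eq_mul, one_ne_zero, if_false]
    ring

theorem QCtrig_of_LM {W : E → ℝ} {a b c d a' b' c' d' : ℝ}
    (hinv : ∀ F : E, LM a' b' c' d' (LM a b c d F) = F)
    (h : QCtrig fun G : E => W (LM a' b' c' d' G)) : QCtrig W := by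
  intro ι _ F₀ k u v
  have h1 := h ι (LM a b c d F₀) k
    (fun i r => if r = 0 then a * u i 0 + b * u i 1 else c * u i 0 + d * u i 1)
    (fun i r => if r = 0 then a * v i 0 + b * v i 1 else c * v i 0 + d * v i 1)
  simp only [hinv] at h1
  refine h1.trans (le_of_eq ?_)
  refine integral_congr_ae (Eventually.of_forall fun x => ?_)
  simp only
  rw [← LM_Fam, ← map_add, hinv]

section mat

variable (Gf : Matrix (Fin 2) (Fin 2) ℝ → ℝ) (Q : QuadraticForm ℝ (Matrix (Fin 2) (Fin 2) ℝ))
  (L : Matrix (Fin 2) (Fin 2) ℝ →ₗ[ℝ] ℝ)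

/-- the transition from matrices to coordinates -/
theorem split_main
    (hroc : Pool.Agent.Helper188.Morrey.RankOneConvex fun F => Gf F + Q F + L F) :
    ∃ B : E →L[ℝ] E →L[ℝ] ℝ, (∀ F : E, B F F = Q (of F)) ∧
      Continuous (fun F : E => Gf (of F)) ∧
      (∀ F H : E, dt H = 0 → ∀ t : ℝ, 0 ≤ t → t ≤ 1 →
        Gf (of (F + t • H)) + B (F + t • H) (F + t • H)
          ≤ (1 - t) * (Gf (of F) + B F F) + t * (Gf (of (F + H)) + B (F + H) (F + H))) ∧
      (QCtrig (fun F : E => Gf (of F) + B F F) → QC fun F => Gf F + Q F + L F) := by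
  set oL : E →ₗ[ℝ] Matrix (Fin 2) (Fin 2) ℝ :=
    (Matrix.ofLinearEquiv ℝ : E ≃ₗ[ℝ] Matrix (Fin 2) (Fin 2) ℝ).toLinearMap with hoL
  set B : E →L[ℝ] E →L[ℝ] ℝ := LinearMap.toContinuousBilinearMap
    ((QuadraticMap.associated Q : LinearMap.BilinForm ℝ (Matrix (Fin 2) (Fin 2) ℝ)).compl₁₂ oL oL)
    with hB
  set L' : E →L[ℝ] ℝ := LinearMap.toContinuousLinearMap (E := E) (F' := ℝ) (L ∘ₗ oL) with hL'
  have hBQ : ∀ F : E, B F F = Q (of F) := fun F => QuadraticMap.associated_eq_self_apply ℝ Q (of F)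
  have hLL : ∀ F : E, L' F = L (of F) := fun F => rfl
  have hcM : Continuous fun F : Matrix (Fin 2) (Fin 2) ℝ => Gf F + Q F + L F :=
    hroc.continuous
  have hc : Continuous fun F : E => Gf (of F) + Q (of F) + L (of F) := hcM
  have hBc : Continuous (fun F : E => B F F) := B.continuous.clm_apply continuous_id
  have hGc : Continuous (fun F : E => Gf (of F)) := by
    have h1 : (fun F : E => Gf (of F)) = fun F : E => (Gf (of F) + Q (of F) + L (of F))
        - B F F - L' F := by
      funext F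
      rw [hBQ, hLL]
      ring
    rw [h1]
    exact (hc.sub hBc).sub L'.continuous
  refine ⟨B, hBQ, hGc, ?_, ?_⟩
  · intro F H hH t ht0 ht1
    have h1 := hroc.seg (of F) (of H) (by rw [det_of]; exact hH) ht0 ht1
    have h2 : Gf (of (F + t • H)) + Q (of (F + t • H)) + L (of (F + t • H))
        ≤ (1 - t) * (Gf (of F) + Q (of F) + L (of F))
          + t * (Gf (of (F + H)) + Q (of (F + H)) + L (of (F + H))) := h1
    rw [← hBQ, ← hBQ, ← hBQ, ← hLL, ← hLL, ← hLL] at h2
    have g1 : L' (F + t • H) = L' F + t * L' H := by rw [map_add, map_smul, smul_eq_mul]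
    have g2 : L' (F + H) = L' F + L' H := map_add _ _ _
    rw [g1, g2] at h2
    linarith
  · intro hq
    refine QC_of_trig hc ?_
    have e : (fun F : E => Gf (of F) + Q (of F) + L (of F))
        = fun F : E => (Gf (of F) + B F F) + L' F := by
      funext F
      rw [hBQ, hLL]
    rw [e]
    exact QCtrig_add_lin hq (hGc.add hBc) L'

/-- functions of one column and the determinant plus a polynomial of degree two -/
theorem fin_coldet (β : V) (g : V → ℝ → ℝ)
    (hroc : Pool.Agent.Helper188.Morrey.RankOneConvex fun F =>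
      g (F *ᵥ β) F.det + Q F + L F) :
    QC fun F => g (F *ᵥ β) F.det + Q F + L F := by
  have key : ∀ (γ : V) (g' : V → ℝ → ℝ), γ ≠ 0 →
      (∀ F : E, g (of F *ᵥ β) (of F).det = g' (col γ F) (dt F)) →
      QC fun F => g (F *ᵥ β) F.det + Q F + L F := by
    intro γ g' hγ hg
    obtain ⟨B, hBQ, hGc, hin, hfin⟩ := split_main (fun F => g (F *ᵥ β) F.det) Q L hroc
    refine hfin ?_
    simp only [hg] at hGc hin ⊢
    exact coldet_trig γ hγ hGc hin
  by_cases hβ : β = 0
  · exact key ![1, 0] (fun _ => g 0) (fun h => by simpa using congrFun h 0)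
      (fun F => by rw [hβ, Matrix.mulVec_zero, det_of])
  · exact key β g hβ fun F => by rw [of_mulVec, det_of]

/-- functions of one row and the determinant plus a polynomial of degree two -/
theorem fin_rowdet (α : V) (g : V → ℝ → ℝ)
    (hroc : Pool.Agent.Helper188.Morrey.RankOneConvex fun F =>
      g (α ᵥ* F) F.det + Q F + L F) :
    QC fun F => g (α ᵥ* F) F.det + Q F + L F := by
  have hvm : ∀ (γ : V) (F : E), γ ᵥ* (of F) = fun l => γ 0 * F 0 l + γ 1 * F 1 l := by
    intro γ F
    ext l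
    simp [Matrix.vecMul, dotProduct, Fin.sum_univ_two]
  have key : ∀ (γ : V) (g' : V → ℝ → ℝ) (p q : ℝ), γ 0 * q - γ 1 * p ≠ 0 →
      (∀ F : E, g (α ᵥ* of F) (of F).det = g' (fun l => γ 0 * F 0 l + γ 1 * F 1 l) (dt F)) →
      QC fun F => g (α ᵥ* F) F.det + Q F + L F := by
    intro γ g' p q hD hg
    obtain ⟨B, hBQ, hGc, hin, hfin⟩ := split_main (fun F => g (α ᵥ* F) F.det) Q L hroc
    refine hfin ?_
    simp only [hg] at hGc hin ⊢
    set D := γ 0 * q - γ 1 * p with hDdef
    set Λ : E →L[ℝ] E := LM (q / D) (-(γ 1) / D) (-p / D) (γ 0 / D) with hΛ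
    have hrow : ∀ G : E, (fun l => γ 0 * Λ G 0 l + γ 1 * Λ G 1 l) = G 0 := by
      intro G
      funext l
      simp only [hΛ, LM_zero, LM_one]
      field_simp
      rw [hDdef]
      ring
    have hdet : ∀ G : E, dt (Λ G) = D⁻¹ * dt G := by
      intro G
      simp only [dt, hΛ, LM_zero, LM_one]
      field_simp
      rw [hDdef]
      ring
    have hinv : ∀ F : E, Λ (LM (γ 0) (γ 1) p q F) = F := by
      intro F
      ext r l
      fin_cases r
      · simp only [Fin.zero_eta, hΛ, LM_zero, LM_one]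
        field_simp
        rw [hDdef]
        ring
      · simp only [Fin.mk_one, hΛ, LM_zero, LM_one]
        field_simp
        rw [hDdef]
        ring
    refine QCtrig_of_LM hinv ?_
    set g'' : V → ℝ → ℝ := fun x δ => g' x (D⁻¹ * δ) with hg''
    set B' : E →L[ℝ] E →L[ℝ] ℝ := B.bilinearComp Λ Λ with hB'
    have hB'a : ∀ G H : E, B' G H = B (Λ G) (Λ H) := fun G H => by simp [hB']
    have e : (fun G : E => g' (fun l => γ 0 * Λ G 0 l + γ 1 * Λ G 1 l) (dt (Λ G)) + B (Λ G) (Λ G))
        = fun G : E => g'' (G 0) (dt G) + B' G G := by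
      funext G
      rw [hrow, hdet, hB'a]
    rw [e]
    refine rowdet_trig ?_ ?_
    · have h1 := hGc.comp Λ.continuous
      have e2 : (fun F : E => g' (fun l => γ 0 * F 0 l + γ 1 * F 1 l) (dt F)) ∘ Λ
          = fun G : E => g'' (G 0) (dt G) := by
        funext G
        simp only [Function.comp_apply]
        rw [hrow, hdet]
      rw [e2] at h1
      exact h1
    · intro F H hH t ht0 ht1
      have h1 := hin (Λ F) (Λ H) (by rw [hdet, hH, mul_zero]) t ht0 ht1
      rw [← map_smul, ← map_add, ← map_add, hrow, hrow, hrow, hdet, hdet, hdet] at h1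
      rw [hB'a, hB'a, hB'a]
      exact h1
  by_cases h0 : α 0 = 0
  · by_cases h1 : α 1 = 0
    · have hα : α = 0 := by
        ext j
        fin_cases j
        · exact h0
        · exact h1
      exact key ![1, 0] (fun _ => g 0) 0 1 (by simp)
        (fun F => by rw [hα, Matrix.zero_vecMul, det_of])
    · exact key α g 1 0 (by rw [h0]; simpa using h1) fun F => by rw [hvm, det_of]
  · exact key α g 0 1 (by simpa using h0) fun F => by rw [hvm, det_of]

end mat

end Pool.Agent.Helper27.MQ
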