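import Pool.Agent.N555.MQ.Lim

/-!
# Monotonicity along an anisotropic heat flow, with a measurable multiplier

The flow is `∂ₜ u = (β₁ · ∇)² u + (β₂ · ∇)² u` and the multiplier depends on a linear image
`π F` in the plane of the matrix.
-/

set_option autoImplicit false

open MeasureTheory Set Filter Topology

namespace Pool.Agent.Helper27.MQ

open Pool.Agent.W779.Morrey Pool.Agent.N555.MQ

/-- the cross product -/
def cr (a b : V) : ℝ := a 0 * b 1 - a 1 * b 0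

section fam

variable {ι : Type*} [Fintype ι]

/-- the second derivatives -/
noncomputable def D2 (k : ι → Fin 2 → ℤ) (A B : ι → E) (l m : Fin 2) (x : V) : E :=
  Fam k (dA k (dB k A l) m) (dB k (dA k B l) m) 1 x

/-- the first derivatives -/
noncomputable def D1 (k : ι → Fin 2 → ℤ) (A B : ι → E) (l : Fin 2) (x : V) : E :=
  Fam k (dA k B l) (dB k A l) 1 x

theorem D2_symm (k : ι → Fin 2 → ℤ) (A B : ι → E) (x : V) : D2 k A B 0 1 x = D2 k A B 1 0 x := by
  have e1 : dA k (dB k A 0) 1 = dA k (dB k A 1) 0 := by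
    funext i
    simp only [dA, dB, smul_neg, smul_smul]
    ring_nf
  have e2 : dB k (dA k B 0) 1 = dB k (dA k B 1) 0 := by
    funext i
    simp only [dA, dB, smul_smul]
    ring_nf
  unfold D2
  rw [e1, e2]

theorem D1_grk (k : ι → Fin 2 → ℤ) (c d : ι → V) (x : V) (r : Fin 2) :
    D1 k (grk k c) (grk k d) 0 x r 1 = D1 k (grk k c) (grk k d) 1 x r 0 := by
  simp only [D1, Fam, Finset.sum_apply, Pi.smul_apply, tm, dA, dB, Pi.add_apply, Pi.neg_apply,
    smul_eq_mul, grk]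
  refine Finset.sum_congr rfl fun i _ => ?_
  ring

theorem pmap_lin (π : E →L[ℝ] V) (F₀ : E) (k : ι → Fin 2 → ℤ) (A B : ι → E) :
    PMap (fun x => π (F₀ + Fam k A B 1 x))
      (fun r l x => π (D1 k A B l x) r)
      (fun r l m x => π (D2 k A B l m x) r) where
  d1 := by
    intro r x
    have h := ((ContinuousLinearMap.proj (R := ℝ) (φ := fun _ : Fin 2 => ℝ) r).comp π).hasFDerivAt.comp
      x ((hasFDerivAt_Fam k A B 1 x).const_add F₀)
    refine h.congr_fderiv ?_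
    ext v
    simp [mk', Fin.sum_univ_two, D1]
  d2 := by
    intro r l x
    have h := ((ContinuousLinearMap.proj (R := ℝ) (φ := fun _ : Fin 2 => ℝ) r).comp π).hasFDerivAt.comp
      x (hasFDerivAt_Fam k (dA k B l) (dB k A l) 1 x)
    refine h.congr_fderiv ?_
    ext v
    simp [mk', Fin.sum_univ_two, D2]
  c2 := by
    intro r l m
    exact (continuous_apply r).comp (π.continuous.comp (continuous_Fam k _ _ 1))
  symm := by
    intro r x
    rw [D2_symm]
  pp := by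
    intro i x
    simp only [Fam_periodic]
  pJ := by
    intro r l i x
    simp only [D1, Fam_periodic]

theorem heat0 (β : V) (k : ι → Fin 2 → ℤ) (A B : ι → E) (x : V) :
    β 0 • Fam k (dA k (fun i => - ml β k A i) 0) (dB k (ml β k B) 0) 1 x
      + β 1 • Fam k (dA k (fun i => - ml β k A i) 1) (dB k (ml β k B) 1) 1 x
      = Fam k (fun i => -(fr β k i ^ 2) • A i) (fun i => -(fr β k i ^ 2) • B i) 1 x := by
  rw [dir_Fam β k (ml β k B) (fun i => - ml β k A i) x]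
  simp only [Fam_one]
  refine Finset.sum_congr rfl fun i _ => ?_
  ext r l
  simp only [tm, ml, Pi.add_apply, Pi.smul_apply, Pi.neg_apply, smul_eq_mul]
  ring

/-- dissipation for the flow in one direction -/
theorem dis_one {W : E → ℝ} (hW : ContDiff ℝ 2 W) (β : V) (F₀ : E) (k : ι → Fin 2 → ℤ)
    (A B : ι → E) :
    ∫ x in Icc (0 : V) 1,
      (fderiv ℝ (fderiv ℝ W) (F₀ + Fam k A B 1 x) (β 0 • D1 k A B 0 x + β 1 • D1 k A B 1 x)
        (β 0 • D1 k A B 0 x + β 1 • D1 k A B 1 x)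
      + fderiv ℝ W (F₀ + Fam k A B 1 x)
        (Fam k (fun i => -(fr β k i ^ 2) • A i) (fun i => -(fr β k i ^ 2) • B i) 1 x)) = 0 := by
  have hdir : ∀ x, β 0 • Fam k (dA k B 0) (dB k A 0) 1 x + β 1 • Fam k (dA k B 1) (dB k A 1) 1 x
      = Fam k (ml β k B) (fun i => - ml β k A i) 1 x := fun x => dir_Fam β k A B x
  have hdis := dissip hW β (fun x => F₀ + Fam k A B 1 x)
    (fun j => Fam k (dA k B j) (dB k A j) 1)
    (fun l => Fam k (dA k (fun i => - ml β k A i) l) (dB k (ml β k B) l) 1)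
    (fun x => (hasFDerivAt_Fam k A B 1 x).const_add F₀)
    (fun x => by
      simp only [hdir]
      exact hasFDerivAt_Fam k (ml β k B) (fun i => - ml β k A i) 1 x)
    (fun j => continuous_Fam k _ _ 1) (fun l => continuous_Fam k _ _ 1)
    (fun i x => by rw [Fam_periodic]) (fun j i x => by rw [Fam_periodic])
  rw [← hdis]
  refine integral_congr_ae (Eventually.of_forall fun x => ?_)
  simp only [D1, heat0]

/-- the null Lagrangians with constant coefficients -/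
theorem null_const (Ω : E →L[ℝ] E →L[ℝ] ℝ) (F₀ : E) (k : ι → Fin 2 → ℤ) (A B : ι → E) :
    ∫ x in Icc (0 : V) 1,
      (Ω (D1 k A B 0 x) (D1 k A B 1 x) - Ω (D1 k A B 1 x) (D1 k A B 0 x)) = 0 := by
  have h := dissipation (W := fun _ : E => (0 : ℝ)) (θ := fun F => Ω F) contDiff_const Ω.contDiff
    (fun x => F₀ + Fam k A B 1 x)
      (fun j => Fam k (dA k B j) (dB k A j) 1)
      (fun j l => Fam k (dA k (dB k A j) l) (dB k (dA k B j) l) 1)
      (fun x => (hasFDerivAt_Fam k A B 1 x).const_add F₀)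
      (fun j x => hasFDerivAt_Fam k _ _ 1 x)
      (fun j l => continuous_Fam k _ _ 1)
      (fun x => D2_symm k A B x)
      (fun i x => by rw [Fam_periodic])
      (fun j i x => by rw [Fam_periodic])
  rw [← h]
  refine integral_congr_ae (Eventually.of_forall fun x => ?_)
  have e0 : fderiv ℝ (fun _ : E => (0 : ℝ)) = fun _ => 0 := by
    funext x; simp
  have e1 : ∀ F, fderiv ℝ (fun F => Ω F) F = Ω := fun F => Ω.fderiv
  simp only [e0, e1, D1]
  simp

/-- The pointwise inequality which makes the energy decrease. -/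
def Cert (W : E → ℝ) (π : E →L[ℝ] V) (β₁ β₂ : V) (Ω : E →L[ℝ] E →L[ℝ] ℝ) (ℓ : V → ℝ) : Prop :=
  ∀ F G₀ G₁ : E, (∀ r, G₀ r 1 = G₁ r 0) →
    0 ≤ fderiv ℝ (fderiv ℝ W) F (β₁ 0 • G₀ + β₁ 1 • G₁) (β₁ 0 • G₀ + β₁ 1 • G₁)
      + fderiv ℝ (fderiv ℝ W) F (β₂ 0 • G₀ + β₂ 1 • G₁) (β₂ 0 • G₀ + β₂ 1 • G₁)
      + (Ω G₀ G₁ - Ω G₁ G₀) + ℓ (π F) * cr (π G₀) (π G₁)

/-- the symbol of the flow -/
noncomputable def fq (β₁ β₂ : V) (k : ι → Fin 2 → ℤ) (i : ι) : ℝ :=
  fr β₁ k i ^ 2 + fr β₂ k i ^ 2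

theorem step {W : E → ℝ} (hW : ContDiff ℝ 2 W) (π : E →L[ℝ] V) (β₁ β₂ : V)
    (Ω : E →L[ℝ] E →L[ℝ] ℝ) {ℓ : V → ℝ} (hℓ : Measurable ℓ)
    (hb : ∀ R : ℝ, ∃ C : ℝ, ∀ v : V, ‖v‖ ≤ R → |ℓ v| ≤ C)
    (hcond : Cert W π β₁ β₂ Ω ℓ) (F₀ : E) (k : ι → Fin 2 → ℤ) (c d : ι → V) :
    ∫ x in Icc (0 : V) 1, fderiv ℝ W (F₀ + Fam k (grk k c) (grk k d) 1 x)
      (Fam k (fun i => -(fq β₁ β₂ k i) • grk k c i) (fun i => -(fq β₁ β₂ k i) • grk k d i) 1 x)
      ≤ 0 := by
  set A := grk k c with hA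
  set B := grk k d with hB
  have hP1 : ContDiff ℝ 1 (fderiv ℝ W) := hW.fderiv_right (by norm_num)
  have hHc : Continuous (fderiv ℝ (fderiv ℝ W)) := hP1.continuous_fderiv (by norm_num)
  have hFc : Continuous (fun x => F₀ + Fam k A B 1 x) :=
    continuous_const.add (continuous_Fam k A B 1)
  have hDc : ∀ l, Continuous (D1 k A B l) := fun l => continuous_Fam k _ _ 1
  have hPM := pmap_lin π F₀ k A B
  -- the null Lagrangian with the measurable factor
  have hpc := hPM.contp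
  obtain ⟨R, hR⟩ := (isCompact_Icc (a := (0 : V)) (b := 1)).exists_bound_of_continuousOn
    hpc.continuousOn
  obtain ⟨C, hC⟩ := hb R
  have hbd : ∀ x, |(fun v => if ‖v‖ ≤ R then ℓ v else 0)
      (π (F₀ + Fam k A B 1 x))| ≤ |C| := by
    intro x
    simp only
    split_ifs with h
    · exact (hC _ h).trans (le_abs_self C)
    · simp
  have hmeas : Measurable (fun v : V => if ‖v‖ ≤ R then ℓ v else 0) :=
    Measurable.ite (measurableSet_le measurable_norm measurable_const) hℓ measurable_const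
  have hnull := null2 hPM hmeas |C| hbd
  have hdJ : ∀ x, dJ (fun r l x => π (D1 k A B l x) r) x
      = cr (π (D1 k A B 0 x)) (π (D1 k A B 1 x)) := by
    intro x
    simp only [dJ, cr]
    ring
  have hnull2 : ∫ x in Icc (0 : V) 1, ℓ (π (F₀ + Fam k A B 1 x))
      * cr (π (D1 k A B 0 x)) (π (D1 k A B 1 x)) = 0 := by
    rw [← hnull]
    refine setIntegral_congr_fun measurableSet_Icc fun x hx => ?_
    change _ = (if ‖π (F₀ + Fam k A B 1 x)‖ ≤ R then ℓ (π (F₀ + Fam k A B 1 x)) else 0)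
        * dJ (fun r l x => π (D1 k A B l x) r) x
    rw [if_pos (hR x hx), hdJ]
  have hcrc : Continuous (fun x => cr (π (D1 k A B 0 x)) (π (D1 k A B 1 x))) := by
    have := contdJ hPM
    have e : dJ (fun r l x => π (D1 k A B l x) r)
      = fun x => cr (π (D1 k A B 0 x)) (π (D1 k A B 1 x)) := funext hdJ
    rw [e] at this
    exact this
  have hi3 : IntegrableOn (fun x => ℓ (π (F₀ + Fam k A B 1 x))
      * cr (π (D1 k A B 0 x)) (π (D1 k A B 1 x))) (Icc (0 : V) 1) := by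
    have h1 : IntegrableOn (fun x => (fun v => if ‖v‖ ≤ R then ℓ v else 0)
        (π (F₀ + Fam k A B 1 x))
        * cr (π (D1 k A B 0 x)) (π (D1 k A B 1 x))) (Icc (0 : V) 1) := by
      refine Integrable.bdd_mul (c := |C|) hcrc.integrableOn_Icc ?_ (Eventually.of_forall hbd)
      exact (hmeas.comp hpc.measurable).aestronglyMeasurable
    refine h1.congr_fun (fun x hx => ?_) measurableSet_Icc
    change (if ‖π (F₀ + Fam k A B 1 x)‖ ≤ R then ℓ (π (F₀ + Fam k A B 1 x)) else 0)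
        * cr (π (D1 k A B 0 x)) (π (D1 k A B 1 x)) = _
    rw [if_pos (hR x hx)]
  -- the two dissipation identities
  have q1 := dis_one hW β₁ F₀ k A B
  have q2 := dis_one hW β₂ F₀ k A B
  have q3 := null_const Ω F₀ k A B
  have hdirc : ∀ β : V, Continuous (fun x => β 0 • D1 k A B 0 x + β 1 • D1 k A B 1 x) :=
    fun β => ((hDc 0).const_smul (β 0)).add ((hDc 1).const_smul (β 1))
  have i1 : ∀ β : V, IntegrableOn (fun x => fderiv ℝ (fderiv ℝ W) (F₀ + Fam k A B 1 x)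
      (β 0 • D1 k A B 0 x + β 1 • D1 k A B 1 x)
      (β 0 • D1 k A B 0 x + β 1 • D1 k A B 1 x)) (Icc (0 : V) 1) := fun β =>
    Continuous.integrableOn_Icc (((hHc.comp hFc).clm_apply (hdirc β)).clm_apply (hdirc β))
  have i2 : ∀ (A' B' : ι → E), IntegrableOn (fun x => fderiv ℝ W (F₀ + Fam k A B 1 x)
      (Fam k A' B' 1 x)) (Icc (0 : V) 1) := fun A' B' =>
    Continuous.integrableOn_Icc ((hP1.continuous.comp hFc).clm_apply (continuous_Fam k _ _ 1))
  have i4 : IntegrableOn (fun x => Ω (D1 k A B 0 x) (D1 k A B 1 x)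
      - Ω (D1 k A B 1 x) (D1 k A B 0 x)) (Icc (0 : V) 1) := by
    refine Continuous.integrableOn_Icc (Continuous.sub ?_ ?_)
    · exact ((Ω.continuous.comp (hDc 0)).clm_apply (hDc 1))
    · exact ((Ω.continuous.comp (hDc 1)).clm_apply (hDc 0))
  rw [integral_add (i1 β₁) (i2 _ _)] at q1
  rw [integral_add (i1 β₂) (i2 _ _)] at q2
  have hnn : 0 ≤ ∫ x in Icc (0 : V) 1,
      (fderiv ℝ (fderiv ℝ W) (F₀ + Fam k A B 1 x)
          (β₁ 0 • D1 k A B 0 x + β₁ 1 • D1 k A B 1 x) (β₁ 0 • D1 k A B 0 x + β₁ 1 • D1 k A B 1 x)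
      + fderiv ℝ (fderiv ℝ W) (F₀ + Fam k A B 1 x)
          (β₂ 0 • D1 k A B 0 x + β₂ 1 • D1 k A B 1 x) (β₂ 0 • D1 k A B 0 x + β₂ 1 • D1 k A B 1 x)
      + (Ω (D1 k A B 0 x) (D1 k A B 1 x) - Ω (D1 k A B 1 x) (D1 k A B 0 x))
      + ℓ (π (F₀ + Fam k A B 1 x)) * cr (π (D1 k A B 0 x)) (π (D1 k A B 1 x))) :=
    integral_nonneg fun x => hcond _ _ _ (fun r => D1_grk k c d x r)
  have i12 : IntegrableOn (fun x => fderiv ℝ (fderiv ℝ W) (F₀ + Fam k A B 1 x)
          (β₁ 0 • D1 k A B 0 x + β₁ 1 • D1 k A B 1 x) (β₁ 0 • D1 k A B 0 x + β₁ 1 • D1 k A B 1 x)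
      + fderiv ℝ (fderiv ℝ W) (F₀ + Fam k A B 1 x)
          (β₂ 0 • D1 k A B 0 x + β₂ 1 • D1 k A B 1 x) (β₂ 0 • D1 k A B 0 x + β₂ 1 • D1 k A B 1 x))
      (Icc (0 : V) 1) := (i1 β₁).add (i1 β₂)
  have i124 : IntegrableOn (fun x => fderiv ℝ (fderiv ℝ W) (F₀ + Fam k A B 1 x)
          (β₁ 0 • D1 k A B 0 x + β₁ 1 • D1 k A B 1 x) (β₁ 0 • D1 k A B 0 x + β₁ 1 • D1 k A B 1 x)
      + fderiv ℝ (fderiv ℝ W) (F₀ + Fam k A B 1 x)
          (β₂ 0 • D1 k A B 0 x + β₂ 1 • D1 k A B 1 x) (β₂ 0 • D1 k A B 0 x + β₂ 1 • D1 k A B 1 x)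
      + (Ω (D1 k A B 0 x) (D1 k A B 1 x) - Ω (D1 k A B 1 x) (D1 k A B 0 x)))
      (Icc (0 : V) 1) := i12.add i4
  rw [integral_add i124 hi3, integral_add i12 i4, integral_add (i1 β₁) (i1 β₂), hnull2, q3] at hnn
  have hsum : ∀ x, Fam k (fun i => -(fq β₁ β₂ k i) • A i) (fun i => -(fq β₁ β₂ k i) • B i) 1 x
      = Fam k (fun i => -(fr β₁ k i ^ 2) • A i) (fun i => -(fr β₁ k i ^ 2) • B i) 1 x
        + Fam k (fun i => -(fr β₂ k i ^ 2) • A i) (fun i => -(fr β₂ k i ^ 2) • B i) 1 x := by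
    intro x
    simp only [Fam_one]
    rw [← Finset.sum_add_distrib]
    refine Finset.sum_congr rfl fun i _ => ?_
    ext r l
    simp only [tm, fq, Pi.add_apply, Pi.smul_apply, smul_eq_mul]
    ring
  simp only [hsum, map_add]
  rw [integral_add (i2 _ _) (i2 _ _)]
  linarith

/-- the coefficients at time `t` -/
noncomputable def dc (β₁ β₂ : V) (k : ι → Fin 2 → ℤ) (t : ℝ) (c : ι → V) : ι → V :=
  fun i => Real.exp (-(t * fq β₁ β₂ k i)) • c i

omit [Fintype ι] in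
theorem grk_dc (β₁ β₂ : V) (k : ι → Fin 2 → ℤ) (t : ℝ) (c : ι → V) :
    grk k (dc β₁ β₂ k t c) = fun i => Real.exp (-(t * fq β₁ β₂ k i)) • grk k c i := by
  funext i r l
  simp only [grk, dc, Pi.smul_apply, smul_eq_mul]
  ring

theorem hasDerivAt_dc (β₁ β₂ : V) (k : ι → Fin 2 → ℤ) (c d : ι → V) (t : ℝ) (x : V) :
    HasDerivAt (fun t => Fam k (grk k (dc β₁ β₂ k t c)) (grk k (dc β₁ β₂ k t d)) 1 x)
      (Fam k (fun i => -(fq β₁ β₂ k i) • grk k (dc β₁ β₂ k t c) i)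
        (fun i => -(fq β₁ β₂ k i) • grk k (dc β₁ β₂ k t d) i) 1 x) t := by
  simp only [Fam_one, grk_dc]
  refine HasDerivAt.fun_sum fun i _ => ?_
  have h0 : HasDerivAt (fun t : ℝ => Real.exp (-(t * fq β₁ β₂ k i)))
      (Real.exp (-(t * fq β₁ β₂ k i)) * (-(1 * fq β₁ β₂ k i))) t :=
    (((hasDerivAt_id t).mul_const (fq β₁ β₂ k i)).neg).exp
  have h1 := (h0.smul_const (grk k c i)).const_smul (Real.cos (ph (k i) x))
  have h2 := (h0.smul_const (grk k d i)).const_smul (Real.sin (ph (k i) x))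
  refine (h1.add h2).congr_deriv ?_
  ext r l
  simp only [tm, Pi.add_apply, Pi.smul_apply, smul_eq_mul]
  ring

omit [Fintype ι] in
theorem continuous_grk_dc (β₁ β₂ : V) (k : ι → Fin 2 → ℤ) (c : ι → V) (i : ι) :
    Continuous (fun t => grk k (dc β₁ β₂ k t c) i) := by
  unfold grk dc
  simp only [Pi.smul_apply]
  fun_prop

theorem flow_le' {W : E → ℝ} (hW : ContDiff ℝ 2 W) (π : E →L[ℝ] V) (β₁ β₂ : V)
    (Ω : E →L[ℝ] E →L[ℝ] ℝ) {ℓ : V → ℝ} (hℓ : Measurable ℓ)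
    (hb : ∀ R : ℝ, ∃ C : ℝ, ∀ v : V, ‖v‖ ≤ R → |ℓ v| ≤ C)
    (hcond : Cert W π β₁ β₂ Ω ℓ) (F₀ : E) (k : ι → Fin 2 → ℤ) (c d : ι → V) {T : ℝ}
    (hT : 0 ≤ T) :
    ∫ x in Icc (0 : V) 1, W (F₀ + Fam k (grk k (dc β₁ β₂ k T c)) (grk k (dc β₁ β₂ k T d)) 1 x)
      ≤ ∫ x in Icc (0 : V) 1, W (F₀ + Fam k (grk k c) (grk k d) 1 x) := by
  have hP1 : ContDiff ℝ 1 (fderiv ℝ W) := hW.fderiv_right (by norm_num)
  have h00 : ∀ (c : ι → V), dc β₁ β₂ k 0 c = c := by
    intro c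
    funext i
    simp [dc]
  have hFc : Continuous (fun p : ℝ × V =>
      F₀ + Fam k (grk k (dc β₁ β₂ k p.1 c)) (grk k (dc β₁ β₂ k p.1 d)) 1 p.2) :=
    continuous_const.add (continuous_Fam_coef k
      (fun i => (continuous_grk_dc β₁ β₂ k c i).comp continuous_fst)
      (fun i => (continuous_grk_dc β₁ β₂ k d i).comp continuous_fst) continuous_snd)
  have hsm : ∀ (c : ι → V) (i : ι),
      Continuous (fun p : ℝ × V => -(fq β₁ β₂ k i) • grk k (dc β₁ β₂ k p.1 c) i) := by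
    intro c i
    exact ((continuous_grk_dc β₁ β₂ k c i).comp (continuous_fst (X := ℝ) (Y := V))).const_smul
      (-(fq β₁ β₂ k i))
  have hGc : Continuous (fun p : ℝ × V =>
      Fam k (fun i => -(fq β₁ β₂ k i) • grk k (dc β₁ β₂ k p.1 c) i)
        (fun i => -(fq β₁ β₂ k i) • grk k (dc β₁ β₂ k p.1 d) i) 1 p.2) :=
    continuous_Fam_coef k
      (A := fun (p : ℝ × V) i => -(fq β₁ β₂ k i) • grk k (dc β₁ β₂ k p.1 c) i)
      (B := fun (p : ℝ × V) i => -(fq β₁ β₂ k i) • grk k (dc β₁ β₂ k p.1 d) i)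
      (hsm _) (hsm _) continuous_snd
  have h := fub (fun t x => W (F₀ + Fam k (grk k (dc β₁ β₂ k t c)) (grk k (dc β₁ β₂ k t d)) 1 x))
    (fun t x => fderiv ℝ W (F₀ + Fam k (grk k (dc β₁ β₂ k t c)) (grk k (dc β₁ β₂ k t d)) 1 x)
      (Fam k (fun i => -(fq β₁ β₂ k i) • grk k (dc β₁ β₂ k t c) i)
        (fun i => -(fq β₁ β₂ k i) • grk k (dc β₁ β₂ k t d) i) 1 x))
    (fun t x => ((hW.differentiable (by norm_num) _).hasFDerivAt).comp_hasDerivAt t
      ((hasDerivAt_dc β₁ β₂ k c d t x).const_add F₀))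
    (hW.continuous.comp hFc) ((hP1.continuous.comp hFc).clm_apply hGc)
    (fun t => step hW π β₁ β₂ Ω hℓ hb hcond F₀ k _ _) hT
  simpa only [h00] using h

omit [Fintype ι] in
theorem fq_pos {β₁ β₂ : V} (hβ : cr β₁ β₂ ≠ 0) (k : ι → Fin 2 → ℤ) (i : ι) (hk : k i ≠ 0) :
    0 < fq β₁ β₂ k i := by
  have hnn : 0 ≤ fq β₁ β₂ k i := by unfold fq; positivity
  rcases hnn.lt_or_eq with h | h
  · exact h
  · exfalso
    unfold fq at h
    have h1 : fr β₁ k i = 0 := by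
      have : fr β₁ k i ^ 2 = 0 := by nlinarith [sq_nonneg (fr β₁ k i), sq_nonneg (fr β₂ k i)]
      exact pow_eq_zero_iff (two_ne_zero) |>.1 this
    have h2 : fr β₂ k i = 0 := by
      have : fr β₂ k i ^ 2 = 0 := by nlinarith [sq_nonneg (fr β₁ k i), sq_nonneg (fr β₂ k i)]
      exact pow_eq_zero_iff (two_ne_zero) |>.1 this
    unfold fr at h1 h2
    have hpi : (2 * Real.pi : ℝ) ≠ 0 := by positivity
    have g1 := (mul_eq_zero.1 h1).resolve_left hpi
    have g2 := (mul_eq_zero.1 h2).resolve_left hpi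
    have k0 : (k i 0 : ℝ) = 0 := by
      have : (k i 0 : ℝ) * cr β₁ β₂ = 0 := by
        unfold cr
        linear_combination β₂ 1 * g1 - β₁ 1 * g2
      exact (mul_eq_zero.1 this).resolve_right hβ
    have k1 : (k i 1 : ℝ) = 0 := by
      have : (k i 1 : ℝ) * cr β₁ β₂ = 0 := by
        unfold cr
        linear_combination β₁ 0 * g2 - β₂ 0 * g1
      exact (mul_eq_zero.1 this).resolve_right hβ
    apply hk
    funext j
    fin_cases j
    · exact_mod_cast k0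
    · exact_mod_cast k1

theorem limit_zero {W : E → ℝ} (hW : Continuous W) {β₁ β₂ : V} (hβ : cr β₁ β₂ ≠ 0)
    (F₀ : E) (k : ι → Fin 2 → ℤ) (c d : ι → V) :
    Tendsto (fun n : ℕ => ∫ x in Icc (0 : V) 1,
      W (F₀ + Fam k (grk k (dc β₁ β₂ k n c)) (grk k (dc β₁ β₂ k n d)) 1 x)) atTop
      (𝓝 (W F₀)) := by
  have hle : ∀ (c : ι → V) (n : ℕ) (i : ι), ‖grk k (dc β₁ β₂ k n c) i‖ ≤ ‖grk k c i‖ := by
    intro c n i
    rw [grk_dc]
    simp only
    rw [norm_smul, Real.norm_eq_abs, abs_of_pos (Real.exp_pos _)]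
    refine mul_le_of_le_one_left (norm_nonneg _) ?_
    rw [Real.exp_le_one_iff]
    have : 0 ≤ (n : ℝ) * fq β₁ β₂ k i := by unfold fq; positivity
    linarith
  have hlim : ∀ (c : ι → V) (i : ι), Tendsto (fun n : ℕ => grk k (dc β₁ β₂ k n c) i) atTop
      (𝓝 0) := by
    intro c i
    simp only [grk_dc]
    by_cases hk : k i = 0
    · have h0 : grk k c i = 0 := by
        ext r l
        simp [grk, hk]
      simp [h0]
    · have h1 : Tendsto (fun n : ℕ => Real.exp (-((n : ℝ) * fq β₁ β₂ k i))) atTop (𝓝 0) := by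
        refine Real.tendsto_exp_neg_atTop_nhds_zero.comp ?_
        refine Tendsto.atTop_mul_const (fq_pos hβ k i hk) ?_
        exact tendsto_natCast_atTop_atTop
      have h2 := h1.smul_const (grk k c i)
      simpa using h2
  set C : ℝ := ∑ i, (‖grk k c i‖ + ‖grk k d i‖) with hC
  have hAC : ∀ i, ‖grk k c i‖ ≤ C := by
    intro i
    have := Finset.single_le_sum (f := fun i => ‖grk k c i‖ + ‖grk k d i‖)
      (fun j _ => by positivity) (Finset.mem_univ i)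
    linarith [norm_nonneg (grk k d i)]
  have hBC : ∀ i, ‖grk k d i‖ ≤ C := by
    intro i
    have := Finset.single_le_sum (f := fun i => ‖grk k c i‖ + ‖grk k d i‖)
      (fun j _ => by positivity) (Finset.mem_univ i)
    linarith [norm_nonneg (grk k c i)]
  have hbd : ∀ (n : ℕ) x, ‖F₀ + Fam k (grk k (dc β₁ β₂ k n c)) (grk k (dc β₁ β₂ k n d)) 1 x‖
      ≤ ‖F₀‖ + Fintype.card ι * (2 * C) := by
    intro n x
    refine (norm_add_le _ _).trans (add_le_add le_rfl ?_)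
    exact E_bdd k (fun i => (hle c n i).trans (hAC i)) (fun i => (hle d n i).trans (hBC i)) x
  obtain ⟨K, hK⟩ := (isCompact_closedBall (0 : E)
    (‖F₀‖ + Fintype.card ι * (2 * C))).exists_bound_of_continuousOn hW.continuousOn
  have hprob := volume_cube'
  have e0 : W F₀ = ∫ x in Icc (0 : V) 1, W F₀ := by
    rw [integral_const]
    simp
  rw [e0]
  refine tendsto_integral_of_dominated_convergence (fun _ => K) (fun n => ?_) ?_ (fun n => ?_) ?_
  · exact (hW.comp (continuous_const.add (continuous_Fam k _ _ 1))).aestronglyMeasurable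
  · exact continuous_const.integrableOn_Icc
  · refine Eventually.of_forall fun x => ?_
    refine hK _ ?_
    rw [mem_closedBall_zero_iff]
    exact hbd n x
  · refine Eventually.of_forall fun x => ?_
    refine (hW.tendsto _).comp ?_
    have h3 : Tendsto (fun n : ℕ => Fam k (grk k (dc β₁ β₂ k n c)) (grk k (dc β₁ β₂ k n d)) 1 x)
        atTop (𝓝 0) := by
      simp only [Fam_one]
      have : (0 : E) = ∑ i : ι, (0 : E) := by simp
      rw [this]
      refine tendsto_finsetSum _ fun i _ => ?_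
      unfold tm
      have := ((hlim c i).const_smul (Real.cos (ph (k i) x))).add
        ((hlim d i).const_smul (Real.sin (ph (k i) x)))
      simpa using this
    simpa using h3.const_add F₀

/-- **Functions of class `C²` with a certificate are quasiconvex.** -/
theorem cert_main {W : E → ℝ} (hW : ContDiff ℝ 2 W) (π : E →L[ℝ] V) {β₁ β₂ : V}
    (hβ : cr β₁ β₂ ≠ 0) (Ω : E →L[ℝ] E →L[ℝ] ℝ) {ℓ : V → ℝ} (hℓ : Measurable ℓ)
    (hb : ∀ R : ℝ, ∃ C : ℝ, ∀ v : V, ‖v‖ ≤ R → |ℓ v| ≤ C)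
    (hcond : Cert W π β₁ β₂ Ω ℓ) : QCtrig W := by
  intro ι _ F₀ k c d
  refine le_of_tendsto (limit_zero hW.continuous hβ F₀ k c d) (Eventually.of_forall fun n => ?_)
  exact flow_le' hW π β₁ β₂ Ω hℓ hb hcond F₀ k c d (Nat.cast_nonneg n)

/-- the certificate with a multiplier which is only known to exist at every point -/
theorem sel_main' {W : E → ℝ} (hW : ContDiff ℝ 2 W) (π : E →L[ℝ] V) (Z : V →L[ℝ] E)
    (hZ : ∀ v, π (Z v) = v) {β₁ β₂ : V}
    (hβ : cr β₁ β₂ ≠ 0) (Ω : E →L[ℝ] E →L[ℝ] ℝ)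
    (hpos : ∃ G₀ G₁ : E, (∀ r, G₀ r 1 = G₁ r 0) ∧ 0 < cr (π G₀) (π G₁))
    (hneg : ∃ G₀ G₁ : E, (∀ r, G₀ r 1 = G₁ r 0) ∧ cr (π G₀) (π G₁) < 0)
    (hp : ∀ v : V, ∃ l : ℝ, ∀ F : E, π F = v → ∀ G₀ G₁ : E, (∀ r, G₀ r 1 = G₁ r 0) →
      0 ≤ fderiv ℝ (fderiv ℝ W) F (β₁ 0 • G₀ + β₁ 1 • G₁) (β₁ 0 • G₀ + β₁ 1 • G₁)
      + fderiv ℝ (fderiv ℝ W) F (β₂ 0 • G₀ + β₂ 1 • G₁) (β₂ 0 • G₀ + β₂ 1 • G₁)
      + (Ω G₀ G₁ - Ω G₁ G₀) + l * cr (π G₀) (π G₁)) : QCtrig W := by
  have hP1 : ContDiff ℝ 1 (fderiv ℝ W) := hW.fderiv_right (by norm_num)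
  have hHc : Continuous (fderiv ℝ (fderiv ℝ W)) := hP1.continuous_fderiv (by norm_num)
  choose L hL using hp
  set X : E → E → E → ℝ := fun F G₀ G₁ =>
    fderiv ℝ (fderiv ℝ W) F (β₁ 0 • G₀ + β₁ 1 • G₁) (β₁ 0 • G₀ + β₁ 1 • G₁)
      + fderiv ℝ (fderiv ℝ W) F (β₂ 0 • G₀ + β₂ 1 • G₁) (β₂ 0 • G₀ + β₂ 1 • G₁)
      + (Ω G₀ G₁ - Ω G₁ G₀) with hX
  have hXc : ∀ (u : V → E), Continuous u → ∀ G₀ G₁, Continuous fun v => X (u v) G₀ G₁ := by
    intro u hu G₀ G₁
    simp only [hX]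
    exact ((((hHc.comp hu).clm_apply continuous_const).clm_apply continuous_const).add
      (((hHc.comp hu).clm_apply continuous_const).clm_apply continuous_const)).add continuous_const
  set I := {MH : E × E × E // π MH.1 = 0 ∧ (∀ r, MH.2.1 r 1 = MH.2.2 r 0) ∧
    0 < cr (π MH.2.1) (π MH.2.2)} with hI
  have hcolM : ∀ (v : V) (M : E), π M = 0 → π (Z v + M) = v := by
    intro v M hM
    rw [map_add, hZ, hM, add_zero]
  set f : I → V → ℝ := fun i v =>
    -(X (Z v + i.1.1) i.1.2.1 i.1.2.2) / cr (π i.1.2.1) (π i.1.2.2) with hf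
  have hfc : ∀ i, Continuous (f i) := by
    intro i
    simp only [hf]
    exact Continuous.div_const (Continuous.neg
      (hXc _ (Z.continuous.add continuous_const) _ _)) _
  have hfL : ∀ v i, f i v ≤ L v := by
    intro v i
    simp only [hf]
    rw [div_le_iff₀ i.2.2.2]
    have := hL v _ (hcolM v i.1.1 i.2.1) i.1.2.1 i.1.2.2 i.2.2.1
    simp only [hX]
    linarith
  have hbdd : ∀ v, BddAbove (range fun i => f i v) := by
    intro v
    refine ⟨L v, ?_⟩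
    rintro y ⟨i, rfl⟩
    exact hfL v i
  obtain ⟨P₀, P₁, hP, hPc⟩ := hpos
  obtain ⟨N₀, N₁, hN, hNc⟩ := hneg
  set i0 : I := ⟨(0, P₀, P₁), map_zero π, hP, hPc⟩ with hi0
  have : Nonempty I := ⟨i0⟩
  set ℓ : V → ℝ := fun v => ⨆ i, f i v with hℓ
  have hmeas : Measurable ℓ :=
    (lowerSemicontinuous_ciSup hbdd fun i => (hfc i).lowerSemicontinuous).measurable
  have hℓL : ∀ v, ℓ v ≤ L v := fun v => ciSup_le fun i => hfL v i
  have hℓf : ∀ v i, f i v ≤ ℓ v := fun v i => le_ciSup (hbdd v) i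
  refine cert_main hW π hβ Ω hmeas ?_ ?_
  · intro R
    have c1 : Continuous (fun v => X (Z v) N₀ N₁ / cr (π N₀) (π N₁)) :=
      (hXc _ Z.continuous _ _).div_const _
    obtain ⟨C1, hC1⟩ := (isCompact_closedBall (0 : V) R).exists_bound_of_continuousOn
      (hfc i0).continuousOn
    obtain ⟨C2, hC2⟩ := (isCompact_closedBall (0 : V) R).exists_bound_of_continuousOn
      c1.continuousOn
    refine ⟨max C1 C2, fun v hv => ?_⟩
    have hv' : v ∈ Metric.closedBall (0 : V) R := by rwa [mem_closedBall_zero_iff]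
    have b1 := hC1 v hv'
    have b2 := hC2 v hv'
    rw [Real.norm_eq_abs] at b1 b2
    rw [abs_le]
    constructor
    · have := (abs_le.1 b1).1
      have h2 := hℓf v i0
      have h3 := le_max_left C1 C2
      linarith
    · have h2 := hL v (Z v) (hZ v) N₀ N₁ hN
      have h3 := hℓL v
      have h4 := (abs_le.1 b2).1
      have h5 := le_max_right C1 C2
      have h6 : L v ≤ -(X (Z v) N₀ N₁ / cr (π N₀) (π N₁)) := by
        rw [← div_neg, le_div_iff₀ (neg_pos.2 hNc)]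
        simp only [hX]
        linarith
      linarith
  · intro F G₀ G₁ hG
    set v := π F with hv
    set M := F - Z v with hM
    have hcM : π M = 0 := by rw [hM, map_sub, hZ, hv, sub_self]
    have hFM : Z v + M = F := by rw [hM]; abel
    rcases lt_or_ge 0 (cr (π G₀) (π G₁)) with hH | hH
    · have h1 := hℓf v ⟨(M, G₀, G₁), hcM, hG, hH⟩
      simp only [hf, hFM] at h1
      rw [div_le_iff₀ hH] at h1
      simp only [hX] at h1
      linarith
    · have h1 := hL v F hv.symm G₀ G₁ hG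
      have h2 : L v * cr (π G₀) (π G₁) ≤ ℓ v * cr (π G₀) (π G₁) :=
        mul_le_mul_of_nonpos_right (hℓL v) hH
      linarith

end fam

end Pool.Agent.Helper27.MQ
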