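import Pool.Agent.Helper27.MQ.RowMain

/-!
# Functions of one row and of the determinant: reduction to functions of one row
-/

set_option autoImplicit false

open MeasureTheory Set Filter Topology

namespace Pool.Agent.Helper27.MQ

open Pool.Agent.W779.Morrey hiding en en_apply
open Pool.Agent.N555.MQ

/-- supporting lines of convex functions on the line -/
theorem subgrad {φ : ℝ → ℝ} (hφ : ConvexOn ℝ univ φ) (x₀ : ℝ) :
    ∃ l : ℝ, ∀ x, φ x₀ + l * (x - x₀) ≤ φ x := by
  set S : Set ℝ := {m | ∃ x, x < x₀ ∧ m = (φ x₀ - φ x) / (x₀ - x)} with hS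
  have hub : ∀ y, x₀ < y → ∀ m ∈ S, m ≤ (φ y - φ x₀) / (y - x₀) := by
    rintro y hy m ⟨x, hx, rfl⟩
    exact hφ.slope_mono_adjacent (mem_univ x) (mem_univ y) hx hy
  have hne : S.Nonempty := ⟨_, x₀ - 1, by linarith, rfl⟩
  have hbdd : BddAbove S := ⟨_, hub (x₀ + 1) (by linarith)⟩
  refine ⟨sSup S, fun x => ?_⟩
  rcases lt_trichotomy x x₀ with h | h | h
  · have h1 : (φ x₀ - φ x) / (x₀ - x) ≤ sSup S := le_csSup hbdd ⟨x, h, rfl⟩
    rw [div_le_iff₀ (by linarith)] at h1
    linarith
  · rw [h]; simp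
  · have h1 := csSup_le hne (hub x h)
    rw [le_div_iff₀ (by linarith)] at h1
    linarith

/-- the three-point inequality -/
theorem three_pt {u : V → ℝ}
    (h : ∀ x y : V, ∀ t : ℝ, 0 ≤ t → t ≤ 1 → (1 - t) • x + t • y ≠ 0 →
      u ((1 - t) • x + t • y) ≤ (1 - t) * u x + t * u y)
    (z₁ z₂ w : V) (s t : ℝ) (hs0 : 0 < s) (hs1 : s < 1)
    (hz : (1 - s) • z₁ + s • z₂ = 0) (hw : w ≠ 0) (ht0 : 0 < t) (ht1 : t ≤ 1) :
    u (t • w) ≤ (1 - t) * ((1 - s) * u z₁ + s * u z₂) + t * u w := by
  have main : ∀ (z₁ z₂ : V) (s : ℝ), 0 < s → s < 1 → (1 - s) • z₁ + s • z₂ = 0 →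
      ((1 - t) * s) • z₂ + t • w ≠ 0 →
      u (t • w) ≤ (1 - t) * ((1 - s) * u z₁ + s * u z₂) + t * u w := by
    intro z₁ z₂ s hs0 hs1 hz hp
    set σ := (1 - t) * s + t with hσ
    have hσ0 : 0 < σ := by
      have : 0 ≤ (1 - t) * s := mul_nonneg (by linarith) hs0.le
      linarith
    have hσ1 : σ ≤ 1 := by
      have : 1 - σ = (1 - t) * (1 - s) := by rw [hσ]; ring
      have : 0 ≤ (1 - t) * (1 - s) := mul_nonneg (by linarith) (by linarith)
      linarith
    have e1 : (1 - t / σ) • z₂ + (t / σ) • w = σ⁻¹ • (((1 - t) * s) • z₂ + t • w) := by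
      have : 1 - t / σ = σ⁻¹ * ((1 - t) * s) := by
        field_simp
        rw [hσ]; ring
      rw [this, smul_add, smul_smul, smul_smul, div_eq_inv_mul]
    have hp2 : (1 - t / σ) • z₂ + (t / σ) • w ≠ 0 := by
      rw [e1]
      exact smul_ne_zero (inv_ne_zero hσ0.ne') hp
    have h1 := h z₂ w (t / σ) (by positivity) (by rw [div_le_one hσ0, hσ]; nlinarith) hp2
    set p := (1 - t / σ) • z₂ + (t / σ) • w with hpdef
    have e2 : (1 - σ) • z₁ + σ • p = t • w := by
      rw [e1, smul_smul, mul_inv_cancel₀ hσ0.ne', one_smul]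
      have e3 : (1 - σ) • z₁ + (((1 - t) * s) • z₂ + t • w)
          = (1 - t) • ((1 - s) • z₁ + s • z₂) + t • w := by
        have : 1 - σ = (1 - t) * (1 - s) := by rw [hσ]; ring
        rw [this]
        module
      rw [e3, hz, smul_zero, zero_add]
    have h2 := h z₁ p σ hσ0.le hσ1 (by rw [e2]; exact smul_ne_zero ht0.ne' hw)
    rw [e2] at h2
    have h3 : σ * u p ≤ (1 - t) * s * u z₂ + t * u w := by
      have h4 := mul_le_mul_of_nonneg_left h1 hσ0.le
      have e4 : σ * ((1 - t / σ) * u z₂ + t / σ * u w) = (σ - t) * u z₂ + t * u w := by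
        field_simp
      rw [e4] at h4
      have e5 : σ - t = (1 - t) * s := by rw [hσ]; ring
      rw [e5] at h4
      exact h4
    have e6 : 1 - σ = (1 - t) * (1 - s) := by rw [hσ]; ring
    rw [e6] at h2
    linarith
  by_cases hp : ((1 - t) * s) • z₂ + t • w = 0
  · have hz' : (1 - (1 - s)) • z₂ + (1 - s) • z₁ = 0 := by
      rw [← hz]; module
    have h1 := main z₂ z₁ (1 - s) (by linarith) (by linarith) hz' (by
      intro hcon
      have e : ((1 - t) * (1 - s)) • z₁ + t • w + (((1 - t) * s) • z₂ + t • w)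
          = (1 - t) • ((1 - s) • z₁ + s • z₂) + (2 * t) • w := by module
      rw [hcon, hp, hz, smul_zero, zero_add, zero_add] at e
      exact smul_ne_zero (by positivity) hw e.symm)
    linarith
  · exact main z₁ z₂ s hs0 hs1 hz hp

/-- A function which satisfies the inequality of convexity at all points except the origin becomes
convex after a change of its value at the origin. -/
theorem fill_zero {u : V → ℝ}
    (h : ∀ x y : V, ∀ t : ℝ, 0 ≤ t → t ≤ 1 → (1 - t) • x + t • y ≠ 0 →
      u ((1 - t) • x + t • y) ≤ (1 - t) * u x + t * u y)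
    (husc : UpperSemicontinuous u) : ∃ c ≤ u 0, ConvexOn ℝ univ (Function.update u 0 c) := by
  classical
  set S : Set ℝ := {m | ∃ (x y : V) (t : ℝ), 0 < t ∧ t < 1 ∧ x ≠ 0 ∧ y ≠ 0 ∧
    (1 - t) • x + t • y = 0 ∧ m = (1 - t) * u x + t * u y} with hS
  have hT : ∀ m ∈ S, ∀ (w : V) (t : ℝ), w ≠ 0 → 0 < t → t ≤ 1 →
      u (t • w) ≤ (1 - t) * m + t * u w := by
    rintro m ⟨x, y, s, hs0, hs1, hx, hy, hz, rfl⟩ w t hw ht0 ht1
    exact three_pt h x y w s t hs0 hs1 hz hw ht0 ht1
  set e₀ : V := fun _ => 1 with he₀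
  have he : e₀ ≠ 0 := fun h0 => by
    have := congrFun h0 0
    simp [he₀] at this
  have hbdd : BddBelow S := by
    refine ⟨2 * u ((1 / 2 : ℝ) • e₀) - u e₀, fun m hm => ?_⟩
    have := hT m hm e₀ (1 / 2) he (by norm_num) (by norm_num)
    linarith
  have hsmall : ∀ ε : ℝ, 0 < ε → ∃ m ∈ S, m < u 0 + ε := by
    intro ε hε
    have h1 := husc 0 (u 0 + ε) (by linarith)
    have hc1 : Tendsto (fun s : ℝ => s • e₀) (𝓝[>] 0) (𝓝 0) := by
      have hc : Continuous (fun s : ℝ => s • e₀) := by fun_prop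
      have := hc.tendsto 0
      rw [zero_smul] at this
      exact this.mono_left nhdsWithin_le_nhds
    have hc2 : Tendsto (fun s : ℝ => -(s • e₀)) (𝓝[>] 0) (𝓝 0) := by
      have := hc1.neg
      rwa [neg_zero] at this
    obtain ⟨s, ⟨g1, g2⟩, g3⟩ := ((hc1.eventually h1).and (hc2.eventually h1) |>.and
      self_mem_nhdsWithin).exists
    have hs : (0 : ℝ) < s := g3
    refine ⟨(1 - 1 / 2) * u (s • e₀) + 1 / 2 * u (-(s • e₀)),
      ⟨s • e₀, -(s • e₀), 1 / 2, by norm_num, by norm_num, smul_ne_zero hs.ne' he,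
        neg_ne_zero.2 (smul_ne_zero hs.ne' he), by module, rfl⟩, by linarith⟩
  have hne : S.Nonempty := by
    obtain ⟨m, hm, _⟩ := hsmall 1 one_pos
    exact ⟨m, hm⟩
  refine ⟨sInf S, ?_, convex_univ, ?_⟩
  · refine le_of_forall_pos_lt_add fun ε hε => ?_
    obtain ⟨m, hm, hlt⟩ := hsmall ε hε
    exact (csInf_le hbdd hm).trans_lt hlt
  · have key : ∀ (y : V) (a b : ℝ), 0 ≤ a → 0 ≤ b → a + b = 1 → y ≠ 0 → b • y ≠ 0 →
        u (b • y) ≤ a * sInf S + b * u y := by
      intro y a b ha hb hab hy hby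
      have hb0 : 0 < b := lt_of_le_of_ne hb (fun h0 => hby (by rw [← h0, zero_smul]))
      rcases ha.lt_or_eq with ha' | ha'
      · have h1 : (u (b • y) - b * u y) / a ≤ sInf S := by
          refine le_csInf hne fun m hm => ?_
          rw [div_le_iff₀ ha']
          have h2 := hT m hm y b hy hb0 (by linarith)
          have h3 : 1 - b = a := by linarith
          rw [h3] at h2
          linarith
        rw [div_le_iff₀ ha'] at h1
        linarith
      · have hb1 : b = 1 := by linarith
        rw [← ha', hb1, one_smul]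
        simp
    intro x _ y _ a b ha hb hab
    have ha' : a = 1 - b := by linarith
    by_cases hz : a • x + b • y = 0
    · rw [hz, Function.update_self]
      by_cases hx : x = 0
      · by_cases hy : y = 0
        · rw [hx, hy, Function.update_self, ← add_smul, hab, one_smul]
        · have hb0 : b = 0 := by
            rw [hx, smul_zero, zero_add] at hz
            exact (smul_eq_zero.1 hz).resolve_right hy
          have ha1 : a = 1 := by linarith
          rw [hx, hb0, ha1, Function.update_self]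
          simp
      · by_cases hy : y = 0
        · have ha0 : a = 0 := by
            rw [hy, smul_zero, add_zero] at hz
            exact (smul_eq_zero.1 hz).resolve_right hx
          have hb1 : b = 1 := by linarith
          rw [hy, ha0, hb1, Function.update_self]
          simp
        · rw [Function.update_of_ne hx, Function.update_of_ne hy]
          have hb0 : 0 < b := lt_of_le_of_ne hb (fun h0 => by
            rw [← h0, zero_smul, add_zero] at hz
            have ha1 : a = 1 := by linarith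
            rw [ha1, one_smul] at hz
            exact hx hz)
          have hb1 : b < 1 := by
            by_contra hcon
            have hb2 : b = 1 := by linarith
            have ha0 : a = 0 := by linarith
            rw [hb2, ha0, zero_smul, zero_add, one_smul] at hz
            exact hy hz
          refine csInf_le hbdd ⟨x, y, b, hb0, hb1, hx, hy, ?_, ?_⟩
          · rw [← ha']; exact hz
          · rw [ha', smul_eq_mul, smul_eq_mul]
    · rw [Function.update_of_ne hz]
      by_cases hx : x = 0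
      · have hy : y ≠ 0 := by
          rintro rfl
          apply hz
          rw [hx]; simp
        rw [hx, Function.update_self, Function.update_of_ne hy, smul_zero, zero_add]
        have hby : b • y ≠ 0 := by
          rw [hx, smul_zero, zero_add] at hz; exact hz
        exact key y a b ha hb hab hy hby
      · by_cases hy : y = 0
        · rw [hy, Function.update_self, Function.update_of_ne hx, smul_zero, add_zero]
          have hax : a • x ≠ 0 := by
            rw [hy, smul_zero, add_zero] at hz; exact hz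
          have := key x b a hb ha (by linarith) hx hax
          rw [smul_eq_mul, smul_eq_mul]
          linarith
        · rw [Function.update_of_ne hx, Function.update_of_ne hy]
          have := h x y b hb (by linarith) (by rw [← ha']; exact hz)
          rw [← ha'] at this
          simpa using this

theorem cr_smul_right (x y : V) (c : ℝ) : cr x (c • y) = c * cr x y := by
  simp only [cr, Pi.smul_apply, smul_eq_mul]; ring

theorem cr_self (x : V) : cr x x = 0 := by simp only [cr]; ring

/-- from generic segments to all segments which do not meet the origin -/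
theorem of_generic {u : V → ℝ}
    (h : ∀ x y : V, ∀ t : ℝ, 0 ≤ t → t ≤ 1 → cr x y ≠ 0 →
      u ((1 - t) • x + t • y) ≤ (1 - t) * u x + t * u y)
    (husc : UpperSemicontinuous u) (x y : V) (t : ℝ) (ht0 : 0 ≤ t) (ht1 : t ≤ 1)
    (hz : (1 - t) • x + t • y ≠ 0) :
    u ((1 - t) • x + t • y) ≤ (1 - t) * u x + t * u y := by
  by_cases hxy : cr x y = 0
  · set z := (1 - t) • x + t • y with hzdef
    set w : V := ![-(z 1), z 0] with hw
    have hzw : 0 < cr z w := by
      have := pos_sq hz
      simp only [cr, hw, Matrix.cons_val_zero, Matrix.cons_val_one]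
      nlinarith
    have hcr : ∀ s : ℝ, cr (x + (t * s) • w) (y - ((1 - t) * s) • w) = - (s * cr z w) := by
      intro s
      have e1 : cr (x + (t * s) • w) (y - ((1 - t) * s) • w)
          = cr x y - s * ((1 - t) * cr x w + t * cr y w) := by
        simp only [cr, Pi.add_apply, Pi.sub_apply, Pi.smul_apply, smul_eq_mul]
        ring
      have e2 : (1 - t) * cr x w + t * cr y w = cr z w := by
        simp only [cr, hzdef, Pi.add_apply, Pi.smul_apply, smul_eq_mul]
        ring
      rw [e1, e2, hxy]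
      ring
    have hzs : ∀ s : ℝ, (1 - t) • (x + (t * s) • w) + t • (y - ((1 - t) * s) • w) = z := by
      intro s
      rw [hzdef]
      module
    refine le_of_forall_pos_le_add fun ε hε => ?_
    have h1 := husc x (u x + ε) (by linarith)
    have h2 := husc y (u y + ε) (by linarith)
    have hc1 : Tendsto (fun s : ℝ => x + (t * s) • w) (𝓝[>] 0) (𝓝 x) := by
      have hc : Continuous (fun s : ℝ => x + (t * s) • w) := by fun_prop
      have := hc.tendsto 0
      simp only [mul_zero, zero_smul, add_zero] at this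
      exact this.mono_left nhdsWithin_le_nhds
    have hc2 : Tendsto (fun s : ℝ => y - ((1 - t) * s) • w) (𝓝[>] 0) (𝓝 y) := by
      have hc : Continuous (fun s : ℝ => y - ((1 - t) * s) • w) := by fun_prop
      have := hc.tendsto 0
      simp only [mul_zero, zero_smul, sub_zero] at this
      exact this.mono_left nhdsWithin_le_nhds
    obtain ⟨s, ⟨g1, g2⟩, g3⟩ := ((hc1.eventually h1).and (hc2.eventually h2) |>.and
      self_mem_nhdsWithin).exists
    have hs : (0 : ℝ) < s := g3
    have h3 := h _ _ t ht0 ht1 (by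
      rw [hcr s]
      have := mul_pos hs hzw
      linarith)
    rw [hzs s] at h3
    have h4 : (1 - t) * u (x + (t * s) • w) ≤ (1 - t) * (u x + ε) :=
      mul_le_mul_of_nonneg_left g1.le (by linarith)
    have h5 : t * u (y - ((1 - t) * s) • w) ≤ t * (u y + ε) :=
      mul_le_mul_of_nonneg_left g2.le ht0
    linarith
  · exact h x y t ht0 ht1 hxy

/-- the matrix with the given rows -/
def mk (x y : V) : E := fun r => if r = 0 then x else y

theorem mk_zero (x y : V) : mk x y 0 = x := rfl

theorem mk_one (x y : V) : mk x y 1 = y := rfl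

theorem dt_eq (F : E) : dt F = cr (F 0) (F 1) := rfl

theorem solve_cr {x₁ x₂ : V} (h : cr x₁ x₂ ≠ 0) (c₁ c₂ : ℝ) :
    ∃ y : V, cr x₁ y = c₁ ∧ cr x₂ y = c₂ := by
  refine ⟨(c₁ / cr x₁ x₂) • x₂ - (c₂ / cr x₁ x₂) • x₁, ?_, ?_⟩
  · have : cr x₁ ((c₁ / cr x₁ x₂) • x₂ - (c₂ / cr x₁ x₂) • x₁) = (c₁ / cr x₁ x₂) * cr x₁ x₂ := by
      simp only [cr, Pi.sub_apply, Pi.smul_apply, smul_eq_mul]; ring
    rw [this]; field_simp
  · have : cr x₂ ((c₁ / cr x₁ x₂) • x₂ - (c₂ / cr x₁ x₂) • x₁) = (c₂ / cr x₁ x₂) * cr x₁ x₂ := by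
      simp only [cr, Pi.sub_apply, Pi.smul_apply, smul_eq_mul]; ring
    rw [this]; field_simp

theorem solve_one {x : V} (h : x ≠ 0) (c : ℝ) : ∃ y : V, cr x y = c := by
  have hp := pos_sq h
  refine ⟨![-(x 1) * (c / (x 0 ^ 2 + x 1 ^ 2)), x 0 * (c / (x 0 ^ 2 + x 1 ^ 2))], ?_⟩
  simp only [cr, Matrix.cons_val_zero, Matrix.cons_val_one]
  field_simp
  ring

section red

variable {g : V → ℝ → ℝ} {B : E →L[ℝ] E →L[ℝ] ℝ}

/-- rank-one convexity of `g (F 0) (det F) + B (F, F)` -/
def RO (g : V → ℝ → ℝ) (B : E →L[ℝ] E →L[ℝ] ℝ) : Prop :=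
  ∀ F H : E, dt H = 0 → ∀ t : ℝ, 0 ≤ t → t ≤ 1 →
    g ((F + t • H) 0) (dt (F + t • H)) + B (F + t • H) (F + t • H)
      ≤ (1 - t) * (g (F 0) (dt F) + B F F) + t * (g ((F + H) 0) (dt (F + H)) + B (F + H) (F + H))

/-- the quadratic form `B` on `x ⊗ (1, a)` -/
noncomputable def qa (B : E →L[ℝ] E →L[ℝ] ℝ) (a : ℝ) (x : V) : ℝ := B (mk x (a • x)) (mk x (a • x))

theorem mk_add (x y x' y' : V) : mk (x + x') (y + y') = mk x y + mk x' y' := by
  ext r l
  fin_cases r <;> simp [mk]

theorem mk_smul (c : ℝ) (x y : V) : mk (c • x) (c • y) = c • mk x y := by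
  ext r l
  fin_cases r <;> simp [mk]

theorem qa_quad (a : ℝ) (x y : V) (t : ℝ) :
    qa B a ((1 - t) • x + t • y) = (1 - t) * qa B a x + t * qa B a y
      - t * (1 - t) * qa B a (y - x) := by
  have e1 : mk ((1 - t) • x + t • y) (a • ((1 - t) • x + t • y))
      = (1 - t) • mk x (a • x) + t • mk y (a • y) := by
    rw [← mk_smul, ← mk_smul, ← mk_add]
    congr 1
    module
  have e2 : mk (y - x) (a • (y - x)) = mk y (a • y) - mk x (a • x) := by
    ext r l
    fin_cases r <;> simp [mk]
    ring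
  unfold qa
  rw [e1, e2]
  simp only [map_add, map_sub, map_smul, _root_.add_apply, _root_.sub_apply, FunLike.coe_smul,
    Pi.smul_apply, smul_eq_mul]
  ring

theorem continuous_mk {X : Type*} [TopologicalSpace X] {f f' : X → V} (hf : Continuous f)
    (hf' : Continuous f') : Continuous (fun x => mk (f x) (f' x)) := by
  refine continuous_pi fun r => ?_
  by_cases hr : r = 0
  · simpa [mk, hr] using hf
  · simpa [mk, hr] using hf'

theorem continuous_qa (a : ℝ) : Continuous (qa B a) := by
  have h1 : Continuous (fun x : V => mk x (a • x)) :=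
    continuous_mk continuous_id (continuous_id.const_smul a)
  exact (B.continuous.comp h1).clm_apply h1

theorem qa_zero (a : ℝ) : qa B a 0 = 0 := by
  have : mk (0 : V) (a • (0 : V)) = 0 := by
    ext r l
    fin_cases r <;> simp [mk]
  unfold qa
  rw [this]; simp

/-- the basic inequality -/
theorem gen (h : RO g B) (x₁ x₂ : V) (hx : cr x₁ x₂ ≠ 0) (a t : ℝ) (ht0 : 0 ≤ t) (ht1 : t ≤ 1)
    (δ₁ δ₂ : ℝ) :
    g ((1 - t) • x₁ + t • x₂) ((1 - t) * δ₁ + t * δ₂)
      ≤ (1 - t) * g x₁ δ₁ + t * g x₂ δ₂ + t * (1 - t) * qa B a (x₂ - x₁) := by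
  obtain ⟨y, hy1, hy2⟩ := solve_cr hx δ₁ (δ₂ - cr x₂ (a • (x₂ - x₁)))
  have hH : dt (mk (x₂ - x₁) (a • (x₂ - x₁))) = 0 := by
    rw [dt_eq, mk_zero, mk_one, cr_smul_right, cr_self, mul_zero]
  have h1 := h (mk x₁ y) (mk (x₂ - x₁) (a • (x₂ - x₁))) hH t ht0 ht1
  have e0 : mk x₁ y + t • mk (x₂ - x₁) (a • (x₂ - x₁))
      = mk ((1 - t) • x₁ + t • x₂) (y + t • (a • (x₂ - x₁))) := by
    rw [← mk_smul, ← mk_add]
    congr 1
    module
  have e1 : mk x₁ y + mk (x₂ - x₁) (a • (x₂ - x₁)) = mk x₂ (y + a • (x₂ - x₁)) := by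
    rw [← mk_add]
    congr 1
    abel
  have d0 : dt (mk ((1 - t) • x₁ + t • x₂) (y + t • (a • (x₂ - x₁)))) = (1 - t) * δ₁ + t * δ₂ := by
    rw [dt_eq, mk_zero, mk_one]
    have h2 : δ₂ = cr x₂ y + cr x₂ (a • (x₂ - x₁)) := by rw [hy2]; ring
    rw [h2, ← hy1]
    simp only [cr, Pi.add_apply, Pi.sub_apply, Pi.smul_apply, smul_eq_mul]
    ring
  have d1 : dt (mk x₁ y) = δ₁ := by rw [dt_eq, mk_zero, mk_one, hy1]
  have d2 : dt (mk x₂ (y + a • (x₂ - x₁))) = δ₂ := by
    rw [dt_eq, mk_zero, mk_one]
    have h2 : δ₂ = cr x₂ y + cr x₂ (a • (x₂ - x₁)) := by rw [hy2]; ring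
    rw [h2]
    simp only [cr, Pi.add_apply, Pi.sub_apply, Pi.smul_apply, smul_eq_mul]
    ring
  have hB : B (mk x₁ y + t • mk (x₂ - x₁) (a • (x₂ - x₁)))
      (mk x₁ y + t • mk (x₂ - x₁) (a • (x₂ - x₁)))
      = (1 - t) * B (mk x₁ y) (mk x₁ y)
        + t * B (mk x₁ y + mk (x₂ - x₁) (a • (x₂ - x₁))) (mk x₁ y + mk (x₂ - x₁) (a • (x₂ - x₁)))
        - t * (1 - t) * qa B a (x₂ - x₁) := by
    unfold qa
    simp only [map_add, map_smul, _root_.add_apply, FunLike.coe_smul,
      Pi.smul_apply, smul_eq_mul]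
    ring
  rw [hB, e0, e1, d0, d1, d2] at h1
  simp only [mk_zero] at h1
  linarith

/-- the second row contributes a nonnegative quadratic form -/
theorem second_row (h : RO g B) (e : V) : 0 ≤ B (mk 0 e) (mk 0 e) := by
  have hH : dt (mk 0 e) = 0 := by
    rw [dt_eq, mk_zero, mk_one]; simp [cr]
  have h1 := h 0 (mk 0 e) hH (1 / 2) (by norm_num) (by norm_num)
  have e1 : ((0 : E) + (1 / 2 : ℝ) • mk 0 e) 0 = 0 := by simp [mk]
  have e2 : ((0 : E) + mk 0 e) 0 = 0 := by simp [mk]
  have d1 : dt ((0 : E) + (1 / 2 : ℝ) • mk 0 e) = 0 := by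
    simp [dt, mk]
  have d2 : dt ((0 : E) + mk 0 e) = 0 := by rw [zero_add, hH]
  have d0 : dt (0 : E) = 0 := by simp [dt]
  rw [e1, e2, d1, d2, d0] at h1
  simp only [zero_add, map_smul, FunLike.coe_smul, Pi.smul_apply, smul_eq_mul, Pi.zero_apply,
    map_zero] at h1
  linarith

/-- the value functional -/
def vl (g : V → ℝ → ℝ) (l : ℝ) (x y : V) : ℝ := g x (cr x y) - l * cr x y

/-- the partial infimum -/
noncomputable def hl (g : V → ℝ → ℝ) (l : ℝ) (x : V) : ℝ := ⨅ y : V, vl g l x y

theorem continuous_vl (hc : Continuous fun F : E => g (F 0) (dt F)) (l : ℝ) (y : V) :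
    Continuous fun x => vl g l x y := by
  have h1 : Continuous (fun x : V => mk x y) := continuous_mk continuous_id continuous_const
  have h2 := hc.comp h1
  have h3 : Continuous (fun x : V => l * cr x y) := by
    unfold cr
    fun_prop
  exact h2.sub h3

theorem vl_bdd (h : RO g B) {l : ℝ} {x₀ : V} (hx₀ : x₀ ≠ 0) {m : ℝ} (hm : ∀ y, m ≤ vl g l x₀ y)
    (x : V) : BddBelow (range fun y => vl g l x y) := by
  have step1 : ∀ (x₀ : V) (m : ℝ), (∀ y, m ≤ vl g l x₀ y) → ∀ x, cr x x₀ ≠ 0 →
      ∃ m', ∀ y, m' ≤ vl g l x y := by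
    intro x₀ m hm x hx
    set x₂ : V := (2 : ℝ) • x₀ - x with hx₂
    have hx0 : x₀ ≠ 0 := by
      rintro rfl
      apply hx
      simp [cr]
    have hc : cr x x₂ ≠ 0 := by
      have : cr x x₂ = 2 * cr x x₀ := by
        simp only [cr, hx₂, Pi.sub_apply, Pi.smul_apply, smul_eq_mul]; ring
      rw [this]
      exact mul_ne_zero two_ne_zero hx
    have hmid : (1 - (1 / 2 : ℝ)) • x + (1 / 2 : ℝ) • x₂ = x₀ := by
      rw [hx₂]; module
    refine ⟨2 * m - g x₂ 0 - (1 / 2) * qa B 0 (x₂ - x), fun y => ?_⟩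
    have h1 := gen h x x₂ hc 0 (1 / 2) (by norm_num) (by norm_num) (cr x y) 0
    rw [hmid] at h1
    obtain ⟨y', hy'⟩ := solve_one hx0 ((1 - 1 / 2) * cr x y + 1 / 2 * 0)
    have h2 := hm y'
    unfold vl at h2 ⊢
    rw [hy'] at h2
    linarith
  by_cases hx : x = 0
  · refine ⟨g 0 0, ?_⟩
    rintro _ ⟨y, rfl⟩
    simp [vl, hx, cr]
  · obtain ⟨x', hx', hx''⟩ : ∃ x' : V, cr x' x₀ ≠ 0 ∧ cr x x' ≠ 0 := by
      by_cases hc : cr x x₀ = 0
      · set w : V := ![-(x₀ 1), x₀ 0] with hw
        have hp := pos_sq hx₀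
        refine ⟨w, ?_, ?_⟩
        · simp only [cr, hw, Matrix.cons_val_zero, Matrix.cons_val_one]
          nlinarith
        · intro hcon
          apply hx
          have g1 : x 0 * x₀ 1 - x 1 * x₀ 0 = 0 := hc
          have g2 : x 0 * x₀ 0 + x 1 * x₀ 1 = 0 := by
            simp only [cr, hw, Matrix.cons_val_zero, Matrix.cons_val_one] at hcon
            linarith
          have e0 : x 0 * (x₀ 0 ^ 2 + x₀ 1 ^ 2) = 0 := by
            linear_combination x₀ 1 * g1 + x₀ 0 * g2
          have e1 : x 1 * (x₀ 0 ^ 2 + x₀ 1 ^ 2) = 0 := by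
            linear_combination (-(x₀ 0)) * g1 + x₀ 1 * g2
          funext j
          fin_cases j
          · exact (mul_eq_zero.1 e0).resolve_right hp.ne'
          · exact (mul_eq_zero.1 e1).resolve_right hp.ne'
      · refine ⟨x + x₀, ?_, ?_⟩
        · have : cr (x + x₀) x₀ = cr x x₀ := by
            simp only [cr, Pi.add_apply]; ring
          rw [this]; exact hc
        · have : cr x (x + x₀) = cr x x₀ := by
            simp only [cr, Pi.add_apply]; ring
          rw [this]; exact hc
    obtain ⟨m', hm'⟩ := step1 x₀ m hm x' hx'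
    obtain ⟨m'', hm''⟩ := step1 x' m' hm' x hx''
    refine ⟨m'', ?_⟩
    rintro _ ⟨y, rfl⟩
    exact hm'' y

/-- **The reduction.** -/
theorem red (hc : Continuous fun F : E => g (F 0) (dt F)) (h : RO g B) (F₀ : E) (hF₀ : F₀ 0 ≠ 0) :
    ∃ (l : ℝ) (f : V → ℝ), Continuous f ∧ (∀ F : E, f (F 0) + l * dt F ≤ g (F 0) (dt F)) ∧
      f (F₀ 0) + l * dt F₀ = g (F₀ 0) (dt F₀) ∧
      ∀ F H : E, dt H = 0 → ∀ t : ℝ, 0 ≤ t → t ≤ 1 →
        f ((F + t • H) 0) + B (F + t • H) (F + t • H)
          ≤ (1 - t) * (f (F 0) + B F F) + t * (f ((F + H) 0) + B (F + H) (F + H)) := by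
  classical
  set x₀ := F₀ 0 with hx₀
  set δ₀ := dt F₀ with hδ₀
  -- convexity in the determinant
  have hp := pos_sq hF₀
  have hgc : ∀ δ : ℝ, ContinuousAt (fun x => g x δ) x₀ := by
    intro δ
    set Y : V → V := fun x => ![-(x 1) * (δ / (x 0 ^ 2 + x 1 ^ 2)), x 0 * (δ / (x 0 ^ 2 + x 1 ^ 2))]
      with hY
    have hYc : ContinuousAt Y x₀ := by
      have hd : ContinuousAt (fun x : V => δ / (x 0 ^ 2 + x 1 ^ 2)) x₀ := by
        refine ContinuousAt.div continuousAt_const ?_ hp.ne'
        fun_prop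
      refine continuousAt_pi.2 fun j => ?_
      fin_cases j
      · exact ((continuous_apply 1).neg.continuousAt).mul hd
      · exact ((continuous_apply 0).continuousAt).mul hd
    have h1 : ContinuousAt (fun x => mk x (Y x)) x₀ := by
      refine continuousAt_pi.2 fun r => ?_
      by_cases hr : r = 0
      · have hid : ContinuousAt (fun x : V => x) x₀ := continuous_id.continuousAt
        simpa [mk, hr] using hid
      · simpa [mk, hr] using hYc
    have h2 : ContinuousAt (fun x => g (mk x (Y x) 0) (dt (mk x (Y x)))) x₀ :=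
      hc.continuousAt.comp h1
    refine h2.congr ?_
    have hne : ∀ᶠ x in 𝓝 x₀, x ≠ 0 := isOpen_ne.mem_nhds hF₀
    filter_upwards [hne] with x hx
    have hpx := pos_sq hx
    have e : dt (mk x (Y x)) = δ := by
      rw [dt_eq, mk_zero, mk_one]
      simp only [cr, hY, Matrix.cons_val_zero, Matrix.cons_val_one]
      field_simp
      ring
    rw [e, mk_zero]
  have hconv : ConvexOn ℝ univ fun δ => g x₀ δ := by
    refine ⟨convex_univ, fun δ₁ _ δ₂ _ a b ha hb hab => ?_⟩
    have ha' : a = 1 - b := by linarith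
    simp only [smul_eq_mul]
    rw [ha']
    set w : V := ![-(x₀ 1), x₀ 0] with hw
    have hxw : 0 < cr x₀ w := by
      simp only [cr, hw, Matrix.cons_val_zero, Matrix.cons_val_one]
      nlinarith
    have hineq : ∀ s : ℝ, 0 < s → g x₀ ((1 - b) * δ₁ + b * δ₂)
        ≤ (1 - b) * g (x₀ + (b * s) • w) δ₁ + b * g (x₀ - ((1 - b) * s) • w) δ₂
          + b * (1 - b) * qa B 0 ((x₀ - ((1 - b) * s) • w) - (x₀ + (b * s) • w)) := by
      intro s hs
      have hcr : cr (x₀ + (b * s) • w) (x₀ - ((1 - b) * s) • w) ≠ 0 := by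
        have : cr (x₀ + (b * s) • w) (x₀ - ((1 - b) * s) • w) = - (s * cr x₀ w) := by
          simp only [cr, Pi.add_apply, Pi.sub_apply, Pi.smul_apply, smul_eq_mul]
          ring
        rw [this]
        have := mul_pos hs hxw
        linarith
      have h1 := gen h _ _ hcr 0 b hb (by linarith) δ₁ δ₂
      have e : (1 - b) • (x₀ + (b * s) • w) + b • (x₀ - ((1 - b) * s) • w) = x₀ := by module
      rw [e] at h1
      exact h1
    have t1 : Tendsto (fun s : ℝ => x₀ + (b * s) • w) (𝓝[>] 0) (𝓝 x₀) := by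
      have hc : Continuous (fun s : ℝ => x₀ + (b * s) • w) := by fun_prop
      have := hc.tendsto 0
      simp only [mul_zero, zero_smul, add_zero] at this
      exact this.mono_left nhdsWithin_le_nhds
    have t2 : Tendsto (fun s : ℝ => x₀ - ((1 - b) * s) • w) (𝓝[>] 0) (𝓝 x₀) := by
      have hc : Continuous (fun s : ℝ => x₀ - ((1 - b) * s) • w) := by fun_prop
      have := hc.tendsto 0
      simp only [mul_zero, zero_smul, sub_zero] at this
      exact this.mono_left nhdsWithin_le_nhds
    have t3 : Tendsto (fun s : ℝ => qa B 0 ((x₀ - ((1 - b) * s) • w) - (x₀ + (b * s) • w)))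
        (𝓝[>] 0) (𝓝 0) := by
      have := ((continuous_qa (B := B) 0).tendsto (x₀ - x₀)).comp (t2.sub t1)
      rw [sub_self, qa_zero] at this
      exact this
    have t4 := (((((hgc δ₁).tendsto).comp t1).const_mul (1 - b)).add
      ((((hgc δ₂).tendsto).comp t2).const_mul b)).add (t3.const_mul (b * (1 - b)))
    rw [mul_zero, add_zero] at t4
    refine ge_of_tendsto t4 ?_
    filter_upwards [self_mem_nhdsWithin] with s hs
    exact hineq s hs
  obtain ⟨l, hl'⟩ := subgrad hconv δ₀
  have hm : ∀ y, g x₀ δ₀ - l * δ₀ ≤ vl g l x₀ y := by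
    intro y
    have := hl' (cr x₀ y)
    unfold vl
    linarith
  have hbdd : ∀ x, BddBelow (range fun y => vl g l x y) := vl_bdd h hF₀ hm
  have hle : ∀ x y, hl g l x ≤ vl g l x y := fun x y => ciInf_le (hbdd x) y
  have husc : UpperSemicontinuous (hl g l) :=
    upperSemicontinuous_ciInf hbdd fun y => (continuous_vl hc l y).upperSemicontinuous
  -- generic convexity
  have hgen : ∀ a : ℝ, ∀ x y : V, ∀ t : ℝ, 0 ≤ t → t ≤ 1 → cr x y ≠ 0 →
      (fun x => hl g l x + qa B a x) ((1 - t) • x + t • y)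
        ≤ (1 - t) * (fun x => hl g l x + qa B a x) x + t * (fun x => hl g l x + qa B a x) y := by
    intro a x y t ht0 ht1 hxy
    simp only
    rw [qa_quad]
    refine le_of_forall_pos_le_add fun ε hε => ?_
    obtain ⟨y₁, hy₁⟩ := exists_lt_of_ciInf_lt (show hl g l x < hl g l x + ε by linarith)
    obtain ⟨y₂, hy₂⟩ := exists_lt_of_ciInf_lt (show hl g l y < hl g l y + ε by linarith)
    have hxt : (1 - t) • x + t • y ≠ 0 := by
      intro h0
      rcases eq_or_ne t 0 with h1 | h1
      · rw [h1, sub_zero, one_smul, zero_smul, add_zero] at h0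
        apply hxy
        rw [h0]; simp [cr]
      · apply hxy
        have e0 := congrFun h0 0
        have e1 := congrFun h0 1
        simp only [Pi.add_apply, Pi.smul_apply, smul_eq_mul, Pi.zero_apply] at e0 e1
        have : t * cr x y = 0 := by
          simp only [cr]
          linear_combination x 0 * e1 - x 1 * e0
        exact (mul_eq_zero.1 this).resolve_left h1
    obtain ⟨y₃, hy₃⟩ := solve_one hxt ((1 - t) * cr x y₁ + t * cr y y₂)
    have h1 := hle ((1 - t) • x + t • y) y₃
    have h2 := gen h x y hxy a t ht0 ht1 (cr x y₁) (cr y y₂)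
    unfold vl at h1 hy₁ hy₂
    rw [hy₃] at h1
    have h3 := mul_le_mul_of_nonneg_left hy₁.le (show 0 ≤ 1 - t by linarith)
    have h4 := mul_le_mul_of_nonneg_left hy₂.le ht0
    linarith
  have huscA : ∀ a, UpperSemicontinuous fun x => hl g l x + qa B a x := fun a =>
    husc.add (continuous_qa a).upperSemicontinuous
  have hfill : ∀ a : ℝ, ∃ c ≤ (fun x => hl g l x + qa B a x) 0,
      ConvexOn ℝ univ (Function.update (fun x => hl g l x + qa B a x) 0 c) := fun a =>
    fill_zero (of_generic (hgen a) (huscA a)) (huscA a)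
  choose c hc0 hcc using hfill
  have hcont : ∀ a, Continuous (Function.update (fun x => hl g l x + qa B a x) 0 (c a)) := fun a =>
    continuousOn_univ.1 ((hcc a).continuousOn isOpen_univ)
  -- the value at the origin is the same
  have hsame : ∀ a, c a = c 0 := by
    intro a
    set e₀ : V := fun _ => 1 with he₀
    have he : e₀ ≠ 0 := fun h0 => by
      have := congrFun h0 0
      simp [he₀] at this
    have ht : Tendsto (fun s : ℝ => s • e₀) (𝓝[>] 0) (𝓝 0) := by
      have hc : Continuous (fun s : ℝ => s • e₀) := by fun_prop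
      have := hc.tendsto 0
      rw [zero_smul] at this
      exact this.mono_left nhdsWithin_le_nhds
    have hlim : ∀ a, Tendsto (fun s : ℝ => hl g l (s • e₀)) (𝓝[>] 0) (𝓝 (c a)) := by
      intro a
      have h1 := ((hcont a).tendsto 0).comp ht
      rw [Function.update_self] at h1
      have h2 := ((continuous_qa (B := B) a).tendsto 0).comp ht
      rw [qa_zero] at h2
      have h3 := h1.sub h2
      rw [sub_zero] at h3
      refine h3.congr' ?_
      filter_upwards [self_mem_nhdsWithin] with s hs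
      have hs' : s • e₀ ≠ 0 := smul_ne_zero (ne_of_gt hs) he
      simp only [Function.comp_apply, Function.update_of_ne hs']
      ring
    exact tendsto_nhds_unique (hlim a) (hlim 0)
  set f : V → ℝ := Function.update (hl g l) 0 (c 0) with hf
  have hfa : ∀ a, Function.update (fun x => hl g l x + qa B a x) 0 (c a)
      = fun x => f x + qa B a x := by
    intro a
    funext x
    by_cases hx : x = 0
    · rw [hx, Function.update_self, hf, Function.update_self, qa_zero, hsame a, add_zero]
    · rw [Function.update_of_ne hx, hf, Function.update_of_ne hx]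
  have hfcont : Continuous f := by
    have h1 := hcont 0
    rw [hfa] at h1
    have h2 : f = fun x => (f x + qa B 0 x) - qa B 0 x := by funext x; ring
    rw [h2]
    exact h1.sub (continuous_qa 0)
  refine ⟨l, f, hfcont, ?_, ?_, ?_⟩
  · intro F
    by_cases hx : F 0 = 0
    · have hd : dt F = 0 := by rw [dt_eq, hx]; simp [cr]
      rw [hx, hd, hf, Function.update_self, mul_zero, add_zero]
      refine (hc0 0).trans ?_
      simp only [qa_zero, add_zero]
      have := hle 0 0
      simpa [vl, cr] using this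
    · rw [hf, Function.update_of_ne hx]
      have := hle (F 0) (F 1)
      unfold vl at this
      rw [← dt_eq] at this
      linarith
  · rw [hf, Function.update_of_ne hF₀]
    have h1 : hl g l x₀ ≤ g x₀ δ₀ - l * δ₀ := by
      have := hle x₀ (F₀ 1)
      unfold vl at this
      exact this
    have h2 : g x₀ δ₀ - l * δ₀ ≤ hl g l x₀ := le_ciInf hm
    linarith
  · intro F H hH t ht0 ht1
    have hBexp : B (F + t • H) (F + t • H) = (1 - t) * B F F + t * B (F + H) (F + H)
        - t * (1 - t) * B H H := by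
      simp only [map_add, map_smul, _root_.add_apply, FunLike.coe_smul,
        Pi.smul_apply, smul_eq_mul]
      ring
    rw [hBexp]
    by_cases hd : H 0 = 0
    · have hHm : H = mk 0 (H 1) := by
        ext r l
        fin_cases r
        · simp [mk, hd]
        · simp [mk]
      have hnn : 0 ≤ B H H := by
        rw [hHm]
        exact second_row h _
      have e1 : (F + t • H) 0 = F 0 := by simp [hd]
      have e2 : (F + H) 0 = F 0 := by simp [hd]
      rw [e1, e2]
      have : 0 ≤ t * (1 - t) * B H H := mul_nonneg (mul_nonneg ht0 (by linarith)) hnn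
      linarith
    · have hpd := pos_sq hd
      set a := (H 0 0 * H 1 0 + H 0 1 * H 1 1) / (H 0 0 ^ 2 + H 0 1 ^ 2) with ha
      have hHm : H = mk (H 0) (a • H 0) := by
        have hdt : H 0 0 * H 1 1 - H 0 1 * H 1 0 = 0 := hH
        ext r l
        fin_cases r
        · simp [mk]
        · fin_cases l
          · simp only [mk, ha, Fin.mk_one, Fin.zero_eta, one_ne_zero, if_false, Pi.smul_apply,
              smul_eq_mul]
            field_simp
            linear_combination (-(H 0 1)) * hdt
          · simp only [mk, ha, Fin.mk_one, one_ne_zero, if_false, Pi.smul_apply,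
              smul_eq_mul]
            field_simp
            linear_combination (H 0 0) * hdt
      have hBH : B H H = qa B a (H 0) := by
        unfold qa
        rw [← hHm]
      have h1 := hcc a
      rw [hfa] at h1
      have h2 := h1.2 (mem_univ (F 0)) (mem_univ (F 0 + H 0)) (show 0 ≤ 1 - t by linarith) ht0
        (by ring)
      simp only [smul_eq_mul] at h2
      rw [qa_quad, add_sub_cancel_left] at h2
      have e1 : (F + t • H) 0 = (1 - t) • F 0 + t • (F 0 + H 0) := by
        simp only [Pi.add_apply, Pi.smul_apply]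
        module
      have e2 : (F + H) 0 = F 0 + H 0 := rfl
      rw [e1, e2, hBH]
      linarith

end red

end Pool.Agent.Helper27.MQ
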