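import Pool.Agent.Helper27.MQ.Flow
import Pool.Agent.N555.MQ.Fin2

/-!
# Functions of one row plus a quadratic form: the smooth case
-/

set_option autoImplicit false

open MeasureTheory Set Filter Topology

namespace Pool.Agent.Helper27.MQ

open Pool.Agent.W779.Morrey hiding en en_apply
open Pool.Agent.N555.MQ

/-- The two-point form of the S-lemma for symmetric matrices. -/
theorem two_point_sym (B : E →L[ℝ] E →L[ℝ] ℝ)
    (h : ∀ H : E, H 0 1 = H 1 0 → dt H = 0 → 0 ≤ B H H) (H K : E)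
    (hs : H 0 1 = H 1 0) (ks : K 0 1 = K 1 0)
    (hH : 0 < dt H) (hK : dt K < 0) : 0 ≤ dt H * B K K - dt K * B H H := by
  set a := dt K with ha
  set c := dt H with hc
  set m := H 0 0 * K 1 1 + K 0 0 * H 1 1 - H 0 1 * K 1 0 - K 0 1 * H 1 0 with hm
  have hdt : ∀ s : ℝ, dt (H + s • K) = c + m * s + a * s ^ 2 := by
    intro s
    simp only [dt, Pi.add_apply, Pi.smul_apply, smul_eq_mul, hc, ha, hm]
    ring
  have hsy : ∀ s : ℝ, (H + s • K) 0 1 = (H + s • K) 1 0 := by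
    intro s
    simp only [Pi.add_apply, Pi.smul_apply, hs, ks]
  set D := m ^ 2 - 4 * a * c with hD
  have hDpos : 0 ≤ D := by nlinarith [sq_nonneg m, mul_pos (neg_pos.2 hK) hH]
  set r := Real.sqrt D with hr
  have hr2 : r ^ 2 = D := Real.sq_sqrt hDpos
  have hr0 : 0 ≤ r := Real.sqrt_nonneg D
  have hrm : m < r ∧ -m < r := by
    have h1 : m ^ 2 < r ^ 2 := by
      rw [hr2, hD]
      nlinarith [mul_pos (neg_pos.2 hK) hH]
    have h2 := abs_lt_of_sq_lt_sq h1 hr0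
    have h3 := abs_lt.1 (by simpa using h2 : |m| < r)
    exact ⟨h3.2, by linarith [h3.1]⟩
  have ha0 : a ≠ 0 := hK.ne
  set s1 := (-m - r) / (2 * a) with hs1
  set s2 := (-m + r) / (2 * a) with hs2
  have e1 : 2 * a * s1 = -m - r := by rw [hs1]; field_simp
  have e2 : 2 * a * s2 = -m + r := by rw [hs2]; field_simp
  have p1 : 0 < s1 := by
    by_contra hcon
    push Not at hcon
    have : 0 ≤ 2 * a * s1 := by nlinarith
    linarith [hrm.2]
  have p2 : s2 < 0 := by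
    by_contra hcon
    push Not at hcon
    have : 2 * a * s2 ≤ 0 := by nlinarith
    linarith [hrm.1]
  have z1 : dt (H + s1 • K) = 0 := by
    rw [hdt]
    have : 4 * a * (c + m * s1 + a * s1 ^ 2) = (2 * a * s1 + m) ^ 2 - D := by rw [hD]; ring
    rw [e1] at this
    have h0 : 4 * a * (c + m * s1 + a * s1 ^ 2) = 0 := by rw [this, ← hr2]; ring
    rcases mul_eq_zero.1 h0 with h1 | h1
    · exfalso; apply ha0; linarith
    · exact h1
  have z2 : dt (H + s2 • K) = 0 := by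
    rw [hdt]
    have : 4 * a * (c + m * s2 + a * s2 ^ 2) = (2 * a * s2 + m) ^ 2 - D := by rw [hD]; ring
    rw [e2] at this
    have h0 : 4 * a * (c + m * s2 + a * s2 ^ 2) = 0 := by rw [this, ← hr2]; ring
    rcases mul_eq_zero.1 h0 with h1 | h1
    · exfalso; apply ha0; linarith
    · exact h1
  have hprod : a * (s1 * s2) = c := by
    have h4 : 4 * a * (a * (s1 * s2)) = 4 * a * c := by
      have : 4 * a * (a * (s1 * s2)) = (2 * a * s1) * (2 * a * s2) := by ring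
      rw [this, e1, e2]
      have : (-m - r) * (-m + r) = m ^ 2 - r ^ 2 := by ring
      rw [this, hr2, hD]; ring
    exact mul_left_cancel₀ (by simpa using ha0 : (4 * a : ℝ) ≠ 0) h4
  have q1 := h _ (hsy s1) z1
  have q2 := h _ (hsy s2) z2
  simp only [map_add, map_smul, _root_.add_apply, FunLike.coe_smul, Pi.smul_apply,
    smul_eq_mul] at q1 q2
  have q3 : 0 ≤ (s1 - s2) * (B H H - s1 * s2 * B K K) := by
    have w1 := mul_nonneg (neg_pos.2 p2).le q1
    have w2 := mul_nonneg p1.le q2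
    nlinarith
  have q4 : 0 ≤ B H H - s1 * s2 * B K K := by
    by_contra hcon
    push Not at hcon
    have : (s1 - s2) * (B H H - s1 * s2 * B K K) < 0 := mul_neg_of_pos_of_neg (by linarith) hcon
    linarith
  have q5 := mul_nonneg (neg_pos.2 hK).le q4
  have q6 : -a * (B H H - s1 * s2 * B K K) = c * B K K - a * B H H := by
    rw [← hprod]; ring
  rw [q6] at q5
  exact q5

/-- The S-lemma for symmetric matrices. -/
theorem slemma_sym (B : E →L[ℝ] E →L[ℝ] ℝ)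
    (h : ∀ H : E, H 0 1 = H 1 0 → dt H = 0 → 0 ≤ B H H) :
    ∃ l : ℝ, ∀ H : E, H 0 1 = H 1 0 → 0 ≤ B H H + l * dt H := by
  set S : Set ℝ := {y | ∃ H : E, H 0 1 = H 1 0 ∧ 0 < dt H ∧ y = -(B H H) / dt H} with hS
  have hub : ∀ K : E, K 0 1 = K 1 0 → dt K < 0 → ∀ y ∈ S, y ≤ B K K / (-dt K) := by
    rintro K ks hK y ⟨H, hs, hH, rfl⟩
    rw [div_le_div_iff₀ hH (neg_pos.2 hK)]
    have := two_point_sym B h H K hs ks hH hK
    nlinarith
  have hne : S.Nonempty := ⟨_, fun r l => if r = l then 1 else 0, by simp, by simp [dt], rfl⟩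
  have hK0 : dt (fun r l : Fin 2 => if r = l then (if r = 0 then (1:ℝ) else -1) else 0) < 0 := by
    simp [dt]
  have hbdd : BddAbove S := ⟨_, fun y hy => hub _ (by simp) hK0 y hy⟩
  refine ⟨sSup S, fun H hs => ?_⟩
  rcases lt_trichotomy (dt H) 0 with hH | hH | hH
  · have h1 := csSup_le hne (hub H hs hH)
    rw [le_div_iff₀ (neg_pos.2 hH)] at h1
    linarith
  · rw [hH, mul_zero, add_zero]
    exact h H hs hH
  · have h1 : -(B H H) / dt H ≤ sSup S := le_csSup hbdd ⟨H, hs, hH, rfl⟩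
    rw [div_le_iff₀ hH] at h1
    linarith

/-- the matrix units -/
def ee (r l : Fin 2) : E := Pi.single r (Pi.single l 1)

theorem ee_expand (H : E) : H = H 0 0 • ee 0 0 + H 0 1 • ee 0 1 + H 1 0 • ee 1 0 + H 1 1 • ee 1 1 := by
  ext r l
  fin_cases r <;> fin_cases l <;> simp [ee]

/-- a quadratic form in coordinates -/
theorem B_expand (B : E →L[ℝ] E →L[ℝ] ℝ) (H : E) :
    B H H = H 0 0 ^ 2 * B (ee 0 0) (ee 0 0)
      + H 0 0 * H 0 1 * (B (ee 0 0) (ee 0 1) + B (ee 0 1) (ee 0 0))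
      + H 0 1 ^ 2 * B (ee 0 1) (ee 0 1)
      + (H 1 0 * H 0 0 * (B (ee 0 0) (ee 1 0) + B (ee 1 0) (ee 0 0))
      + H 1 0 * H 0 1 * (B (ee 0 1) (ee 1 0) + B (ee 1 0) (ee 0 1))
      + H 1 1 * H 0 0 * (B (ee 0 0) (ee 1 1) + B (ee 1 1) (ee 0 0))
      + H 1 1 * H 0 1 * (B (ee 0 1) (ee 1 1) + B (ee 1 1) (ee 0 1)))
      + (H 1 0 ^ 2 * B (ee 1 0) (ee 1 0)
      + H 1 0 * H 1 1 * (B (ee 1 0) (ee 1 1) + B (ee 1 1) (ee 1 0))
      + H 1 1 ^ 2 * B (ee 1 1) (ee 1 1)) := by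
  have e := ee_expand H
  calc B H H = B (H 0 0 • ee 0 0 + H 0 1 • ee 0 1 + H 1 0 • ee 1 0 + H 1 1 • ee 1 1)
        (H 0 0 • ee 0 0 + H 0 1 • ee 0 1 + H 1 0 • ee 1 0 + H 1 1 • ee 1 1) := by rw [← e]
    _ = _ := by
      simp only [map_add, map_smul, _root_.add_apply, FunLike.coe_smul, Pi.smul_apply, smul_eq_mul]
      ring

/-- a quadratic form on the plane in coordinates -/
theorem D_expand (D : V →L[ℝ] V →L[ℝ] ℝ) (s : V) :
    D s s = s 0 ^ 2 * D (Pi.single 0 1) (Pi.single 0 1)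
      + s 0 * s 1 * (D (Pi.single 0 1) (Pi.single 1 1) + D (Pi.single 1 1) (Pi.single 0 1))
      + s 1 ^ 2 * D (Pi.single 1 1) (Pi.single 1 1) := by
  have e : s = s 0 • (Pi.single 0 1 : V) + s 1 • (Pi.single 1 1 : V) := by
    ext j
    fin_cases j <;> simp
  calc D s s = D (s 0 • (Pi.single 0 1 : V) + s 1 • (Pi.single 1 1 : V))
        (s 0 • (Pi.single 0 1 : V) + s 1 • (Pi.single 1 1 : V)) := by rw [← e]
    _ = _ := by
      simp only [map_add, map_smul, _root_.add_apply, FunLike.coe_smul, Pi.smul_apply, smul_eq_mul]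
      ring

/-- the first row -/
noncomputable def rowL : E →L[ℝ] V := ContinuousLinearMap.proj (R := ℝ) (φ := fun _ : Fin 2 => V) 0

theorem rowL_apply (F : E) : rowL F = F 0 := rfl

/-- a matrix with the given first row -/
noncomputable def rowZ : V →L[ℝ] E :=
  ContinuousLinearMap.pi fun r => if r = 0 then ContinuousLinearMap.id ℝ V else 0

theorem rowZ_apply (v : V) : rowL (rowZ v) = v := by
  simp [rowL, rowZ]

/-- the algebra of the certificate: for quadratic forms `h` and `m`, `K` with `K` positive definite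
and `h(b) a₀² + 2 a₀ a₁ m(b) + 2 a₁² K(b) ≥ 0` there is a multiplier -/
theorem row_alg (h00 h01 h11 m00 m01 m10 m11 K00 K01 K11 : ℝ) (hK0 : 0 < K00)
    (hK1 : 0 < K00 * K11 - K01 ^ 2)
    (hpos : ∀ b0 b1 a0 a1 : ℝ, 0 ≤ a0 ^ 2 * (h00 * b0 ^ 2 + 2 * h01 * (b0 * b1) + h11 * b1 ^ 2)
      + 2 * (a0 * a1) * (m00 * b0 ^ 2 + (m01 + m10) * (b0 * b1) + m11 * b1 ^ 2)
      + 2 * a1 ^ 2 * (K00 * b0 ^ 2 + 2 * K01 * (b0 * b1) + K11 * b1 ^ 2))
    (p q r : ℝ) (hp : p ^ 2 = K00) (hpq : p * q = K01) (hqr : q ^ 2 + r ^ 2 = K11) :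
    ∃ l : ℝ, ∀ S0 S1 S2 : ℝ, 0 ≤
      (h00 * (p * S0 + q * S1) ^ 2 + 2 * h01 * ((p * S0 + q * S1) * (p * S1 + q * S2))
        + h11 * (p * S1 + q * S2) ^ 2)
      + (h00 * (r * S1) ^ 2 + 2 * h01 * ((r * S1) * (r * S2)) + h11 * (r * S2) ^ 2)
      - (1 / 2) * (m00 * S0 + (m01 + m10) * S1 + m11 * S2) ^ 2 + l * (S0 * S2 - S1 ^ 2) := by
  -- the functionals
  set x0 : E →L[ℝ] ℝ := p • en 0 0 + q • en 0 1 with hx0
  set x1 : E →L[ℝ] ℝ := p • en 0 1 + q • en 1 1 with hx1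
  set y0 : E →L[ℝ] ℝ := r • en 0 1 with hy0
  set y1 : E →L[ℝ] ℝ := r • en 1 1 with hy1
  set mm : E →L[ℝ] ℝ := m00 • en 0 0 + (m01 + m10) • en 0 1 + m11 • en 1 1 with hmm
  set B : E →L[ℝ] E →L[ℝ] ℝ := h00 • x0.smulRight x0 + (2 * h01) • x0.smulRight x1
    + h11 • x1.smulRight x1 + (h00 • y0.smulRight y0 + (2 * h01) • y0.smulRight y1
    + h11 • y1.smulRight y1) - (1 / 2 : ℝ) • mm.smulRight mm with hB
  have hBa : ∀ H : E, B H H =
      (h00 * (p * H 0 0 + q * H 0 1) ^ 2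
        + 2 * h01 * ((p * H 0 0 + q * H 0 1) * (p * H 0 1 + q * H 1 1))
        + h11 * (p * H 0 1 + q * H 1 1) ^ 2)
      + (h00 * (r * H 0 1) ^ 2 + 2 * h01 * ((r * H 0 1) * (r * H 1 1)) + h11 * (r * H 1 1) ^ 2)
      - (1 / 2) * (m00 * H 0 0 + (m01 + m10) * H 0 1 + m11 * H 1 1) ^ 2 := by
    intro H
    simp only [hB, hx0, hx1, hy0, hy1, hmm, _root_.sub_apply, _root_.add_apply, FunLike.coe_smul,
      Pi.smul_apply, ContinuousLinearMap.smulRight_apply, en_apply, smul_eq_mul]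
    ring
  -- the value at `b ⊗ b`
  have hb : ∀ b0 b1 : ℝ, ∀ H : E, H 0 0 = b0 * b0 → H 0 1 = b0 * b1 → H 1 1 = b1 * b1 →
      0 ≤ B H H := by
    intro b0 b1 H e0 e1 e2
    by_cases hz : b0 = 0 ∧ b1 = 0
    · rw [hBa, e0, e1, e2, hz.1, hz.2]
      simp
    rw [hBa, e0, e1, e2]
    set Kb := K00 * b0 ^ 2 + 2 * K01 * (b0 * b1) + K11 * b1 ^ 2 with hKb
    set mb := m00 * b0 ^ 2 + (m01 + m10) * (b0 * b1) + m11 * b1 ^ 2 with hmb
    set hh := h00 * b0 ^ 2 + 2 * h01 * (b0 * b1) + h11 * b1 ^ 2 with hhh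
    have hKpos : 0 < Kb := by
      have h1 : K00 * Kb = (K00 * b0 + K01 * b1) ^ 2 + (K00 * K11 - K01 ^ 2) * b1 ^ 2 := by
        rw [hKb]; ring
      have h2 : 0 < K00 * Kb := by
        rw [h1]
        by_cases hb1 : b1 = 0
        · have hb0 : b0 ≠ 0 := fun h => hz ⟨h, hb1⟩
          have h3 : 0 < (K00 * b0) ^ 2 := by positivity
          rw [hb1]
          nlinarith
        · have h3 : 0 < (K00 * K11 - K01 ^ 2) * b1 ^ 2 := by positivity
          nlinarith [sq_nonneg (K00 * b0 + K01 * b1)]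
      exact pos_of_mul_pos_right h2 hK0.le
    have hd : 0 ≤ (2 * Kb) ^ 2 * hh + 2 * (2 * Kb * (-mb)) * mb + 2 * (-mb) ^ 2 * Kb :=
      hpos b0 b1 (2 * Kb) (-mb)
    have hd2 : 0 ≤ 2 * Kb * (2 * Kb * hh - mb ^ 2) := by
      have e : 2 * Kb * (2 * Kb * hh - mb ^ 2)
        = (2 * Kb) ^ 2 * hh + 2 * (2 * Kb * (-mb)) * mb + 2 * (-mb) ^ 2 * Kb := by ring
      rw [e]
      exact hd
    have hd3 : 0 ≤ 2 * Kb * hh - mb ^ 2 := nonneg_of_mul_nonneg_right hd2 (by positivity)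
    have e : (h00 * (p * (b0 * b0) + q * (b0 * b1)) ^ 2
        + 2 * h01 * ((p * (b0 * b0) + q * (b0 * b1)) * (p * (b0 * b1) + q * (b1 * b1)))
        + h11 * (p * (b0 * b1) + q * (b1 * b1)) ^ 2)
      + (h00 * (r * (b0 * b1)) ^ 2 + 2 * h01 * ((r * (b0 * b1)) * (r * (b1 * b1)))
        + h11 * (r * (b1 * b1)) ^ 2)
      - (1 / 2) * (m00 * (b0 * b0) + (m01 + m10) * (b0 * b1) + m11 * (b1 * b1)) ^ 2
      = Kb * hh - (1 / 2) * mb ^ 2 := by
      rw [hKb, hhh, hmb, ← hp, ← hpq, ← hqr]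
      ring
    rw [e]
    linarith
  have hmain : ∀ H : E, H 0 1 = H 1 0 → dt H = 0 → 0 ≤ B H H := by
    intro H hs hd
    have hd' : H 0 0 * H 1 1 = H 0 1 ^ 2 := by
      simp only [dt] at hd
      rw [← hs] at hd
      linarith
    have hsc : ∀ c : ℝ, B (c • H) (c • H) = c ^ 2 * B H H := by
      intro c
      simp only [map_smul, FunLike.coe_smul, Pi.smul_apply, smul_eq_mul]
      ring
    by_cases h0 : H 0 0 = 0
    · have h1 : H 0 1 = 0 := by
        rw [h0, zero_mul] at hd'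
        exact pow_eq_zero_iff (two_ne_zero) |>.1 hd'.symm
      by_cases h2 : H 1 1 = 0
      · rw [hBa, h0, h1, h2]; simp
      · have h3 := hb 0 (H 1 1) (H 1 1 • H) (by simp [h0]) (by simp [h1]) (by simp)
        rw [hsc] at h3
        exact nonneg_of_mul_nonneg_right h3 (by positivity)
    · have h3 := hb (H 0 0) (H 0 1) (H 0 0 • H) (by simp) (by simp) (by
        simp only [Pi.smul_apply, smul_eq_mul]
        rw [hd']; ring)
      rw [hsc] at h3
      exact nonneg_of_mul_nonneg_right h3 (by positivity)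
  obtain ⟨l, hl⟩ := slemma_sym B hmain
  refine ⟨l, fun S0 S1 S2 => ?_⟩
  have h1 := hl (fun r l => if r = 0 then (if l = 0 then S0 else S1) else
    (if l = 0 then S1 else S2)) (by simp)
  rw [hBa] at h1
  simp only [dt, if_true, one_ne_zero, if_false] at h1
  linarith

/-- the smooth case with a positive definite quadratic form of the second row -/
theorem row_smooth {h : V → ℝ} (hh : ContDiff ℝ 2 h) (B : E →L[ℝ] E →L[ℝ] ℝ)
    (hKp : ∀ y : V, y ≠ 0 → 0 < B (fun r => if r = 1 then y else 0) (fun r => if r = 1 then y else 0))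
    (hpt : ∀ (v : V) (H : E), dt H = 0 →
      0 ≤ fderiv ℝ (fderiv ℝ h) v (H 0) (H 0) + 2 * B H H) :
    QCtrig (fun F : E => h (F 0) + B F F) := by
  set K00 := B (ee 1 0) (ee 1 0) with hK00
  set K01 := (B (ee 1 0) (ee 1 1) + B (ee 1 1) (ee 1 0)) / 2 with hK01
  set K11 := B (ee 1 1) (ee 1 1) with hK11
  have hKy : ∀ y0 y1 : ℝ, (y0 ≠ 0 ∨ y1 ≠ 0) → 0 < K00 * y0 ^ 2 + 2 * K01 * (y0 * y1) + K11 * y1 ^ 2 := by
    intro y0 y1 hy
    have h1 := hKp ![y0, y1] (by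
      intro h0
      rcases hy with hy | hy
      · exact hy (by simpa using congrFun h0 0)
      · exact hy (by simpa using congrFun h0 1))
    rw [B_expand] at h1
    simp only [zero_ne_one, if_false, if_true, Matrix.cons_val_zero, Matrix.cons_val_one,
      Pi.zero_apply] at h1
    rw [hK01]
    nlinarith
  have hK0 : 0 < K00 := by
    have := hKy 1 0 (Or.inl one_ne_zero)
    nlinarith
  have hK1 : 0 < K00 * K11 - K01 ^ 2 := by
    have h1 := hKy (-K01) K00 (Or.inr hK0.ne')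
    have h2 : K00 * (-K01) ^ 2 + 2 * K01 * (-K01 * K00) + K11 * K00 ^ 2
        = K00 * (K00 * K11 - K01 ^ 2) := by ring
    rw [h2] at h1
    exact pos_of_mul_pos_right h1 hK0.le
  set p := Real.sqrt K00 with hp
  have hp2 : p ^ 2 = K00 := Real.sq_sqrt hK0.le
  have hp0 : 0 < p := Real.sqrt_pos.2 hK0
  set q := K01 / p with hq
  have hpq : p * q = K01 := by rw [hq]; field_simp
  set r := Real.sqrt ((K00 * K11 - K01 ^ 2) / K00) with hr
  have hr2 : r ^ 2 = (K00 * K11 - K01 ^ 2) / K00 := Real.sq_sqrt (by positivity)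
  have hr0 : 0 < r := Real.sqrt_pos.2 (by positivity)
  have hqr : q ^ 2 + r ^ 2 = K11 := by
    have h1 : q ^ 2 = K01 ^ 2 / K00 := by rw [hq, div_pow, hp2]
    rw [h1, hr2]
    field_simp
    ring
  set β₁ : V := ![p, q] with hβ₁
  set β₂ : V := ![0, r] with hβ₂
  have hβ : cr β₁ β₂ ≠ 0 := by
    simp only [cr, hβ₁, hβ₂, Matrix.cons_val_zero, Matrix.cons_val_one]
    have := mul_pos hp0 hr0
    linarith
  -- the coefficients of the mixed part
  set m00 := B (ee 0 0) (ee 1 0) + B (ee 1 0) (ee 0 0) with hm00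
  set m01 := B (ee 0 1) (ee 1 0) + B (ee 1 0) (ee 0 1) with hm01
  set m10 := B (ee 0 0) (ee 1 1) + B (ee 1 1) (ee 0 0) with hm10
  set m11 := B (ee 0 1) (ee 1 1) + B (ee 1 1) (ee 0 1) with hm11
  set c00 := B (ee 0 0) (ee 0 0) with hc00
  set c01 := (B (ee 0 0) (ee 0 1) + B (ee 0 1) (ee 0 0)) / 2 with hc01
  set c11 := B (ee 0 1) (ee 0 1) with hc11
  have hBH : ∀ H : E, B H H = c00 * H 0 0 ^ 2 + 2 * c01 * (H 0 0 * H 0 1) + c11 * H 0 1 ^ 2
      + (m00 * (H 1 0 * H 0 0) + m01 * (H 1 0 * H 0 1) + m10 * (H 1 1 * H 0 0)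
        + m11 * (H 1 1 * H 0 1))
      + (K00 * H 1 0 ^ 2 + 2 * K01 * (H 1 0 * H 1 1) + K11 * H 1 1 ^ 2) := by
    intro H
    rw [B_expand, hc00, hc01, hc11, hm00, hm01, hm10, hm11, hK00, hK01, hK11]
    ring
  set Ω : E →L[ℝ] E →L[ℝ] ℝ :=
    (4 * (K00 * K11 - K01 ^ 2)) • (en 1 0).smulRight (en 1 1)
    + (2 * (K00 * m10 - K01 * m00)) • (en 1 0).smulRight (en 0 0)
    + (2 * (K00 * m11 - K01 * m01)) • (en 1 0).smulRight (en 0 1)
    + (2 * (K01 * m10 - K11 * m00)) • (en 1 1).smulRight (en 0 0)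
    + (2 * (K01 * m11 - K11 * m01)) • (en 1 1).smulRight (en 0 1) with hΩ
  have e0 : (fun F : E => h (F 0) + B F F) = fun F : E => h (rowL F) + B F F := rfl
  rw [e0]
  refine sel_main' (contDiff_WL hh rowL B) rowL rowZ rowZ_apply hβ Ω ?_ ?_ fun v => ?_
  · refine ⟨ee 0 0, ee 0 1, fun r => ?_, ?_⟩
    · fin_cases r <;> simp [ee]
    · simp [cr, rowL, ee]
  · refine ⟨ee 0 1, ee 0 0, fun r => ?_, ?_⟩
    · fin_cases r <;> simp [ee]
    · simp [cr, rowL, ee]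
  · set D := fderiv ℝ (fderiv ℝ h) v with hD
    set d00 := D (Pi.single 0 1) (Pi.single 0 1) with hd00
    set d01 := (D (Pi.single 0 1) (Pi.single 1 1) + D (Pi.single 1 1) (Pi.single 0 1)) / 2 with hd01
    set d11 := D (Pi.single 1 1) (Pi.single 1 1) with hd11
    have hDs : ∀ s : V, D s s = d00 * s 0 ^ 2 + 2 * d01 * (s 0 * s 1) + d11 * s 1 ^ 2 := by
      intro s
      rw [D_expand, hd00, hd01, hd11]
      ring
    obtain ⟨l, hl⟩ := row_alg (d00 + 2 * c00) (d01 + 2 * c01) (d11 + 2 * c11) m00 m01 m10 m11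
      K00 K01 K11 hK0 hK1 (by
        intro b0 b1 a0 a1
        have h1 := hpt v (fun r => if r = 0 then a0 • ![b0, b1] else a1 • ![b0, b1]) (by
          simp [dt]; ring)
        rw [hDs, hBH] at h1
        simp only [if_true, one_ne_zero, if_false, Pi.smul_apply, Matrix.cons_val_zero,
          Matrix.cons_val_one, smul_eq_mul] at h1
        nlinarith) p q r hp2 hpq hqr
    refine ⟨l, fun F hF G₀ G₁ hG => ?_⟩
    have hl' := hl (G₀ 0 0) (G₀ 0 1) (G₁ 0 1)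
    rw [second_WL hh, second_WL hh, hF, hDs, hDs, hBH, hBH]
    have g0 := hG 0
    have g1 := hG 1
    simp only [hΩ, hβ₁, hβ₂, cr, rowL_apply, Matrix.cons_val_zero, Matrix.cons_val_one,
      _root_.add_apply, FunLike.coe_smul, Pi.add_apply,
      Pi.smul_apply, ContinuousLinearMap.smulRight_apply, en_apply, smul_eq_mul, zero_smul,
      Pi.zero_apply, zero_add, ← g0, ← g1]
    have key : 0 ≤ 2 * ((K00 * G₀ 1 0 + 2 * K01 * G₀ 1 1 + K11 * G₁ 1 1)
      + (1 / 2) * (m00 * G₀ 0 0 + (m01 + m10) * G₀ 0 1 + m11 * G₁ 0 1)) ^ 2 := by positivity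
    rw [← hp2, ← hpq, ← hqr] at key ⊢
    linarith

end Pool.Agent.Helper27.MQ
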