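import Pool.Agent.Helper27.MQ.Row

/-!
# Functions of one row plus a quadratic form: the general case
-/

set_option autoImplicit false

open MeasureTheory Set Filter Topology

namespace Pool.Agent.Helper27.MQ

open Pool.Agent.W779.Morrey hiding en en_apply
open Pool.Agent.N555.MQ

/-- the squared length of the second row -/
noncomputable def BR : E →L[ℝ] E →L[ℝ] ℝ :=
  (en 1 0).smulRight (en 1 0) + (en 1 1).smulRight (en 1 1)

theorem BR_apply (F : E) : BR F F = F 1 0 ^ 2 + F 1 1 ^ 2 := by
  simp only [BR, _root_.add_apply, ContinuousLinearMap.smulRight_apply, FunLike.coe_smul,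
    Pi.smul_apply, en_apply, smul_eq_mul]
  ring

/-- **Functions of one row plus a quadratic form.** -/
theorem row_main {h : V → ℝ} (hc : Continuous h) (B : E →L[ℝ] E →L[ℝ] ℝ)
    (hroc : ∀ F H : E, dt H = 0 → ∀ t : ℝ, 0 ≤ t → t ≤ 1 →
      h ((F + t • H) 0) + B (F + t • H) (F + t • H)
        ≤ (1 - t) * (h (F 0) + B F F) + t * (h ((F + H) 0) + B (F + H) (F + H))) :
    QCtrig (fun F : E => h (F 0) + B F F) := by
  have hz : ∀ v : V, rowZ v 0 = v := fun v => rowZ_apply v
  -- the inequality for `h`
  have hh : ∀ H : E, dt H = 0 → ∀ t : ℝ, 0 ≤ t → t ≤ 1 → ∀ v : V,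
      h (v + t • H 0) ≤ (1 - t) * h v + t * h (v + H 0) + t * (1 - t) * B H H := by
    intro H hH t ht0 ht1 v
    have h1 := hroc (rowZ v) H hH t ht0 ht1
    simp only [Pi.add_apply, Pi.smul_apply, hz, map_add, map_smul, _root_.add_apply,
      FunLike.coe_smul, smul_eq_mul] at h1
    linarith
  have hK : ∀ y : V, 0 ≤ B (fun r => if r = 1 then y else 0) (fun r => if r = 1 then y else 0) := by
    intro y
    have h1 := hh (fun r => if r = 1 then y else 0) (by simp [dt]) (1 / 2) (by norm_num)
      (by norm_num) 0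
    simp only [zero_ne_one, if_false, smul_zero, add_zero] at h1
    linarith
  set ε : ℕ → ℝ := fun n => 1 / ((n : ℝ) + 1) with hε
  have hεpos : ∀ n, 0 < ε n := fun n => by simp only [hε]; positivity
  have hεle : ∀ n, ε n ≤ 1 := fun n => by
    simp only [hε]
    rw [div_le_one (by positivity)]
    have : (0 : ℝ) ≤ n := Nat.cast_nonneg n
    linarith
  have hεlim : Tendsto ε atTop (𝓝 0) := tendsto_one_div_add_atTop_nhds_zero_nat
  have hBn : ∀ n (F : E), (B + ε n • BR) F F = B F F + ε n * (F 1 0 ^ 2 + F 1 1 ^ 2) := by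
    intro n F
    simp only [_root_.add_apply, FunLike.coe_smul, Pi.smul_apply, BR_apply, smul_eq_mul]
  refine QCtrig_limit (Wn := fun n F => hm h n (F 0) + (B + ε n • BR) F F) (fun n => ?_)
    (fun n => ?_) (fun F => ?_) (fun R => ?_)
  · have hsm := hm_contDiff hc n
    refine row_smooth hsm (B + ε n • BR) (fun y hy => ?_) fun v H hH => ?_
    · rw [hBn]
      simp only [if_true]
      have h1 : 0 < y 0 ^ 2 + y 1 ^ 2 := pos_sq hy
      have h2 := hK y
      have h3 := mul_pos (hεpos n) h1
      linarith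
    · rw [hBn]
      have hnn : 0 ≤ ε n * (H 1 0 ^ 2 + H 1 1 ^ 2) := by
        have := (hεpos n).le
        positivity
      have h1 := second_WL hsm rowL B (rowZ v) H
      rw [rowZ_apply] at h1
      have h2 : 0 ≤ fderiv ℝ (fderiv ℝ (fun F : E => hm h n (rowL F) + B F F)) (rowZ v) H H := by
        refine second_nonneg (contDiff_WL hsm rowL B) _ _ fun s u t ht0 ht1 => ?_
        have hdu : dt (u • H) = 0 := by
          have : dt (u • H) = u ^ 2 * dt H := by
            simp only [dt, Pi.smul_apply, smul_eq_mul]; ring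
          rw [this, hH, mul_zero]
        have h2 := hm_ineq hc (fun v => hh (u • H) hdu t ht0 ht1 v) n (rowL (rowZ v + s • H))
        have e1 : rowL (rowZ v + s • H + t • u • H) = rowL (rowZ v + s • H) + t • (u • H) 0 := by
          rw [map_add, map_smul]; rfl
        have e2 : rowL (rowZ v + s • H + u • H) = rowL (rowZ v + s • H) + (u • H) 0 := by
          rw [map_add]; rfl
        rw [e1, e2]
        simp only [map_add, map_smul, _root_.add_apply, FunLike.coe_smul, Pi.smul_apply,
          smul_eq_mul] at h2 ⊢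
        linarith
      rw [h1] at h2
      change 0 ≤ fderiv ℝ (fderiv ℝ (hm h n)) v (H 0) (H 0) + 2 * B H H at h2
      linarith
  · exact (contDiff_WL (hm_contDiff hc n) rowL (B + ε n • BR)).continuous
  · have h1 : Tendsto (fun n => hm h n (F 0) + (B F F + ε n * (F 1 0 ^ 2 + F 1 1 ^ 2))) atTop
        (𝓝 (h (F 0) + (B F F + 0 * (F 1 0 ^ 2 + F 1 1 ^ 2)))) :=
      (hm_tendsto hc (F 0)).add ((hεlim.mul_const _).const_add _)
    rw [zero_mul, add_zero] at h1
    refine h1.congr fun n => ?_
    rw [hBn]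
  · obtain ⟨C1, hC1⟩ := (isCompact_closedBall (0 : V)
      (R + 1)).exists_bound_of_continuousOn hc.continuousOn
    have hBc : Continuous (fun F : E => |B F F| + (F 1 0 ^ 2 + F 1 1 ^ 2)) := by
      refine (B.continuous.clm_apply continuous_id).abs.add ?_
      fun_prop
    obtain ⟨C2, hC2⟩ := (isCompact_closedBall (0 : E) R).exists_bound_of_continuousOn
      hBc.continuousOn
    refine ⟨C1 + C2, fun n F hF => ?_⟩
    have hcF : ‖F 0‖ ≤ R := (norm_le_pi_norm F 0).trans hF
    have b1 : |hm h n (F 0)| ≤ C1 := hm_bound hc (fun x hx => by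
      have := hC1 x (by rwa [mem_closedBall_zero_iff])
      rwa [Real.norm_eq_abs] at this) n hcF
    have b2 : |(B + ε n • BR) F F| ≤ C2 := by
      have h2 := hC2 F (by rwa [mem_closedBall_zero_iff])
      rw [Real.norm_eq_abs, abs_of_nonneg (by positivity)] at h2
      rw [hBn]
      refine (abs_add_le _ _).trans ?_
      have h3 : |ε n * (F 1 0 ^ 2 + F 1 1 ^ 2)| ≤ F 1 0 ^ 2 + F 1 1 ^ 2 := by
        rw [abs_of_nonneg (mul_nonneg (hεpos n).le (by positivity))]
        exact mul_le_of_le_one_left (by positivity) (hεle n)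
      linarith
    exact (abs_add_le _ _).trans (add_le_add b1 b2)

end Pool.Agent.Helper27.MQ
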